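import Mathlib

/-!
# Allard-type regularity for anisotropic integrands (MP_5932b0_an): the statement

Definitions only: rectifiable varifolds, anisotropic energy, anisotropic first variation, the
Allard-type theorem for an integrand.
-/

noncomputable section

open MeasureTheory Metric Set Filter Topology
open scoped ENNReal

namespace AllardStm

/-- Euclidean space `ℝⁿ`. -/
abbrev E (n : ℕ) := EuclideanSpace ℝ (Fin n)

/-- Linear maps `ℝⁿ → ℝⁿ` with the operator norm. -/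
abbrev Op (n : ℕ) := E n →L[ℝ] E n

/-- Linear maps `ℝⁿ → ℝᵏ`. -/
abbrev Lin (n k : ℕ) := E n →L[ℝ] E k

/-- Linear subspaces of `ℝⁿ`. -/
abbrev Pl (n : ℕ) := Submodule ℝ (E n)

/-- The volume `ω_m` of the unit ball of `ℝ^m`. -/
def omega (m : ℕ) : ℝ := (volume (ball (0 : E m) 1)).toReal

/-- `T` is an `m`-dimensional linear subspace: a point of the Grassmannian `G(n,m)`. -/
def IsPlane {n : ℕ} (m : ℕ) (T : Pl n) : Prop := Module.finrank ℝ T = m

/-- The image of the linear subspace `T` under the linear map `L`. -/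
def img {n : ℕ} (L : Op n) (T : Pl n) : Pl n := T.map (L : E n →ₗ[ℝ] E n)

/-- The function `Ψ` of planes in the coordinates of the action of `GL(n)` centred at the plane
`T`: the function `M ↦ Ψ((1 + M) T)` of the linear map `M`. -/
def orb {n : ℕ} (Ψ : Pl n → ℝ) (T : Pl n) (M : Op n) : ℝ := Ψ (img (1 + M) T)

/-- `f` is of class `C^k` near the point `x` of the normed space `W`. -/
def SmoothAt {W : Type} [NormedAddCommGroup W] [NormedSpace ℝ W] (k : ℕ) (f : W → ℝ) (x : W) :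
    Prop := ContDiffAt ℝ k f x

/-- The norm of the `i`-th derivative of `f` at the point `x` of the normed space `W`. -/
def derNorm {W : Type} [NormedAddCommGroup W] [NormedSpace ℝ W] (i : ℕ) (f : W → ℝ) (x : W) : ℝ :=
  ‖iteratedFDeriv ℝ i f x‖

/-- `Ψ` is a function of class `C^k` on `G(n,m)`. -/
def IsCk {n : ℕ} (m k : ℕ) (Ψ : Pl n → ℝ) : Prop :=
  ∀ T : Pl n, IsPlane m T → SmoothAt k (orb Ψ T) 0

/-- An integrand of class `C^k`: a positive function of class `C^k` on the Grassmannian `G(n,m)` of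
the `m`-dimensional linear subspaces of `ℝⁿ` (the values of `Ψ` at other subspaces play no role). -/
def IsIntegrand {n : ℕ} (m k : ℕ) (Ψ : Pl n → ℝ) : Prop :=
  (∀ T : Pl n, IsPlane m T → 0 < Ψ T) ∧ IsCk m k Ψ

/-- `‖Ψ - 1‖_{C^k(G(n,m))} ≤ δ`: at every plane all derivatives of order at most `k` of `Ψ - 1`
(in the coordinates `M ↦ (1 + M) T` centred at that plane) are at most `δ`. -/
def CloseToArea {n : ℕ} (m k : ℕ) (δ : ℝ) (Ψ : Pl n → ℝ) : Prop :=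
  ∀ T : Pl n, IsPlane m T → ∀ i ≤ k, derNorm i (orb (fun S => Ψ S - 1) T) 0 ≤ δ

/-- The `m`-dimensional Hausdorff measure of `ℝⁿ` with the usual normalisation
`ω_m 2^{-m} diam^m`. -/
def haus (n m : ℕ) : Measure (E n) :=
  (volume (ball (0 : E m) 1) / 2 ^ m) • Measure.hausdorffMeasure (m : ℝ)

/-- The blow-up `r^{-m} ∫_Γ φ((z - x)/r) dH^m(z)` of `Γ` at `x`, tested with `φ`. -/
def blowUp {n : ℕ} (m : ℕ) (Γ : Set (E n)) (x : E n) (φ : E n → ℝ) (r : ℝ) : ℝ :=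
  (r ^ m)⁻¹ * ∫ z in Γ, φ (r⁻¹ • (z - x)) ∂(haus n m)

/-- The linear isometry `ι : ℝ^m → ℝⁿ` is a parametrisation of the plane `T`. -/
def Spans {n m : ℕ} (ι : E m →ₗᵢ[ℝ] E n) (T : Pl n) : Prop := ∀ v : E n, v ∈ T ↔ ∃ w, ι w = v

/-- `T` is the approximate tangent plane of `Γ` at `x`:
`r^{-m} ∫_Γ φ((z - x)/r) dH^m(z) → ∫_T φ dL^m` as `r → 0` for all `φ ∈ C_c(ℝⁿ)`. -/
def IsTangent {n : ℕ} (m : ℕ) (Γ : Set (E n)) (x : E n) (T : Pl n) : Prop :=
  ∃ ι : E m →ₗᵢ[ℝ] E n, Spans ι T ∧ ∀ φ : E n → ℝ, Continuous φ → HasCompactSupport φ →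
    Tendsto (blowUp m Γ x φ) (𝓝[>] 0) (𝓝 (∫ w : E m, φ (ι w)))

/-- A rectifiable `m`-varifold `θ[[Γ]]` in `U` with multiplicity `θ ≥ 1`; `T x` is the
approximate tangent plane of `Γ` at almost every `x ∈ Γ`. -/
structure Varifold (n m : ℕ) (U : Set (E n)) where
  Γ : Set (E n)
  θ : E n → ℝ
  T : E n → Pl n
  sub : Γ ⊆ U
  meas : NullMeasurableSet Γ (haus n m)
  rect : ∃ f : ℕ → E m → E n, (∀ j, ∃ K, LipschitzWith K (f j)) ∧
    haus n m (Γ \ ⋃ j, range (f j)) = 0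
  int : LocallyIntegrableOn θ U ((haus n m).restrict Γ)
  one_le : ∀ x ∈ Γ, 1 ≤ θ x
  tan : ∀ᵐ x ∂((haus n m).restrict Γ), IsTangent m Γ x (T x)

variable {n m : ℕ} {U : Set (E n)}

/-- The weight measure `‖V‖ = θ H^m ⌞ Γ`. -/
def Varifold.mass (V : Varifold n m U) : Measure (E n) :=
  ((haus n m).restrict V.Γ).withDensity fun x => ENNReal.ofReal (V.θ x)

/-- The square root of the determinant of the Gram matrix `⟨L e_i, L e_j⟩`. -/
def gram {k : ℕ} (L : Op n) (e : Fin k → E n) : ℝ :=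
  Real.sqrt (Matrix.det (Matrix.of fun i j => (inner ℝ (L (e i)) (L (e j)) : ℝ)))

/-- `e` is an orthonormal basis of the plane `T`. -/
def IsOnb {k : ℕ} (e : Fin k → E n) (T : Pl n) : Prop :=
  Orthonormal ℝ e ∧ Submodule.span ℝ (range e) = T

/-- The Jacobian of the linear map `L` on the `m`-plane `T`: the number `√det ⟨L e_i, L e_j⟩`, which
is the same for all orthonormal bases `e` of `T`. -/
def jacobian (m : ℕ) (L : Op n) (T : Pl n) : ℝ :=
  sSup {J | ∃ e : Fin m → E n, IsOnb e T ∧ J = gram L e}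

/-- The anisotropic energy `F_Ψ(f_# V)` of the push-forward of `V` by the `C¹` map `f`. -/
def Varifold.energy (V : Varifold n m U) (Ψ : Pl n → ℝ) (f : E n → E n) : ℝ :=
  ∫ x, Ψ (img (fderiv ℝ f x) (V.T x)) * jacobian m (fderiv ℝ f x) (V.T x) ∂V.mass

/-- The anisotropic first variation `δ_Ψ V(g) = d/dt F_Ψ((id + t g)_# V)` at `t = 0`. -/
def Varifold.firstVariation (V : Varifold n m U) (Ψ : Pl n → ℝ) (g : E n → E n) : ℝ :=
  deriv (fun t : ℝ => V.energy Ψ fun x => x + t • g x) 0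

/-- `H` is the anisotropic mean curvature of `V` in `U`:
`δ_Ψ V(g) = ∫ H · g d‖V‖` for all `g ∈ C¹_c(U, ℝⁿ)`. -/
def Varifold.IsMeanCurvature (V : Varifold n m U) (Ψ : Pl n → ℝ) (H : E n → E n) : Prop :=
  ∀ g : E n → E n, ContDiff ℝ 1 g → HasCompactSupport g → tsupport g ⊆ U →
    V.firstVariation Ψ g = ∫ x, inner ℝ (H x) (g x) ∂V.mass

/-- `u` is of class `C^{1,α}` on the open set `Ω`. -/
def IsC1Holder {X Y : Type} [NormedAddCommGroup X] [NormedSpace ℝ X] [NormedAddCommGroup Y]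
    [NormedSpace ℝ Y] (α : ℝ) (Ω : Set X) (u : X → Y) : Prop :=
  (∀ x ∈ Ω, DifferentiableAt ℝ u x) ∧ ∃ C : ℝ, ∀ x ∈ Ω, ‖u x‖ ≤ C ∧ ‖fderiv ℝ u x‖ ≤ C ∧
    ∀ y ∈ Ω, ‖fderiv ℝ u x - fderiv ℝ u y‖ ≤ C * ‖x - y‖ ^ α

/-- `(p, q) : X → Y × Z` is a linear isometry and `A = {x | p x ∈ Ω, q x = u (p x)}` is the graph of a
`C^{1,α}` map `u` from an open set `Ω ⊆ Y` into `Z`. -/
def IsGraph {X Y Z : Type} [NormedAddCommGroup X] [NormedSpace ℝ X] [NormedAddCommGroup Y]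
    [NormedSpace ℝ Y] [NormedAddCommGroup Z] [NormedSpace ℝ Z] (α : ℝ) (A : Set X)
    (p : X →L[ℝ] Y) (q : X →L[ℝ] Z) : Prop :=
  (∀ x, ‖x‖ ^ 2 = ‖p x‖ ^ 2 + ‖q x‖ ^ 2) ∧ ∃ (Ω : Set Y) (u : Y → Z),
    IsOpen Ω ∧ IsC1Holder α Ω u ∧ A = {x | p x ∈ Ω ∧ q x = u (p x)}

/-- The set `A` is, after a rotation, the graph of a `C^{1,α}` map from an open subset of
`ℝ^m` into `ℝ^{n-m}`. -/
def IsC1HolderGraph (m : ℕ) (α : ℝ) (A : Set (E n)) : Prop :=
  ∃ (p : Lin n m) (q : Lin n (n - m)), IsGraph α A p q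

/-- The hypotheses of the Allard-type theorem: `0 ∈ spt ‖V‖`, `‖V‖(B_1) ≤ (1 + ε) ω_m`, and the
anisotropic mean curvature of `V` is in `L^p` with norm at most `ε`. -/
structure Varifold.IsSmall (V : Varifold n m (ball 0 1)) (Ψ : Pl n → ℝ) (p : ℝ≥0∞) (ε : ℝ) :
    Prop where
  zero_mem : 0 ∈ V.mass.support
  ratio : V.mass (ball 0 1) ≤ ENNReal.ofReal ((1 + ε) * omega m)
  curv : ∃ H : E n → E n, V.IsMeanCurvature Ψ H ∧ MemLp H p V.mass ∧
    eLpNorm H p V.mass ≤ ENNReal.ofReal ε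

/-- The Allard-type theorem holds for the integrand `Ψ`. -/
def AllardTheorem (n m : ℕ) (Ψ : Pl n → ℝ) : Prop :=
  ∀ p : ℝ≥0∞, m < p → ∃ ε ∈ Ioo (0 : ℝ) 1, ∃ γ ∈ Ioo (0 : ℝ) 1, ∃ α ∈ Ioo (0 : ℝ) 1,
    ∀ V : Varifold n m (ball 0 1), V.IsSmall Ψ p ε →
      IsC1HolderGraph m α (V.mass.support ∩ ball 0 γ)

end AllardStm
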