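import Mathlib
import Pool.Agent.Lib.MP_5932b0_an.AR.B1
import Pool.Agent.Lib.MP_5932b0_an.ST.Stm
import Pool.Agent.Lib.MP_5932b0_an.AR.Defs

section

section

/-!
# A2a: projections of rank `m`, basics

Proofs.
* `P` symmetric idempotent: `‖P x‖² = ⟨P x, x⟩`, `‖P x‖² + ‖(1-P) x‖² = ‖x‖²`.
* tilt: `tr ((P-Q)(P-Q)) = 2 m - 2 tr (P Q) = 2 tilt P Q`, and for symmetric `A`,
  `tr (A A) = ∑ ‖A e_i‖² ≥ ‖A‖²` (for `‖x‖ = 1`, `‖A x‖² = ∑ ⟨A x, e_i⟩² = ∑ ⟨x, A e_i⟩²`
  `≤ ∑ ‖A e_i‖²`).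
* `tilt P Q = tr (P (1-Q)) = tr (P (1-Q) P) = tr (P (1-Q)(1-Q) P)`, quadratic form
  `‖(1-Q) P x‖² = ‖(1-Q) P (P x)‖² ≤ ‖(1-Q) P‖² ‖P x‖² = ‖(1-Q)P‖² ⟨P x, x⟩`, so by
  `tr_le_of_form` the trace is at most `‖(1-Q)P‖² tr P`.
-/

noncomputable section

open MeasureTheory Metric Set Filter Topology

namespace Allard

variable {n m : ℕ} {P Q : Op n}

theorem Pr.inner_symm (hP : Pr n m P) (x y : E n) : inner ℝ (P x) y = inner ℝ x (P y) := by
  have h := inner_tp P x y
  rwa [hP.symm] at h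

theorem Pr.apply_apply (hP : Pr n m P) (x : E n) : P (P x) = P x := by
  have h := congrArg (fun A : Op n => A x) hP.idem
  exact h

theorem Pr.perp_apply (hP : Pr n m P) (x : E n) : P ((1 - P) x) = 0 := by
  have h : (1 - P) x = x - P x := rfl
  rw [h, map_sub, hP.apply_apply, sub_self]

theorem Pr.perp_apply' (hP : Pr n m P) (x : E n) : (1 - P) (P x) = 0 := by
  have h : (1 - P) (P x) = P x - P (P x) := rfl
  rw [h, hP.apply_apply, sub_self]

theorem Pr.perp_idem (hP : Pr n m P) : (1 - P) * (1 - P) = 1 - P := by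
  rw [mul_sub, sub_mul, sub_mul, hP.idem, one_mul, mul_one, one_mul, sub_self, sub_zero]

theorem Pr.perp_symm (hP : Pr n m P) : tp (1 - P) = 1 - P := by
  rw [tp_sub, tp_one, hP.symm]

theorem Pr.mul_perp (hP : Pr n m P) : P * (1 - P) = 0 := by
  rw [mul_sub, mul_one, hP.idem, sub_self]

theorem Pr.perp_mul (hP : Pr n m P) : (1 - P) * P = 0 := by
  rw [sub_mul, one_mul, hP.idem, sub_self]

theorem Pr.norm_sq (hP : Pr n m P) (x : E n) : ‖P x‖ ^ 2 = inner ℝ (P x) x := by
  rw [← real_inner_self_eq_norm_sq, hP.inner_symm x (P x), hP.apply_apply, real_inner_comm]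

theorem Pr.pyth (hP : Pr n m P) (x : E n) : ‖P x‖ ^ 2 + ‖(1 - P) x‖ ^ 2 = ‖x‖ ^ 2 := by
  have h : (1 - P) x = x - P x := rfl
  have h1 := hP.norm_sq x
  rw [h, norm_sub_sq_real, real_inner_comm, ← h1]
  ring

theorem Pr.norm_apply_le (hP : Pr n m P) (x : E n) : ‖P x‖ ≤ ‖x‖ := by
  have h := hP.pyth x
  refine abs_le_of_sq_le_sq' ?_ (norm_nonneg x) |>.2
  nlinarith [sq_nonneg ‖(1 - P) x‖]

theorem Pr.perp_norm_apply_le (hP : Pr n m P) (x : E n) : ‖(1 - P) x‖ ≤ ‖x‖ := by
  have h := hP.pyth x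
  refine abs_le_of_sq_le_sq' ?_ (norm_nonneg x) |>.2
  nlinarith [sq_nonneg ‖P x‖]

theorem Pr.norm_le (hP : Pr n m P) : ‖P‖ ≤ 1 :=
  ContinuousLinearMap.opNorm_le_bound _ zero_le_one fun x => by
    rw [one_mul]
    exact hP.norm_apply_le x

theorem Pr.perp_norm_le (hP : Pr n m P) : ‖1 - P‖ ≤ 1 :=
  ContinuousLinearMap.opNorm_le_bound _ zero_le_one fun x => by
    rw [one_mul]
    exact hP.perp_norm_apply_le x

theorem Pr.norm_sub_le (hP : Pr n m P) (hQ : Pr n m Q) : ‖P - Q‖ ≤ 2 := by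
  refine (_root_.norm_sub_le P Q).trans ?_
  have h1 := hP.norm_le
  have h2 := hQ.norm_le
  linarith

end Allard
end
end

section

/-!
# A2: tilt and gain density

Proofs.
* `P` symmetric idempotent: `‖P x‖² = ⟨P x, x⟩`, `‖P x‖² + ‖(1-P) x‖² = ‖x‖²`.
* tilt: `tr ((P-Q)(P-Q)) = 2 m - 2 tr (P Q) = 2 tilt P Q`, and for symmetric `A`,
  `tr (A A) = ∑ ‖A e_i‖² ≥ ‖A‖²` (for `‖x‖ = 1`, `‖A x‖² = ∑ ⟨A x, e_i⟩² = ∑ ⟨x, A e_i⟩²`
  `≤ ∑ ‖A e_i‖²`).
* `tilt P Q = tr (P (1-Q)) = tr (P (1-Q) P) = tr (P (1-Q)(1-Q) P)`, quadratic form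
  `‖(1-Q) P x‖² = ‖(1-Q) P (P x)‖² ≤ ‖(1-Q) P‖² ‖P x‖² = ‖(1-Q)P‖² ⟨P x, x⟩`, so by
  `tr_le_of_form` the trace is at most `‖(1-Q)P‖² tr P`.
-/

noncomputable section

open MeasureTheory Metric Set Filter Topology

namespace Allard

variable {n m : ℕ} {P Q : Op n}

private theorem A2_hs (b : OrthonormalBasis (Fin n) ℝ (E n)) (A : Op n) (x : E n) :
    ‖A x‖ ≤ Real.sqrt (∑ i, ‖A (b i)‖ ^ 2) * ‖x‖ := by
  have hx : A x = ∑ i, inner ℝ (b i) x • A (b i) := by
    conv_lhs => rw [← b.sum_repr' x]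
    rw [map_sum]
    exact Finset.sum_congr rfl fun i _ => map_smul _ _ _
  have h2 : ‖A x‖ ≤ ∑ i, |inner ℝ (b i) x| * ‖A (b i)‖ := by
    rw [hx]
    refine (norm_sum_le _ _).trans (Finset.sum_le_sum fun i _ => ?_)
    rw [norm_smul, Real.norm_eq_abs]
  have h3 : (∑ i, |inner ℝ (b i) x| * ‖A (b i)‖) ^ 2 ≤
      (∑ i, |inner ℝ (b i) x| ^ 2) * ∑ i, ‖A (b i)‖ ^ 2 := Finset.sum_mul_sq_le_sq_mul_sq _ _ _
  have h4 : ∑ i, |inner ℝ (b i) x| ^ 2 = ‖x‖ ^ 2 := by
    have h5 := b.sum_sq_norm_inner_right x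
    rw [← h5]
    exact Finset.sum_congr rfl fun i _ => by rw [Real.norm_eq_abs]
  rw [h4] at h3
  have h6 : ∑ i, |inner ℝ (b i) x| * ‖A (b i)‖ ≤
      Real.sqrt (‖x‖ ^ 2 * ∑ i, ‖A (b i)‖ ^ 2) := Real.le_sqrt_of_sq_le h3
  rw [Real.sqrt_mul (sq_nonneg _), Real.sqrt_sq (norm_nonneg x), mul_comm] at h6
  exact h2.trans h6

/-- `‖A‖² ≤ tr (Aᵀ A)`. -/
theorem sq_norm_le_tr (A : Op n) : ‖A‖ ^ 2 ≤ tr (tp A * A) := by
  have e1 : tr (tp A * A) = ∑ i, ‖A (EuclideanSpace.basisFun (Fin n) ℝ i)‖ ^ 2 := by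
    rw [tr_eq_sum]
    refine Finset.sum_congr rfl fun i _ => ?_
    have h1 : (tp A * A : Op n) (EuclideanSpace.basisFun (Fin n) ℝ i) =
        tp A (A (EuclideanSpace.basisFun (Fin n) ℝ i)) := rfl
    rw [h1, inner_tp, real_inner_self_eq_norm_sq]
  have h0 : 0 ≤ ∑ i, ‖A (EuclideanSpace.basisFun (Fin n) ℝ i)‖ ^ 2 :=
    Finset.sum_nonneg fun _ _ => sq_nonneg _
  have h1 : ‖A‖ ≤ Real.sqrt (∑ i, ‖A (EuclideanSpace.basisFun (Fin n) ℝ i)‖ ^ 2) :=
    ContinuousLinearMap.opNorm_le_bound _ (Real.sqrt_nonneg _) fun x => A2_hs _ A x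
  have h2 := pow_le_pow_left₀ (norm_nonneg A) h1 2
  rw [Real.sq_sqrt h0] at h2
  rw [e1]
  exact h2

private theorem A2_tilt (hP : Pr n m P) (hQ : Pr n m Q) :
    tilt P Q = tr (tp ((1 - Q) * P) * ((1 - Q) * P)) := by
  unfold tilt
  rw [tp_mul, hP.symm, hQ.perp_symm]
  have e1 : P * (1 - Q) * ((1 - Q) * P) = P * ((1 - Q) * (1 - Q)) * P := by noncomm_ring
  rw [e1, hQ.perp_idem, tr_mul_comm (P * (1 - Q)) P, ← mul_assoc, hP.idem]

theorem tilt_nonneg (hP : Pr n m P) (hQ : Pr n m Q) : 0 ≤ tilt P Q := by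
  rw [A2_tilt hP hQ]
  exact (sq_nonneg _).trans (sq_norm_le_tr _)

theorem tilt_comm (hP : Pr n m P) (hQ : Pr n m Q) : tilt P Q = tilt Q P := by
  unfold tilt
  rw [mul_sub, mul_sub, mul_one, mul_one, tr_sub, tr_sub, hP.trp, hQ.trp, tr_mul_comm P Q]

theorem sq_norm_le_tilt (hP : Pr n m P) (hQ : Pr n m Q) : ‖P - Q‖ ^ 2 ≤ 2 * tilt P Q := by
  refine (sq_norm_le_tr (P - Q)).trans (le_of_eq ?_)
  unfold tilt
  rw [tp_sub, hP.symm, hQ.symm]
  have e1 : (P - Q) * (P - Q) = (P * P - P * Q) - (Q * P - Q * Q) := by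
    rw [sub_mul, mul_sub, mul_sub]
  have e2 : tr (P * (1 - Q)) = m - tr (P * Q) := by
    rw [mul_sub, mul_one, tr_sub, hP.trp]
  rw [e1, hP.idem, hQ.idem, tr_sub, tr_sub, tr_sub, hP.trp, hQ.trp, tr_mul_comm Q P, e2]
  ring

theorem tilt_le (hP : Pr n m P) (hQ : Pr n m Q) : tilt P Q ≤ m * ‖(1 - Q) * P‖ ^ 2 := by
  rw [A2_tilt hP hQ]
  have h1 : tr (tp ((1 - Q) * P) * ((1 - Q) * P)) ≤ tr (‖(1 - Q) * P‖ ^ 2 • P) := by
    refine tr_le_of_form _ _ fun x => ?_
    have e1 : inner ℝ ((tp ((1 - Q) * P) * ((1 - Q) * P) : Op n) x) x =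
        ‖((1 - Q) * P : Op n) x‖ ^ 2 := by
      have e0 : (tp ((1 - Q) * P) * ((1 - Q) * P) : Op n) x =
          tp ((1 - Q) * P) (((1 - Q) * P : Op n) x) := rfl
      rw [e0, inner_tp, real_inner_self_eq_norm_sq]
    have e2 : inner ℝ ((‖(1 - Q) * P‖ ^ 2 • P : Op n) x) x =
        ‖(1 - Q) * P‖ ^ 2 * ‖P x‖ ^ 2 := by
      have e0 : (‖(1 - Q) * P‖ ^ 2 • P : Op n) x = ‖(1 - Q) * P‖ ^ 2 • P x := rfl
      rw [e0, real_inner_smul_left, hP.norm_sq]
    rw [e1, e2, ← mul_pow]
    refine pow_le_pow_left₀ (norm_nonneg _) ?_ 2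
    have e3 : ((1 - Q) * P : Op n) x = ((1 - Q) * P : Op n) (P x) := by
      have e4 : ((1 - Q) * P : Op n) x = (1 - Q) (P x) := rfl
      have e5 : ((1 - Q) * P : Op n) (P x) = (1 - Q) (P (P x)) := rfl
      rw [e4, e5, hP.apply_apply]
    rw [e3]
    exact ContinuousLinearMap.le_opNorm _ _
  refine h1.trans (le_of_eq ?_)
  rw [tr_smul, hP.trp]
  ring

theorem perp_mul_norm_le (hP : Pr n m P) (hQ : Pr n m Q) : ‖(1 - Q) * P‖ ≤ ‖P - Q‖ := by
  have e1 : (1 - Q) * P = (1 - Q) * (P - Q) := by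
    rw [mul_sub, hQ.perp_mul, sub_zero]
  rw [e1]
  refine (norm_mul_le _ _).trans ?_
  exact mul_le_of_le_one_left (norm_nonneg _) hQ.perp_norm_le

theorem tilt_le' (hP : Pr n m P) (hQ : Pr n m Q) : tilt P Q ≤ m * ‖P - Q‖ ^ 2 :=
  (tilt_le hP hQ).trans (mul_le_mul_of_nonneg_left
    (pow_le_pow_left₀ (norm_nonneg _) (perp_mul_norm_le hP hQ) 2) (Nat.cast_nonneg m))

theorem ga_nonneg (v : E n) : 0 ≤ ga P v := by
  unfold ga
  positivity

theorem ga_le_one (hP : Pr n m P) (v : E n) : ga P v ≤ 1 := by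
  unfold ga
  exact div_le_one_of_le₀ (pow_le_pow_left₀ (norm_nonneg _) (hP.perp_norm_apply_le v) 2)
    (sq_nonneg _)

theorem ga_neg (v : E n) : ga P (-v) = ga P v := by
  unfold ga
  rw [map_neg, norm_neg, norm_neg]

theorem ga_smul (c : ℝ) (hc : c ≠ 0) (v : E n) : ga P (c • v) = ga P v := by
  unfold ga
  rw [map_smul, norm_smul, norm_smul, mul_pow, mul_pow, mul_div_mul_left]
  have : 0 < ‖c‖ := norm_pos_iff.2 hc
  positivity

/-- `(P, v) ↦ ga P v` is measurable. -/
theorem measurable_ga : Measurable (fun x : Op n × E n => ga x.1 x.2) := by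
  unfold ga
  have h1 : Continuous (fun x : Op n × E n => (1 - x.1) x.2) :=
    (continuous_const.sub continuous_fst).clm_apply continuous_snd
  exact (h1.norm.pow 2).measurable.div ((continuous_snd.norm.pow 2).measurable)

end Allard
end
end
end

section

/-!
# Planes and projections
-/

noncomputable section

open MeasureTheory Metric Set Filter Topology

namespace AllardStm

open Allard (tr rk tp Pr)

variable {n m : ℕ}

/-- The orthogonal projection onto `T`. -/
def proj (T : Submodule ℝ (E n)) : Op n := T.starProjection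

theorem proj_apply_mem (T : Submodule ℝ (E n)) (v : E n) : proj T v ∈ T :=
  Submodule.starProjection_apply_mem T v

theorem proj_eq_self {T : Submodule ℝ (E n)} {v : E n} : proj T v = v ↔ v ∈ T :=
  Submodule.starProjection_eq_self_iff

theorem proj_idem (T : Submodule ℝ (E n)) : proj T * proj T = proj T := by
  ext1 v
  rw [ContinuousLinearMap.mul_apply]
  exact proj_eq_self.2 (proj_apply_mem T v)

theorem proj_symm (T : Submodule ℝ (E n)) : tp (proj T) = proj T := by
  unfold tp proj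
  exact (isSelfAdjoint_starProjection T).adjoint_eq

theorem proj_range (T : Submodule ℝ (E n)) :
    LinearMap.range (proj T : E n →ₗ[ℝ] E n) = T := by
  ext v
  rw [LinearMap.mem_range]
  constructor
  · rintro ⟨w, rfl⟩
    exact proj_apply_mem T w
  · intro h
    exact ⟨v, proj_eq_self.2 h⟩

theorem proj_inj {T T' : Submodule ℝ (E n)} (h : proj T = proj T') : T = T' := by
  rw [← proj_range T, h, proj_range]

/-- The trace of a projection is its rank. -/
theorem tr_proj (T : Submodule ℝ (E n)) : tr (proj T) = Module.finrank ℝ T := by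
  have h : LinearMap.IsProj T (proj T : E n →ₗ[ℝ] E n) :=
    ⟨fun v => proj_apply_mem T v, fun v hv => proj_eq_self.2 hv⟩
  exact h.trace

theorem pr_proj {T : Submodule ℝ (E n)} (h : Module.finrank ℝ T = m) : Pr n m (proj T) :=
  ⟨proj_idem T, proj_symm T, by rw [tr_proj, h]⟩

/-- Every projection of rank `m` is the projection onto a plane. -/
theorem exists_of_pr {P : Op n} (h : Pr n m P) :
    ∃ T : Submodule ℝ (E n), Module.finrank ℝ T = m ∧ proj T = P := by
  have h1 : IsStarProjection P := ⟨h.idem, h.symm⟩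
  obtain ⟨T, hT, hT'⟩ := isStarProjection_iff_eq_starProjection.1 h1
  have h2 : proj T = P := hT'.symm
  refine ⟨T, ?_, h2⟩
  have h3 := tr_proj T
  rw [h2, h.trp] at h3
  exact_mod_cast h3.symm

/-- The Jacobian of `L` on `T`: `√det((L|T)* (L|T))`. -/
def jac (L : Op n) (T : Submodule ℝ (E n)) : ℝ :=
  Real.sqrt (LinearMap.det
    (((L.comp T.subtypeL).adjoint.comp (L.comp T.subtypeL) : T →L[ℝ] T) : T →ₗ[ℝ] T))

theorem IsTangent.old {Γ : Set (E n)} {x : E n} {T : Submodule ℝ (E n)} (h : IsTangent m Γ x T) :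
    ∃ ι : E m →ₗᵢ[ℝ] E n, LinearMap.range ι.toLinearMap = T ∧
      ∀ φ : E n → ℝ, Continuous φ → HasCompactSupport φ →
        Tendsto (fun r : ℝ => (r ^ m)⁻¹ * ∫ z in Γ, φ (r⁻¹ • (z - x)) ∂(haus n m)) (𝓝[>] 0)
          (𝓝 (∫ w : E m, φ (ι w))) := by
  obtain ⟨ι, h1, h2⟩ := h
  refine ⟨ι, ?_, h2⟩
  ext v
  exact (h1 v).symm

theorem norm_proj_le (T : Submodule ℝ (E n)) : ‖proj T‖ ≤ 1 :=
  Submodule.starProjection_norm_le T

end AllardStm
end
end

section

/-!
# The Jacobian of a linear map on a plane, as a determinant on the whole space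
-/

noncomputable section

open MeasureTheory Metric Set Filter Topology

namespace AllardStm

open Allard (tr rk tp Pr)

variable {n m : ℕ}

private theorem j1_isCompl (T : Submodule ℝ (E n)) : IsCompl T Tᗮ :=
  Submodule.isCompl_orthogonal T

private theorem j1_coe (L : Op n) (T : Submodule ℝ (E n)) (a : T) :
    ((((L.comp T.subtypeL).adjoint.comp (L.comp T.subtypeL) : T →L[ℝ] T) a : T) : E n) =
      proj T ((tp L * L) (a : E n)) := by
  rw [ContinuousLinearMap.adjoint_comp, Submodule.adjoint_subtypeL]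
  rfl

/-- Proof. Write `ι : T → ℝⁿ` for the inclusion (`T.subtypeL`), `ι* = ι.adjoint` is the orthogonal
projection onto `T`, `ι* ι = 1` and `ι ι* = proj T =: P`.  Put `K = ι* L* L ι` (an endomorphism of
`T`), so `P L* L P + (1 - P) = ι K ι* + (1 - P)`.  In an orthonormal basis of `ℝⁿ` adapted to
`T ⊕ Tᗮ` this is block diagonal with blocks `K` and `1`, so its determinant is `det K`
(for instance: conjugate by the linear equivalence `T × Tᗮ ≃ ℝⁿ`, `LinearMap.det_conj`,
`LinearMap.det_prodMap`; or use `LinearMap.det` of the matrix in the basis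
`(stdOrthonormalBasis ..).prod ..`; or reduce to the Weinstein–Aronszajn identity
`det (1 + A B) = det (1 + B A)` with `A = ι (K - 1)`, `B = ι*`). -/
theorem jac_eq (L : Op n) (T : Submodule ℝ (E n)) :
    jac L T = Real.sqrt (ContinuousLinearMap.det
      (proj T * (tp L * L) * proj T + (1 - proj T) : Op n)) := by
  unfold jac
  congr 1
  obtain ⟨K, hK⟩ : ∃ K : T →L[ℝ] T, K = (L.comp T.subtypeL).adjoint.comp (L.comp T.subtypeL) :=
    ⟨_, rfl⟩
  rw [← hK]
  have hKc : ∀ a : T, ((K a : T) : E n) = proj T ((tp L * L) (a : E n)) := fun a => by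
    rw [hK]
    exact j1_coe L T a
  obtain ⟨e, he⟩ : ∃ e : (T × Tᗮ) ≃ₗ[ℝ] E n, ∀ x, e x = (x.1 : E n) + x.2 :=
    ⟨Submodule.prodEquivOfIsCompl T Tᗮ (j1_isCompl T), fun x => by simp⟩
  have h1 : LinearMap.det ((K : T →ₗ[ℝ] T).prodMap (LinearMap.id : Tᗮ →ₗ[ℝ] Tᗮ)) =
      LinearMap.det (K : T →ₗ[ℝ] T) := by
    rw [LinearMap.det_prodMap, LinearMap.det_id, mul_one]
  rw [← h1, ← LinearMap.det_conj _ e]
  unfold ContinuousLinearMap.det
  congr 1
  refine LinearMap.ext fun v => ?_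
  obtain ⟨x, rfl⟩ := e.surjective v
  obtain ⟨a, b⟩ := x
  have hb : proj T (b : E n) = 0 := by
    have h2 := b.2
    unfold proj
    exact (Submodule.starProjection_apply_eq_zero_iff T).2 h2
  have ha : proj T (a : E n) = a := proj_eq_self.2 a.2
  rw [LinearMap.comp_apply, LinearMap.comp_apply]
  simp only [LinearEquiv.coe_coe, LinearEquiv.symm_apply_apply, LinearMap.prodMap_apply,
    LinearMap.id_apply]
  rw [he, he]
  show ((K a : T) : E n) + b = _
  rw [hKc a]
  show _ = (proj T * (tp L * L) * proj T + (1 - proj T) : Op n) ((a : E n) + b)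
  simp only [add_apply, sub_apply, mul_apply_eq_comp, one_apply_eq_self, map_add, ha, hb, map_zero]
  abel

theorem jac_one (T : Submodule ℝ (E n)) : jac (1 : Op n) T = 1 := by
  rw [jac_eq]
  have h : (proj T * (tp (1 : Op n) * 1) * proj T + (1 - proj T) : Op n) = 1 := by
    have h1 : tp (1 : Op n) = 1 := by
      unfold tp
      ext1 v
      refine ext_inner_left ℝ fun w => ?_
      rw [ContinuousLinearMap.adjoint_inner_right]
      rfl
    rw [h1, mul_one, mul_one, proj_idem]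
    abel
  rw [h]
  have h2 : ContinuousLinearMap.det (1 : Op n) = 1 := by
    unfold ContinuousLinearMap.det
    exact LinearMap.det_id
  rw [h2, Real.sqrt_one]

end AllardStm
end
end

section

section

/-!
# Second derivatives of functions with affine coordinate changes
-/

noncomputable section

open MeasureTheory Metric Set Filter Topology

namespace AllardStm

variable {W : Type*} [NormedAddCommGroup W] [NormedSpace ℝ W]

theorem aff_hasFDerivAt (R : W →L[ℝ] W) (M M' : W) :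
    HasFDerivAt (fun M' => R (M' - M)) R M' :=
  R.hasFDerivAt.comp M' ((hasFDerivAt_id M').sub_const M)

theorem aff_contDiffAt {f g : W → ℝ} {R : W →L[ℝ] W} {M : W} (hf : f = fun M' => g (R (M' - M)))
    (hg : ContDiffAt ℝ 2 g 0) : ContDiffAt ℝ 2 f M := by
  rw [hf]
  have h2 : R (M - M) = 0 := by rw [sub_self, map_zero]
  rw [← h2] at hg
  exact ContDiffAt.comp (f := fun M' => R (M' - M)) M hg
    (R.contDiff.contDiffAt.comp M (contDiffAt_id.sub contDiffAt_const))

theorem aff_fderiv {f g : W → ℝ} {R : W →L[ℝ] W} {M : W} (hf : f = fun M' => g (R (M' - M)))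
    (hg : ContDiffAt ℝ 2 g 0) : fderiv ℝ f M = (fderiv ℝ g 0).comp R := by
  have h1 : DifferentiableAt ℝ g 0 := hg.differentiableAt (by norm_num)
  have h2 : R (M - M) = 0 := by rw [sub_self, map_zero]
  have h3 : HasFDerivAt g (fderiv ℝ g 0) (R (M - M)) := by
    rw [h2]
    exact h1.hasFDerivAt
  have h4 := h3.comp (f := fun M' => R (M' - M)) M (aff_hasFDerivAt R M M)
  have h5 := h4.fderiv
  rw [hf]
  exact h5

theorem aff_fderiv2 {f g : W → ℝ} {R : W →L[ℝ] W} {M : W} {δ : ℝ}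
    (hf : f = fun M' => g (R (M' - M))) (hg : ContDiffAt ℝ 2 g 0)
    (hR : ‖R‖ ≤ 2) (hb : ‖iteratedFDeriv ℝ 2 g 0‖ ≤ δ) :
    ‖fderiv ℝ (fderiv ℝ f) M‖ ≤ 4 * δ := by
  have hδ : 0 ≤ δ := (norm_nonneg _).trans hb
  have hb' : ‖fderiv ℝ (fderiv ℝ g) 0‖ ≤ δ := by
    have h1 := hb
    rw [show (2 : ℕ) = 1 + 1 from rfl, ← norm_iteratedFDeriv_fderiv, norm_iteratedFDeriv_one] at h1
    exact h1
  have h2 : ∀ᶠ K in 𝓝 (0 : W), DifferentiableAt ℝ g K := by
    have h3 : ∀ᶠ K in 𝓝 (0 : W), ContDiffAt ℝ 2 g K := hg.eventually (by simp)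
    exact h3.mono fun K hK => hK.differentiableAt (by norm_num)
  have hc : Tendsto (fun M' : W => R (M' - M)) (𝓝 M) (𝓝 0) := by
    have h3 : Continuous fun M' : W => R (M' - M) :=
      R.continuous.comp (continuous_id.sub continuous_const)
    have h4 := h3.tendsto M
    simp only [sub_self, map_zero] at h4
    exact h4
  have h3 : ∀ᶠ M' in 𝓝 M, fderiv ℝ f M' = (fderiv ℝ g (R (M' - M))).comp R := by
    filter_upwards [hc.eventually h2] with M' hM'
    have h5 := (hM'.hasFDerivAt.comp (f := fun M' => R (M' - M)) M'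
      (aff_hasFDerivAt R M M')).fderiv
    rw [hf]
    exact h5
  have h4 : DifferentiableAt ℝ (fderiv ℝ g) 0 := by
    have h5 : ContDiffAt ℝ 1 (fderiv ℝ g) 0 := hg.fderiv_right (by norm_num)
    exact h5.differentiableAt (by norm_num)
  have h5 : HasFDerivAt (fderiv ℝ g) (fderiv ℝ (fderiv ℝ g) 0) (R (M - M)) := by
    rw [sub_self, map_zero]
    exact h4.hasFDerivAt
  have h6 := h5.comp (f := fun M' => R (M' - M)) M (aff_hasFDerivAt R M M)
  have h7 := (((ContinuousLinearMap.compL ℝ W W ℝ).flip R).hasFDerivAt).comp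
    (f := fderiv ℝ g ∘ fun M' => R (M' - M)) M h6
  have h8 : fderiv ℝ (fderiv ℝ f) M
      = ((ContinuousLinearMap.compL ℝ W W ℝ).flip R).comp ((fderiv ℝ (fderiv ℝ g) 0).comp R) := by
    rw [Filter.EventuallyEq.fderiv_eq (show fderiv ℝ f =ᶠ[𝓝 M] _ from h3)]
    exact h7.fderiv
  rw [h8]
  refine ContinuousLinearMap.opNorm_le_bound _ (by linarith) fun N => ?_
  have h9 : (((ContinuousLinearMap.compL ℝ W W ℝ).flip R).comp
        ((fderiv ℝ (fderiv ℝ g) 0).comp R)) N
      = (fderiv ℝ (fderiv ℝ g) 0 (R N)).comp R := rfl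
  rw [h9]
  calc _ ≤ ‖fderiv ℝ (fderiv ℝ g) 0 (R N)‖ * ‖R‖ :=
        ContinuousLinearMap.opNorm_comp_le _ _
    _ ≤ (‖fderiv ℝ (fderiv ℝ g) 0‖ * ‖R N‖) * ‖R‖ := by
        gcongr
        exact ContinuousLinearMap.le_opNorm _ _
    _ ≤ (‖fderiv ℝ (fderiv ℝ g) 0‖ * (‖R‖ * ‖N‖)) * ‖R‖ := by
        gcongr
        exact ContinuousLinearMap.le_opNorm _ _
    _ ≤ (δ * (2 * ‖N‖)) * 2 := by gcongr
    _ = 4 * δ * ‖N‖ := by ring

/-- Functions that have, centred at every point of a ball, coordinates in which the second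
derivative is small. -/
theorem aff_lip {f : W → ℝ} {δ ρ : ℝ}
    (h : ∀ M : W, ‖M‖ ≤ ρ → ∃ (g : W → ℝ) (R : W →L[ℝ] W), f = (fun M' => g (R (M' - M))) ∧
      ContDiffAt ℝ 2 g 0 ∧ ‖R‖ ≤ 2 ∧ ‖iteratedFDeriv ℝ 2 g 0‖ ≤ δ) {M N : W} (hM : ‖M‖ ≤ ρ)
    (hN : ‖N‖ ≤ ρ) : ‖fderiv ℝ f M - fderiv ℝ f N‖ ≤ 4 * δ * ‖M - N‖ := by
  refine (convex_closedBall (0 : W) ρ).norm_image_sub_le_of_norm_fderiv_le
    (𝕜 := ℝ) (f := fderiv ℝ f) (C := 4 * δ) (x := N) (y := M)
    (fun x hx => ?_) (fun x hx => ?_) (by simpa using hN) (by simpa using hM)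
  · obtain ⟨g, R, h1, h2, -, -⟩ := h x (by simpa using hx)
    have h3 : ContDiffAt ℝ 2 f x := aff_contDiffAt h1 h2
    have h4 : ContDiffAt ℝ 1 (fderiv ℝ f) x := h3.fderiv_right (by norm_num)
    exact h4.differentiableAt (by norm_num)
  · obtain ⟨g, R, h1, h2, h3, h4⟩ := h x (by simpa using hx)
    exact aff_fderiv2 h1 h2 h3 h4

theorem norm_iter2_sub_const {g : W → ℝ} (c : ℝ) (x : W) :
    ‖iteratedFDeriv ℝ 2 (fun M => g M - c) x‖ = ‖iteratedFDeriv ℝ 2 g x‖ := by
  have h2 : fderiv ℝ (fun M => g M - c) = fderiv ℝ g := by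
    funext M
    rw [fderiv_sub_const]
  have e1 := norm_iteratedFDeriv_fderiv (𝕜 := ℝ) (f := fun M => g M - c) (x := x) (n := 1)
  have e2 := norm_iteratedFDeriv_fderiv (𝕜 := ℝ) (f := g) (x := x) (n := 1)
  rw [h2, e2] at e1
  exact e1.symm

theorem hasDerivAt_line {f : W → ℝ} (hf : DifferentiableAt ℝ f 0) (X : W) :
    HasDerivAt (fun s : ℝ => f (s • X)) (fderiv ℝ f 0 X) 0 := by
  have h3 : HasDerivAt (fun s : ℝ => s • X) X 0 := by
    have h4 := (hasDerivAt_id (0 : ℝ)).smul_const X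
    rw [one_smul] at h4
    exact h4
  have h5 : HasFDerivAt f (fderiv ℝ f 0) ((0 : ℝ) • X) := by
    rw [zero_smul]
    exact hf.hasFDerivAt
  exact h5.comp_hasDerivAt (0 : ℝ) h3

/-- A function that is constant on the line through `X` near `0` has derivative `0` on `X`. -/
theorem fderiv_eq_zero_of_line {f : W → ℝ} (hf : DifferentiableAt ℝ f 0) {X : W} {c ρ : ℝ}
    (hρ : 0 < ρ) (h : ∀ s : ℝ, |s| ≤ ρ → f (s • X) = c) : fderiv ℝ f 0 X = 0 := by
  have h2 : HasDerivAt (fun s : ℝ => f (s • X)) (fderiv ℝ f 0 X) 0 := by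
    have h3 : HasDerivAt (fun s : ℝ => s • X) X 0 := by
      have h4 := (hasDerivAt_id (0 : ℝ)).smul_const X
      rw [one_smul] at h4
      exact h4
    have h5 : HasFDerivAt f (fderiv ℝ f 0) ((0 : ℝ) • X) := by
      rw [zero_smul]
      exact hf.hasFDerivAt
    exact h5.comp_hasDerivAt (0 : ℝ) h3
  have h6 : (fun s : ℝ => f (s • X)) =ᶠ[𝓝 0] fun _ => c := by
    filter_upwards [Metric.closedBall_mem_nhds (0 : ℝ) hρ] with s hs
    exact h s (by simpa using hs)
  have h7 : HasDerivAt (fun _ : ℝ => c) (0 : ℝ) 0 := hasDerivAt_const _ _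
  exact (h2.congr_of_eventuallyEq h6.symm).unique h7

end AllardStm
end
end

section

/-!
# Images of planes
-/

noncomputable section

open MeasureTheory Metric Set Filter Topology

namespace AllardStm

open Allard (tr rk tp Pr)

variable {n m : ℕ}

theorem img_one (T : Submodule ℝ (E n)) : img (1 : Op n) T = T := by
  unfold img
  exact Submodule.map_id T

theorem img_mul (A B : Op n) (T : Submodule ℝ (E n)) : img (A * B) T = img A (img B T) := by
  unfold img
  rw [← Submodule.map_comp]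
  rfl

theorem mem_img {L : Op n} {T : Submodule ℝ (E n)} {v : E n} : v ∈ img L T ↔ ∃ w ∈ T, L w = v := by
  unfold img
  rw [Submodule.mem_map]
  rfl

theorem img_congr {L L' : Op n} {T : Submodule ℝ (E n)} (h : ∀ v ∈ T, L v = L' v) :
    img L T = img L' T := by
  ext v
  rw [mem_img, mem_img]
  constructor
  · rintro ⟨w, hw, rfl⟩
    exact ⟨w, hw, (h w hw).symm⟩
  · rintro ⟨w, hw, rfl⟩
    exact ⟨w, hw, h w hw⟩

theorem finrank_img {L A : Op n} (h : A * L = 1) (T : Submodule ℝ (E n)) :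
    Module.finrank ℝ (img L T) = Module.finrank ℝ T := by
  have hinj : Function.Injective (L : E n →ₗ[ℝ] E n) := by
    intro v w hvw
    have h1 : (A * L) v = (A * L) w := by
      show A (L v) = A (L w)
      have h2 : L v = L w := hvw
      rw [h2]
    rw [h] at h1
    exact h1
  exact (LinearEquiv.finrank_eq (Submodule.equivMapOfInjective _ hinj T)).symm

theorem exists_inv {M : Op n} (hM : ‖M‖ ≤ 1 / 2) :
    ∃ A : Op n, A * (1 + M) = 1 ∧ (1 + M) * A = 1 ∧ ‖A‖ ≤ 2 := by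
  have h1 : ‖-M‖ < 1 := by
    rw [norm_neg]
    linarith
  have h2 : ((Units.oneSub (-M) h1 : (Op n)ˣ) : Op n) = 1 + M := by
    rw [Units.val_oneSub, sub_neg_eq_add]
  refine ⟨((Units.oneSub (-M) h1)⁻¹ : (Op n)ˣ), ?_, ?_, ?_⟩
  · rw [← h2]
    exact Units.inv_mul _
  · rw [← h2]
    exact Units.mul_inv _
  · set A : Op n := (((Units.oneSub (-M) h1)⁻¹ : (Op n)ˣ) : Op n) with hA
    have h3 : (1 + M) * A = 1 := by
      rw [← h2]
      exact Units.mul_inv _
    have h4 : A = 1 - M * A := by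
      rw [add_mul, one_mul] at h3
      rw [← h3]
      abel
    have h5 : ‖A‖ ≤ ‖(1 : Op n)‖ + ‖M‖ * ‖A‖ := by
      calc ‖A‖ = ‖1 - M * A‖ := by rw [← h4]
        _ ≤ ‖(1 : Op n)‖ + ‖M * A‖ := norm_sub_le _ _
        _ ≤ _ := by
          gcongr
          exact norm_mul_le _ _
    have h6 : ‖(1 : Op n)‖ ≤ 1 := ContinuousLinearMap.norm_id_le
    nlinarith [norm_nonneg A]

theorem orb_zero (Ψ : Submodule ℝ (E n) → ℝ) (T : Submodule ℝ (E n)) : orb Ψ T 0 = Ψ T := by
  unfold orb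
  rw [add_zero, img_one]

theorem orb_add (Ψ : Submodule ℝ (E n) → ℝ) (T : Submodule ℝ (E n)) {M N A : Op n}
    (h : A * (1 + M) = 1) : orb Ψ T (M + N) = orb Ψ (img (1 + M) T) (N * A) := by
  unfold orb
  rw [← img_mul]
  congr 1
  rw [add_mul, one_mul, mul_assoc, h, mul_one, add_assoc]

theorem orb_mul_proj (Ψ : Submodule ℝ (E n) → ℝ) (T : Submodule ℝ (E n)) (M : Op n) :
    orb Ψ T (M * proj T) = orb Ψ T M := by
  unfold orb
  congr 1
  refine img_congr fun v hv => ?_
  show v + M (proj T v) = v + M v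
  rw [proj_eq_self.2 hv]

/-- `T' = (1 + (P' - P)) T`. -/
theorem img_proj {T T' : Submodule ℝ (E n)} (hd : Module.finrank ℝ T = Module.finrank ℝ T')
    (h : ‖proj T' - proj T‖ ≤ 1 / 2) : img (1 + (proj T' - proj T)) T = T' := by
  obtain ⟨A, hA, -, -⟩ := exists_inv h
  have h1 := finrank_img hA T
  refine Submodule.eq_of_le_of_finrank_eq ?_ (by rw [h1, hd])
  intro v hv
  obtain ⟨w, hw, rfl⟩ := mem_img.1 hv
  have h2 : (1 + (proj T' - proj T) : Op n) w = proj T' w := by
    show w + (proj T' w - proj T w) = proj T' w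
    rw [proj_eq_self.2 hw]
    abel
  rw [h2]
  exact proj_apply_mem T' w

/-- Near `0` the map `M ↦ Ψ((1 + P M P) T)` is constant. -/
theorem orb_proj_mul_proj (Ψ : Submodule ℝ (E n) → ℝ) (T : Submodule ℝ (E n)) {M : Op n}
    (hM : ‖M‖ ≤ 1 / 2) : orb Ψ T (proj T * M * proj T) = Ψ T := by
  have h1 : ‖proj T * M * proj T‖ ≤ 1 / 2 := by
    have h2 := norm_proj_le T
    calc ‖proj T * M * proj T‖ ≤ ‖proj T‖ * ‖M‖ * ‖proj T‖ := by
          refine (norm_mul_le _ _).trans ?_
          gcongr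
          exact norm_mul_le _ _
      _ ≤ 1 * ‖M‖ * 1 := by gcongr
      _ ≤ 1 / 2 := by rw [one_mul, mul_one]; exact hM
  obtain ⟨A, hA, -, -⟩ := exists_inv h1
  unfold orb
  congr 1
  have h2 := finrank_img hA T
  refine Submodule.eq_of_le_of_finrank_eq ?_ h2
  intro v hv
  obtain ⟨w, hw, rfl⟩ := mem_img.1 hv
  show w + proj T (M (proj T w)) ∈ T
  exact T.add_mem hw (proj_apply_mem T _)

end AllardStm
end
end

section

/-!
# Density at points with an approximate tangent plane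
-/

noncomputable section

open MeasureTheory Metric Set Filter Topology

namespace AllardStm

open Allard (om)

variable {n m : ℕ}

/-- The cutoff between the balls of radius `s` and `1`. -/
def D1cut (n : ℕ) (s : ℝ) (v : E n) : ℝ := max 0 (min 1 ((1 - ‖v‖) / (1 - s)))

theorem D1cut_cont (s : ℝ) : Continuous (D1cut n s) := by
  unfold D1cut
  fun_prop

theorem D1cut_supp {s : ℝ} (hs : s < 1) : HasCompactSupport (D1cut n s) := by
  apply HasCompactSupport.of_support_subset_isCompact (isCompact_closedBall (0 : E n) 1)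
  intro v hv
  rw [mem_closedBall_zero_iff]
  by_contra hc
  push Not at hc
  apply hv
  unfold D1cut
  apply max_eq_left
  apply (min_le_right _ _).trans
  apply div_nonpos_of_nonpos_of_nonneg <;> linarith

theorem D1cut_nonneg (s : ℝ) (v : E n) : 0 ≤ D1cut n s v := le_max_left _ _

theorem D1cut_le_one (s : ℝ) (v : E n) : D1cut n s v ≤ 1 :=
  max_le zero_le_one (min_le_left _ _)

theorem D1cut_eq_one {s : ℝ} (hs : s < 1) {v : E n} (hv : ‖v‖ ≤ s) : D1cut n s v = 1 := by
  unfold D1cut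
  rw [min_eq_left, max_eq_right zero_le_one]
  rw [le_div_iff₀ (by linarith)]
  linarith

theorem D1cut_eq_zero {s : ℝ} (hs : s < 1) {v : E n} (hv : 1 ≤ ‖v‖) : D1cut n s v = 0 := by
  unfold D1cut
  apply max_eq_left
  apply (min_le_right _ _).trans
  apply div_nonpos_of_nonpos_of_nonneg <;> linarith

theorem D1vol {s : ℝ} (hs0 : 0 < s) (hs : s < 1) :
    s ^ m * om m ≤ ∫ w : E m, D1cut m s w := by
  have h1 : (volume : Measure (E m)).real (ball 0 s) = s ^ m * om m := by
    unfold om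
    rw [Measure.real, Measure.addHaar_ball_of_pos volume (0 : E m) hs0, ENNReal.toReal_mul,
      ENNReal.toReal_ofReal (by positivity), finrank_euclideanSpace_fin]
    rfl
  rw [← h1, ← integral_indicator_one isOpen_ball.measurableSet]
  apply integral_mono
  · exact (integrable_indicator_iff isOpen_ball.measurableSet).2
      (integrableOn_const (measure_ball_lt_top.ne))
  · exact (D1cut_cont s).integrable_of_hasCompactSupport (D1cut_supp hs)
  · intro w
    by_cases hw : w ∈ ball (0 : E m) s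
    · rw [indicator_of_mem hw]
      rw [mem_ball_zero_iff] at hw
      simp only [Pi.one_apply]
      rw [D1cut_eq_one hs hw.le]
    · rw [indicator_of_notMem hw]
      exact D1cut_nonneg _ _

/-- Proof. Let `0 < ε < 1` (otherwise trivial) and choose `s < 1` with
`s ^ m > 1 - ε / 2`; let `φ` be continuous, `0 ≤ φ ≤ 1`, `φ = 1` on `closedBall 0 s`, `φ = 0` outside
`ball 0 1` (for instance `φ v = max 0 (min 1 ((1 - ‖v‖)/(1 - s)))`).  Then
`∫ w, φ (ι w) ≥ vol (ball 0 s) = s ^ m * om m` (`‖ι w‖ = ‖w‖`, `Measure.addHaar_ball`), and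
`(r^m)⁻¹ ∫_Γ φ ((z - x)/r) ≤ (r^m)⁻¹ ((haus n m).restrict Γ).real (ball x r)`.  Now use the limit. -/
theorem density_of_tangent {Γ : Set (E n)} [IsFiniteMeasure ((haus n m).restrict Γ)] {x : E n}
    {T : Submodule ℝ (E n)} (h : IsTangent m Γ x T) :
    ∀ ε : ℝ, 0 < ε → ∀ᶠ r in 𝓝[>] (0 : ℝ),
      (1 - ε) * om m * r ^ m ≤ ((haus n m).restrict Γ).real (ball x r) := by
  intro ε hε
  obtain ⟨ι, -, hι⟩ := h.old
  have hom : 0 < om m := by
    unfold om
    exact ENNReal.toReal_pos (measure_ball_pos volume (0 : E m) one_pos).ne'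
      measure_ball_lt_top.ne
  obtain ⟨s, hs0, hs1, hs⟩ : ∃ s : ℝ, 0 < s ∧ s < 1 ∧ 1 - ε < s ^ m := by
    have ht : Tendsto (fun s : ℝ => s ^ m) (𝓝[<] 1) (𝓝 ((1 : ℝ) ^ m)) :=
      ((continuous_pow m).tendsto 1).mono_left nhdsWithin_le_nhds
    rw [one_pow] at ht
    have h1 : ∀ᶠ s : ℝ in 𝓝[<] 1, 1 - ε < s ^ m := ht.eventually_const_lt (by linarith)
    have h2 : ∀ᶠ s : ℝ in 𝓝[<] 1, s < 1 := eventually_mem_nhdsWithin
    have h3 : ∀ᶠ s : ℝ in 𝓝[<] 1, 0 < s :=
      nhdsWithin_le_nhds (eventually_gt_nhds one_pos)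
    obtain ⟨s, a, b, c⟩ := (h1.and (h2.and h3)).exists
    exact ⟨s, c, b, a⟩
  have hlim := hι (D1cut n s) (D1cut_cont s) (D1cut_supp hs1)
  have heq : (∫ w : E m, D1cut n s (ι w)) = ∫ w : E m, D1cut m s w := by
    congr 1
    ext w
    unfold D1cut
    rw [ι.norm_map]
  rw [heq] at hlim
  have hlt : (1 - ε) * om m < ∫ w : E m, D1cut m s w :=
    lt_of_lt_of_le (mul_lt_mul_of_pos_right hs hom) (D1vol hs0 hs1)
  filter_upwards [hlim.eventually_const_lt hlt, eventually_mem_nhdsWithin] with r hr hr0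
  have hr0' : (0 : ℝ) < r := hr0
  have hrm : (0 : ℝ) < r ^ m := by positivity
  have hle : (∫ z in Γ, D1cut n s (r⁻¹ • (z - x)) ∂(haus n m)) ≤
      ((haus n m).restrict Γ).real (ball x r) := by
    rw [← integral_indicator_one isOpen_ball.measurableSet]
    apply integral_mono_of_nonneg
    · exact Eventually.of_forall fun z => D1cut_nonneg _ _
    · exact (integrable_indicator_iff isOpen_ball.measurableSet).2
        (integrableOn_const (measure_ne_top _ _))
    · refine Eventually.of_forall fun z => ?_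
      show D1cut n s (r⁻¹ • (z - x)) ≤ (ball x r).indicator 1 z
      by_cases hz : z ∈ ball x r
      · rw [indicator_of_mem hz]
        exact D1cut_le_one _ _
      · rw [indicator_of_notMem hz]
        apply le_of_eq
        apply D1cut_eq_zero hs1
        rw [mem_ball, dist_eq_norm, not_lt] at hz
        rw [norm_smul, norm_inv, Real.norm_of_nonneg hr0'.le, inv_mul_eq_div,
          one_le_div hr0']
        exact hz
  have h4 : (1 - ε) * om m * r ^ m < ∫ z in Γ, D1cut n s (r⁻¹ • (z - x)) ∂(haus n m) := by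
    rw [inv_mul_eq_div, lt_div_iff₀ hrm] at hr
    exact hr
  exact h4.le.trans hle

/-- Proof. `IsFiniteMeasure V.mass`, `θ ≥ 1` on `Γ`, so `(haus n m).restrict Γ ≤ V.mass`
(`withDensity` is monotone, `ae_restrict_of_forall_mem` needs measurability: `Γ` is null
measurable; `V.one_le`). -/
theorem Varifold.restrict_le_mass {U : Set (E n)} (V : Varifold n m U) :
    (haus n m).restrict V.Γ ≤ V.mass := by
  unfold Varifold.mass
  calc (haus n m).restrict V.Γ = ((haus n m).restrict V.Γ).withDensity 1 := by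
        rw [withDensity_one]
    _ ≤ _ := by
        apply withDensity_mono
        filter_upwards [ae_restrict_mem₀ V.meas] with x hx
        rw [Pi.one_apply, ENNReal.one_le_ofReal]
        exact V.one_le x hx

/-- Proof. The previous two lemmas and `V.tan`; `V.mass` is absolutely continuous with respect to
`(haus n m).restrict V.Γ` (`withDensity_absolutelyContinuous`). -/
theorem Varifold.density {U : Set (E n)} (V : Varifold n m U) [IsFiniteMeasure V.mass] :
    ∀ᵐ y ∂V.mass, ∀ ε : ℝ, 0 < ε →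
      ∀ᶠ r in 𝓝[>] (0 : ℝ), (1 - ε) * om m * r ^ m ≤ V.mass.real (ball y r) := by
  have hfin : IsFiniteMeasure ((haus n m).restrict V.Γ) :=
    isFiniteMeasure_of_le V.mass V.restrict_le_mass
  have hac : V.mass ≪ (haus n m).restrict V.Γ := withDensity_absolutelyContinuous _ _
  filter_upwards [hac.ae_le V.tan] with y hy
  intro ε hε
  filter_upwards [density_of_tangent hy ε hε] with r hr
  exact hr.trans (ENNReal.toReal_mono (measure_ne_top _ _) (V.restrict_le_mass _))

end AllardStm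
end
end

section

/-!
# From projections to the graph
-/

noncomputable section

open MeasureTheory Metric Set Filter Topology

namespace AllardStm

open Allard (tr rk tp Pr)

variable {n m : ℕ}

/-- The coordinates adapted to a plane. -/
theorem G1coord (hmn : m < n) {T : Submodule ℝ (E n)} (hT : Module.finrank ℝ T = m) :
    ∃ (R : E n ≃ₗᵢ[ℝ] WithLp 2 (E m × E (n - m))) (p : E n →L[ℝ] E m) (q : E n →L[ℝ] E (n - m))
      (ι : E m →L[ℝ] E n), (∀ z, (R z).fst = p z) ∧ (∀ z, (R z).snd = q z) ∧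
      (∀ x, p (ι x) = x) ∧ (∀ x, proj T (ι x) = ι x) ∧ (∀ x, ‖ι x‖ = ‖x‖) ∧
      (∀ z, ι (p z) = proj T z) ∧ (∀ z, ‖q z‖ ≤ ‖z‖) ∧ (∀ z, q (proj T z) = 0) ∧
      (∀ z, ‖q z‖ = ‖(1 - proj T) z‖) := by
  have hT' : Module.finrank ℝ Tᗮ = n - m := by
    have h := T.finrank_add_finrank_orthogonal
    rw [hT, finrank_euclideanSpace_fin] at h
    omega
  let a : T ≃ₗᵢ[ℝ] E m := ((stdOrthonormalBasis ℝ T).reindex (finCongr hT)).repr
  let b : Tᗮ ≃ₗᵢ[ℝ] E (n - m) := ((stdOrthonormalBasis ℝ Tᗮ).reindex (finCongr hT')).repr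
  have hq : ∀ z, ‖b (Tᗮ.orthogonalProjectionOnto z)‖ = ‖(1 - proj T) z‖ := by
    intro z
    rw [b.norm_map, Submodule.coe_norm]
    congr 1
    show Tᗮ.starProjection z = _
    rw [Submodule.starProjection_orthogonal']
    rfl
  refine ⟨T.orthogonalDecomposition.trans (LinearIsometryEquiv.withLpProdCongr 2 a b),
    (a : T →L[ℝ] E m).comp T.orthogonalProjectionOnto,
    (b : Tᗮ →L[ℝ] E (n - m)).comp Tᗮ.orthogonalProjectionOnto,
    T.subtypeL.comp (a.symm : E m →L[ℝ] T), ?_, ?_, ?_, ?_, ?_, ?_, ?_, ?_, ?_⟩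
  · intro z
    simp
  · intro z
    simp
  · intro x
    simp
  · intro x
    exact proj_eq_self.2 (a.symm x).2
  · intro x
    show ‖((a.symm x : T) : E n)‖ = ‖x‖
    rw [← Submodule.coe_norm, a.symm.norm_map]
  · intro z
    show ((a.symm (a (T.orthogonalProjectionOnto z)) : T) : E n) = _
    rw [a.symm_apply_apply]
    rfl
  · intro z
    show ‖b (Tᗮ.orthogonalProjectionOnto z)‖ ≤ ‖z‖
    rw [b.norm_map]
    exact Submodule.norm_orthogonalProjectionOnto_apply_le _ _
  · intro z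
    have h1 : ‖b (Tᗮ.orthogonalProjectionOnto (proj T z))‖ = 0 := by
      rw [hq]
      have h2 : (1 - proj T) (proj T z) = 0 := by
        show proj T z - proj T (proj T z) = 0
        rw [proj_eq_self.2 (proj_apply_mem T z), sub_self]
      rw [h2, norm_zero]
    exact norm_eq_zero.1 h1
  · exact hq

/-- Proof. `Q = proj T` with `finrank T = m` (`exists_of_pr`), `finrank Tᗮ = n - m`.  Choose isometries
`a : T ≃ₗᵢ E m`, `b : Tᗮ ≃ₗᵢ E (n - m)` (`LinearIsometryEquiv.ofFinrankEq` or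
`(stdOrthonormalBasis ..).repr` with `finCongr`), `R = (a, b) ∘ T.orthogonalDecomposition`
(`R z = (a (Q z), b ((1 - Q) z))`).  `Ω = {x | ∃ z ∈ A, a (Q z) = x}` is open by `h2`; by `h1` the
point `z ∈ A` with `a (Q z) = x` is unique, put `u x = b ((1 - Q) z)` (and `u x = 0` for `x ∉ Ω`).
`u` has at `x ∈ Ω` the derivative `b ∘ (1 - Q) ∘ D z ∘ a⁻¹` by `h3` (`u x' - u x = b ((1 - Q) (z' - z))`,
`‖Q (z' - z)‖ = ‖x' - x‖`, `b` extended by `(1 - Q)`), and it is Hölder by `h4` and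
`‖z - z'‖ ≤ (3/2) ‖Q (z - z')‖`.  It is bounded: `‖fderiv‖ ≤ 1/2` by `h1`. -/
theorem graph_of_proj (hmn : m < n) {A : Set (E n)} {Q : Op n} (hQ : Pr n m Q) {β c : ℝ}
    (hβ : 0 < β) (hA : A ⊆ ball 0 1) (D : E n → Op n)
    (h1 : ∀ y ∈ A, ∀ z ∈ A, ‖(1 - Q) (z - y)‖ ≤ 1 / 2 * ‖Q (z - y)‖)
    (h2 : ∀ y ∈ A, ∃ ρ : ℝ, 0 < ρ ∧ ∀ x : E n, Q x = x → ‖x - Q y‖ < ρ → ∃ z ∈ A, Q z = x)
    (h3 : ∀ y ∈ A, ∀ z ∈ A,
      ‖(1 - Q) (z - y) - D y (Q (z - y))‖ ≤ c * ‖Q (z - y)‖ ^ (1 + β))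
    (h4 : ∀ y ∈ A, ∀ z ∈ A, ‖D y - D z‖ ≤ c * ‖y - z‖ ^ β) :
    IsC1HolderGraph m β A := by
  classical
  obtain ⟨T, hT, rfl⟩ := exists_of_pr hQ
  obtain ⟨R, p, q, ι, hRp, hRq, hpι, hQι, hnι, hιp, hnq, hqQ, hnq'⟩ := G1coord hmn hT
  -- the set and the section
  set Ω : Set (E m) := {x | ∃ z ∈ A, p z = x} with hΩ
  have hex : ∀ x : E m, ∃ z : E n, x ∈ Ω → z ∈ A ∧ p z = x := by
    intro x
    by_cases hx : x ∈ Ω
    · obtain ⟨z, hz, hz'⟩ := hx
      exact ⟨z, fun _ => ⟨hz, hz'⟩⟩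
    · exact ⟨0, fun h => absurd h hx⟩
  choose s hs using hex
  have hsA : ∀ x ∈ Ω, s x ∈ A := fun x hx => (hs x hx).1
  have hsp : ∀ x ∈ Ω, p (s x) = x := fun x hx => (hs x hx).2
  have hdist : ∀ z, ‖proj T z‖ = ‖p z‖ := by
    intro z
    rw [← hιp, hnι]
  have huniq : ∀ y ∈ A, ∀ z ∈ A, p y = p z → y = z := by
    intro y hy z hz hyz
    have h5 : proj T (z - y) = 0 := by
      rw [← norm_eq_zero, hdist, map_sub, hyz, sub_self, norm_zero]
    have h6 := h1 y hy z hz
    rw [h5, norm_zero, mul_zero] at h6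
    have h7 : (1 - proj T) (z - y) = 0 := norm_eq_zero.1 (le_antisymm h6 (norm_nonneg _))
    have h8 : z - y = proj T (z - y) + (1 - proj T) (z - y) := by
      show z - y = proj T (z - y) + ((z - y) - proj T (z - y))
      abel
    rw [h5, h7, add_zero, sub_eq_zero] at h8
    exact h8.symm
  have hQs : ∀ x ∈ Ω, ∀ x' ∈ Ω, proj T (s x' - s x) = ι (x' - x) := by
    intro x hx x' hx'
    rw [← hιp, map_sub p, hsp x hx, hsp x' hx']
  have hopen : IsOpen Ω := by
    rw [Metric.isOpen_iff]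
    rintro x ⟨y, hy, rfl⟩
    obtain ⟨ρ, hρ, hρ'⟩ := h2 y hy
    refine ⟨ρ, hρ, fun x' hx' => ?_⟩
    obtain ⟨z, hz, hz'⟩ := hρ' (ι x') (hQι x') (by
      rw [← hιp, ← map_sub, hnι, ← dist_eq_norm]
      exact hx')
    refine ⟨z, hz, ?_⟩
    have h5 : p (proj T z) = x' := by rw [hz', hpι]
    rw [← h5, ← hιp, hpι]
  set u : E m → E (n - m) := fun x => q (s x) with hu
  have hqsub : ∀ w : E n, q ((1 - proj T) w) = q w := by
    intro w
    show q (w - proj T w) = q w
    rw [map_sub, hqQ, sub_zero]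
  have hud : ∀ x ∈ Ω, HasFDerivAt u (q.comp ((D (s x)).comp ι)) x := by
    intro x hx
    rw [hasFDerivAt_iff_isLittleO, Asymptotics.isLittleO_iff]
    intro ε hε
    have hev : ∀ᶠ x' in 𝓝 x, |c| * ‖x' - x‖ ^ β < ε := by
      have hc : Tendsto (fun x' : E m => |c| * ‖x' - x‖ ^ β) (𝓝 x) (𝓝 (|c| * ‖x - x‖ ^ β)) := by
        apply Tendsto.const_mul
        apply Tendsto.rpow_const
        · exact (continuous_norm.comp (continuous_sub_right x)).tendsto x
        · right; exact hβ.le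
      rw [sub_self, norm_zero, Real.zero_rpow hβ.ne', mul_zero] at hc
      exact hc.eventually_lt_const hε
    filter_upwards [hev, hopen.mem_nhds hx] with x' hx1 hx'
    have h5 : u x' - u x - (q.comp ((D (s x)).comp ι)) (x' - x) =
        q ((1 - proj T) (s x' - s x) - D (s x) (proj T (s x' - s x))) := by
      rw [map_sub q, hqsub, hQs x hx x' hx', map_sub q]
      rfl
    rw [h5]
    refine (hnq _).trans ((h3 _ (hsA x hx) _ (hsA x' hx')).trans ?_)
    rw [hQs x hx x' hx', hnι]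
    rcases eq_or_ne x' x with rfl | hne
    · rw [sub_self, norm_zero, Real.zero_rpow (by linarith), mul_zero, mul_zero]
    · have hpos : 0 < ‖x' - x‖ := norm_pos_iff.2 (sub_ne_zero.2 hne)
      rw [Real.rpow_add hpos, Real.rpow_one]
      calc c * (‖x' - x‖ * ‖x' - x‖ ^ β) ≤ |c| * (‖x' - x‖ * ‖x' - x‖ ^ β) :=
            mul_le_mul_of_nonneg_right (le_abs_self c) (by positivity)
        _ = (|c| * ‖x' - x‖ ^ β) * ‖x' - x‖ := by ring
        _ ≤ ε * ‖x' - x‖ := mul_le_mul_of_nonneg_right hx1.le hpos.le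
  have hpq : ∀ z, ‖z‖ ^ 2 = ‖p z‖ ^ 2 + ‖q z‖ ^ 2 := by
    intro z
    rw [← R.norm_map z, WithLp.prod_norm_sq_eq_of_L2, ← hRp, ← hRq]
  refine ⟨p, q, hpq, Ω, u, hopen, ⟨fun x hx => (hud x hx).differentiableAt,
    1 + |c| * (3 / 2) ^ β, fun x hx => ⟨?_, ?_, ?_⟩⟩, ?_⟩
  · have h5 : ‖u x‖ ≤ ‖s x‖ := hnq _
    have h6 : ‖s x‖ < 1 := by
      have := hA (hsA x hx)
      rwa [mem_ball_zero_iff] at this
    have h7 : 0 ≤ |c| * (3 / 2 : ℝ) ^ β := by positivity
    linarith
  · have h7 : 0 ≤ |c| * (3 / 2 : ℝ) ^ β := by positivity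
    have h8 : ‖fderiv ℝ u x‖ ≤ 1 / 2 := by
      rw [(hud x hx).fderiv]
      apply (hud x hx).le_of_lip' (by norm_num)
      filter_upwards [hopen.mem_nhds hx] with x' hx'
      have h5 : u x' - u x = q (s x' - s x) := by rw [map_sub]
      rw [h5, hnq']
      refine (h1 _ (hsA x hx) _ (hsA x' hx')).trans ?_
      rw [hQs x hx x' hx', hnι]
    linarith
  · intro y hy
    rw [(hud x hx).fderiv, (hud y hy).fderiv]
    have h5 : q.comp ((D (s x)).comp ι) - q.comp ((D (s y)).comp ι) =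
        q.comp ((D (s x) - D (s y)).comp ι) := by
      ext1 v
      simp
    rw [h5]
    have h6 : ‖q.comp ((D (s x) - D (s y)).comp ι)‖ ≤ ‖D (s x) - D (s y)‖ := by
      apply ContinuousLinearMap.opNorm_le_bound _ (norm_nonneg _)
      intro v
      refine (hnq _).trans ?_
      refine ((D (s x) - D (s y)).le_opNorm (ι v)).trans ?_
      rw [hnι]
    have h7 : ‖s x - s y‖ ≤ 3 / 2 * ‖x - y‖ := by
      have h8 : s x - s y = proj T (s x - s y) + (1 - proj T) (s x - s y) := by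
        show s x - s y = proj T (s x - s y) + ((s x - s y) - proj T (s x - s y))
        abel
      have h9 := h1 _ (hsA y hy) _ (hsA x hx)
      rw [hQs y hy x hx, hnι] at h9
      rw [h8]
      refine (norm_add_le _ _).trans ?_
      rw [hQs y hy x hx, hnι]
      linarith
    calc ‖q.comp ((D (s x) - D (s y)).comp ι)‖ ≤ ‖D (s x) - D (s y)‖ := h6
      _ ≤ c * ‖s x - s y‖ ^ β := h4 _ (hsA x hx) _ (hsA y hy)
      _ ≤ |c| * ‖s x - s y‖ ^ β := mul_le_mul_of_nonneg_right (le_abs_self c) (by positivity)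
      _ ≤ |c| * (3 / 2 * ‖x - y‖) ^ β := by
          apply mul_le_mul_of_nonneg_left _ (abs_nonneg c)
          exact Real.rpow_le_rpow (norm_nonneg _) h7 hβ.le
      _ = (|c| * (3 / 2) ^ β) * ‖x - y‖ ^ β := by
          rw [Real.mul_rpow (by norm_num) (norm_nonneg _)]
          ring
      _ ≤ (1 + |c| * (3 / 2) ^ β) * ‖x - y‖ ^ β := by
          apply mul_le_mul_of_nonneg_right _ (by positivity)
          linarith
  · ext z
    constructor
    · intro hz
      have hzΩ : p z ∈ Ω := ⟨z, hz, rfl⟩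
      refine ⟨hzΩ, ?_⟩
      show q z = q (s (p z))
      rw [← huniq z hz (s (p z)) (hsA _ hzΩ) (hsp _ hzΩ).symm]
    · rintro ⟨hw1, hw2⟩
      have h5 : z - s (p z) = 0 := by
        rw [← norm_eq_zero, ← sq_eq_zero_iff, hpq, map_sub, map_sub, hsp _ hw1, hw2]
        simp [hu]
      rw [sub_eq_zero.1 h5]
      exact hsA _ hw1

end AllardStm
end
end

section

/-!
# The second moment of a plane
-/

noncomputable section

open MeasureTheory Metric Set Filter Topology

namespace AllardStm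

open Allard (tr rk tp Pr)

variable {n m : ℕ}

/-- The cutoff `χ(v) = max 0 (1 - ‖v‖)`. -/
def chi (v : E n) : ℝ := max 0 (1 - ‖v‖)

/-- The second moment of the cutoff in one coordinate. -/
def mom (m : ℕ) : ℝ := ((m : ℝ))⁻¹ * ∫ w : E m, ‖w‖ ^ 2 * chi w

theorem t1_chi_cont : Continuous (chi : E n → ℝ) := by
  unfold chi
  exact continuous_const.max (continuous_const.sub continuous_norm)

theorem t1_chi_supp {f : E n → ℝ} : HasCompactSupport (fun w : E n => f w * chi w) := by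
  refine HasCompactSupport.of_support_subset_isCompact (isCompact_closedBall (0 : E n) 1) ?_
  intro w hw
  rw [Function.mem_support] at hw
  rw [mem_closedBall_zero_iff]
  by_contra h
  apply hw
  have h1 : chi w = 0 := by
    unfold chi
    rw [max_eq_left]
    push Not at h
    linarith
  rw [h1, mul_zero]

theorem t1_chi_isom (R : E n ≃ₗᵢ[ℝ] E n) (w : E n) : chi (R w) = chi w := by
  unfold chi
  rw [LinearIsometryEquiv.norm_map]

theorem t1_int2 (a : E n) : Integrable (fun w : E n => inner ℝ w a ^ 2 * chi w) :=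
  (((continuous_id.inner continuous_const).pow 2).mul t1_chi_cont).integrable_of_hasCompactSupport
    t1_chi_supp

theorem t1_int {f : E n → ℝ} (hf : Continuous f) : Integrable (fun w : E n => f w * chi w) :=
  (hf.mul t1_chi_cont).integrable_of_hasCompactSupport t1_chi_supp

/-- the quadratic form is invariant -/
theorem t1_inv (R : E m ≃ₗᵢ[ℝ] E m) (a : E m) :
    ∫ w : E m, inner ℝ w (R a) ^ 2 * chi w = ∫ w : E m, inner ℝ w a ^ 2 * chi w := by
  have h := (R.measurePreserving).integral_comp R.toHomeomorph.measurableEmbedding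
    (fun w : E m => inner ℝ w (R a) ^ 2 * chi w)
  rw [← h]
  congr 1
  funext w
  rw [LinearIsometryEquiv.inner_map_map, t1_chi_isom]

theorem t1_norm {a c : E m} (h : ‖a‖ = ‖c‖) :
    ∫ w : E m, inner ℝ w a ^ 2 * chi w = ∫ w : E m, inner ℝ w c ^ 2 * chi w := by
  have h1 := t1_inv (Submodule.reflection (Submodule.span ℝ {a - c})ᗮ) a
  rw [Submodule.reflection_sub h] at h1
  exact h1.symm

theorem t1_smul (r : ℝ) (a : E m) :
    ∫ w : E m, inner ℝ w (r • a) ^ 2 * chi w = r ^ 2 * ∫ w : E m, inner ℝ w a ^ 2 * chi w := by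
  rw [← integral_const_mul]
  congr 1
  funext w
  rw [inner_smul_right]
  ring

theorem t1_unit (hm : 1 ≤ m) (i : Fin m) :
    ∫ w : E m, inner ℝ w (EuclideanSpace.single i (1 : ℝ)) ^ 2 * chi w = mom m := by
  have h1 : ∀ j : Fin m, ∫ w : E m, inner ℝ w (EuclideanSpace.single j (1 : ℝ)) ^ 2 * chi w =
      ∫ w : E m, inner ℝ w (EuclideanSpace.single i (1 : ℝ)) ^ 2 * chi w := by
    intro j
    apply t1_norm
    simp
  have h2 : ∫ w : E m, ‖w‖ ^ 2 * chi w =
      ∑ j : Fin m, ∫ w : E m, inner ℝ w (EuclideanSpace.single j (1 : ℝ)) ^ 2 * chi w := by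
    rw [← integral_finsetSum]
    · congr 1
      funext w
      rw [← Finset.sum_mul, EuclideanSpace.norm_sq_eq]
      congr 1
      refine Finset.sum_congr rfl fun j _ => ?_
      rw [EuclideanSpace.inner_single_right]
      simp
    · intro j _
      exact t1_int2 _
  rw [Finset.sum_congr rfl fun j _ => h1 j, Finset.sum_const, Finset.card_univ, Fintype.card_fin,
    nsmul_eq_mul] at h2
  unfold mom
  rw [h2]
  have hm0 : (m : ℝ) ≠ 0 := by positivity
  field_simp

theorem t1_quad (hm : 1 ≤ m) (a : E m) :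
    ∫ w : E m, inner ℝ w a ^ 2 * chi w = mom m * ‖a‖ ^ 2 := by
  have h1 : ‖a‖ = ‖‖a‖ • EuclideanSpace.single (⟨0, hm⟩ : Fin m) (1 : ℝ)‖ := by
    rw [norm_smul]
    simp
  rw [t1_norm h1, t1_smul, t1_unit hm]
  ring

/-- Proof (`m ≥ 1`).  The bilinear form `b(a, c) = ∫ ⟨w, a⟩ ⟨w, c⟩ χ(w) dw` is invariant under all
linear isometries (`MeasurePreserving` of linear isometry equivalences), so `b(a, a)` depends only on
`‖a‖` (for unit vectors `a, a'` there is an isometry, e.g. a reflection, that maps `a` to `a'`), and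
the sum of `b(e_i, e_i)` over the orthonormal basis is `∫ ‖w‖² χ`; polarisation. -/
theorem moment (hm : 1 ≤ m) (a c : E m) :
    ∫ w : E m, inner ℝ w a * inner ℝ w c * chi w = mom m * inner ℝ a c := by
  have h1 : (fun w : E m => inner ℝ w a * inner ℝ w c * chi w) =
      fun w => 4⁻¹ * (inner ℝ w (a + c) ^ 2 * chi w - inner ℝ w (a - c) ^ 2 * chi w) := by
    funext w
    rw [inner_add_right, inner_sub_right]
    ring
  rw [h1, integral_const_mul, integral_sub
    (t1_int2 (a + c)) (t1_int2 (a - c)), t1_quad hm, t1_quad hm,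
    norm_add_sq_real, norm_sub_sq_real]
  ring

theorem mom_pos (hm : 1 ≤ m) : 0 < mom m := by
  have hm0 : (0 : ℝ) < m := by positivity
  refine mul_pos (inv_pos.2 hm0) ?_
  refine Continuous.integral_pos_of_hasCompactSupport_nonneg_nonzero
    (x := (2⁻¹ : ℝ) • EuclideanSpace.single (⟨0, hm⟩ : Fin m) (1 : ℝ))
    ((continuous_norm.pow 2).mul t1_chi_cont) t1_chi_supp ?_ ?_
  · intro w
    exact mul_nonneg (by positivity) (le_max_left _ _)
  · have h1 : ‖(2⁻¹ : ℝ) • EuclideanSpace.single (⟨0, hm⟩ : Fin m) (1 : ℝ)‖ = 2⁻¹ := by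
      rw [norm_smul]
      simp
    unfold chi
    rw [h1]
    norm_num

end AllardStm
end
end

section

/-!
# The operator that represents a linear functional of operators
-/

noncomputable section

open MeasureTheory Metric Set Filter Topology

namespace AllardStm

open Allard (tr rk tp Pr)

variable {n m : ℕ}

theorem rk_apply (u w v : E n) : rk u w v = (inner ℝ w v : ℝ) • u := rfl

theorem norm_rk_le (u w : E n) : ‖rk u w‖ ≤ ‖u‖ * ‖w‖ := by
  refine ContinuousLinearMap.opNorm_le_bound _ (by positivity) fun v => ?_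
  rw [rk_apply, norm_smul]
  have h := norm_inner_le_norm (𝕜 := ℝ) w v
  calc _ ≤ ‖w‖ * ‖v‖ * ‖u‖ := by gcongr
    _ = ‖u‖ * ‖w‖ * ‖v‖ := by ring

theorem rk_add_left (u u' w : E n) : rk (u + u') w = rk u w + rk u' w := by
  ext1 v
  rw [ContinuousLinearMap.add_apply, rk_apply, rk_apply, rk_apply, smul_add]

theorem rk_smul_left (c : ℝ) (u w : E n) : rk (c • u) w = c • rk u w := by
  ext1 v
  rw [ContinuousLinearMap.smul_apply, rk_apply, rk_apply, smul_comm]

theorem rk_add_right (u w w' : E n) : rk u (w + w') = rk u w + rk u w' := by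
  ext1 v
  rw [ContinuousLinearMap.add_apply, rk_apply, rk_apply, rk_apply, inner_add_left, add_smul]

theorem rk_smul_right (c : ℝ) (u w : E n) : rk u (c • w) = c • rk u w := by
  ext1 v
  rw [ContinuousLinearMap.smul_apply, rk_apply, rk_apply, real_inner_smul_left, mul_smul]

theorem mul_rk (A : Op n) (u w : E n) : A * rk u w = rk (A u) w := by
  ext1 v
  show A (rk u w v) = _
  rw [rk_apply, rk_apply, map_smul]

theorem rk_mul (A : Op n) (u w : E n) : rk u w * A = rk u (tp A w) := by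
  ext1 v
  show rk u w (A v) = _
  rw [rk_apply, rk_apply, Allard.inner_tp]

/-- Every operator is a sum of operators of rank one. -/
theorem eq_sum_rk (L : Op n) :
    L = ∑ i, rk (L (EuclideanSpace.basisFun (Fin n) ℝ i)) (EuclideanSpace.basisFun (Fin n) ℝ i) := by
  ext1 v
  rw [ContinuousLinearMap.sum_apply]
  conv_lhs => rw [← (EuclideanSpace.basisFun (Fin n) ℝ).sum_repr' v]
  rw [map_sum]
  refine Finset.sum_congr rfl fun i _ => ?_
  rw [map_smul, rk_apply]

/-- The representing operator of the functional `ℓ`: `tr (rep ℓ * L) = ℓ L`. -/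
def rep (ℓ : Op n →L[ℝ] ℝ) : Op n :=
  LinearMap.toContinuousLinearMap
    { toFun := fun u => (InnerProductSpace.toDual ℝ (E n)).symm
        (LinearMap.toContinuousLinearMap
          { toFun := fun w => ℓ (rk u w)
            map_add' := fun w w' => by rw [rk_add_right, map_add]
            map_smul' := fun c w => by rw [rk_smul_right, map_smul]; rfl })
      map_add' := fun u u' => by
        rw [← map_add]
        congr 1
        ext w
        show ℓ (rk (u + u') w) = ℓ (rk u w) + ℓ (rk u' w)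
        rw [rk_add_left, map_add]
      map_smul' := fun c u => by
        have h : ∀ x : StrongDual ℝ (E n), (InnerProductSpace.toDual ℝ (E n)).symm (c • x)
            = c • (InnerProductSpace.toDual ℝ (E n)).symm x := fun x => by
          rw [LinearIsometryEquiv.map_smulₛₗ]
          rfl
        show _ = c • _
        rw [← h]
        congr 1
        ext w
        show ℓ (rk (c • u) w) = c • ℓ (rk u w)
        rw [rk_smul_left, map_smul] }

theorem inner_rep (ℓ : Op n →L[ℝ] ℝ) (u w : E n) : inner ℝ w (rep ℓ u) = ℓ (rk u w) := by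
  rw [real_inner_comm]
  show inner ℝ ((InnerProductSpace.toDual ℝ (E n)).symm _) w = _
  rw [InnerProductSpace.toDual_symm_apply]
  rfl

theorem tr_rep_mul (ℓ : Op n →L[ℝ] ℝ) (L : Op n) : tr (rep ℓ * L) = ℓ L := by
  have h1 : ∀ (s : Finset (Fin n)) (F : Fin n → Op n),
      tr (rep ℓ * ∑ i ∈ s, F i) = ∑ i ∈ s, tr (rep ℓ * F i) := by
    intro s F
    induction s using Finset.induction_on with
    | empty =>
      rw [Finset.sum_empty, Finset.sum_empty, mul_zero]
      unfold tr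
      exact map_zero (LinearMap.trace ℝ (E n))
    | insert a s ha ih =>
      rw [Finset.sum_insert ha, Finset.sum_insert ha, mul_add, Allard.tr_add, ih]
  conv_lhs => rw [eq_sum_rk L]
  rw [h1]
  conv_rhs => rw [eq_sum_rk L]
  rw [map_sum]
  refine Finset.sum_congr rfl fun i _ => ?_
  rw [Allard.tr_mul_rk, inner_rep]

theorem norm_rep_le (ℓ : Op n →L[ℝ] ℝ) : ‖rep ℓ‖ ≤ ‖ℓ‖ := by
  have h0 : 0 ≤ ‖ℓ‖ := ContinuousLinearMap.opNorm_nonneg ℓ
  refine ContinuousLinearMap.opNorm_le_bound _ h0 fun u => ?_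
  have h1 : ‖rep ℓ u‖ ^ 2 ≤ ‖ℓ‖ * (‖u‖ * ‖rep ℓ u‖) := by
    rw [← real_inner_self_eq_norm_sq, inner_rep]
    calc ℓ (rk u (rep ℓ u)) ≤ ‖ℓ (rk u (rep ℓ u))‖ := Real.le_norm_self _
      _ ≤ ‖ℓ‖ * ‖rk u (rep ℓ u)‖ := ContinuousLinearMap.le_opNorm _ _
      _ ≤ _ := mul_le_mul_of_nonneg_left (norm_rk_le _ _) h0
  rcases (norm_nonneg (rep ℓ u)).eq_or_lt with h | h
  · rw [← h]
    exact mul_nonneg h0 (norm_nonneg _)
  · nlinarith

theorem rep_sub (ℓ ℓ' : Op n →L[ℝ] ℝ) : rep ℓ - rep ℓ' = rep (ℓ - ℓ') := by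
  ext1 u
  refine ext_inner_left ℝ fun w => ?_
  rw [ContinuousLinearMap.sub_apply, inner_sub_right, inner_rep, inner_rep, inner_rep,
    ContinuousLinearMap.sub_apply]

end AllardStm
end
end

section

/-!
# The determinant
-/

noncomputable section

open MeasureTheory Metric Set Filter Topology

namespace AllardStm

open Allard (tr rk tp Pr)

variable {n m : ℕ}

/-- The matrix of an operator in the standard basis. -/
private def J2_mat (A : Op n) : Matrix (Fin n) (Fin n) ℝ :=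
  LinearMap.toMatrix (EuclideanSpace.basisFun (Fin n) ℝ).toBasis
    (EuclideanSpace.basisFun (Fin n) ℝ).toBasis (A : E n →ₗ[ℝ] E n)

private theorem J2_mat_add (A B : Op n) : J2_mat (A + B) = J2_mat A + J2_mat B := by
  unfold J2_mat
  rw [← map_add]
  rfl

private theorem J2_mat_smul (c : ℝ) (A : Op n) : J2_mat (c • A) = c • J2_mat A := by
  unfold J2_mat
  rw [← map_smul]
  rfl

private theorem J2_mat_one : J2_mat (1 : Op n) = 1 := by
  unfold J2_mat
  exact LinearMap.toMatrix_one _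

private theorem J2_det (A : Op n) : ContinuousLinearMap.det A = (J2_mat A).det := by
  unfold J2_mat ContinuousLinearMap.det
  rw [LinearMap.det_toMatrix]

private theorem J2_tr (A : Op n) : tr A = (J2_mat A).trace := by
  unfold J2_mat tr
  rw [LinearMap.trace_eq_matrix_trace ℝ (EuclideanSpace.basisFun (Fin n) ℝ).toBasis]

private theorem J2_entry (i j : Fin n) : ContDiff ℝ 1 (fun A : Op n => J2_mat A i j) := by
  let ℓ : Op n →ₗ[ℝ] ℝ :=
    { toFun := fun A => J2_mat A i j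
      map_add' := fun A B => by rw [J2_mat_add]; rfl
      map_smul' := fun c A => by rw [J2_mat_smul]; rfl }
  exact (LinearMap.toContinuousLinearMap ℓ).contDiff

/-- The determinant is smooth (it is a polynomial in the matrix entries: `LinearMap.det_toMatrix`
with the standard basis, `Matrix.det_apply`, entries are continuous linear functionals). -/
theorem contDiff_det : ContDiff ℝ 1 (fun A : Op n => ContinuousLinearMap.det A) := by
  have e : (fun A : Op n => ContinuousLinearMap.det A) = fun A : Op n =>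
      ∑ σ : Equiv.Perm (Fin n), Equiv.Perm.sign σ • ∏ i, J2_mat A (σ i) i := by
    funext A
    rw [J2_det, Matrix.det_apply]
  rw [e]
  refine ContDiff.sum fun σ _ => ?_
  refine ContDiff.const_smul _ ?_
  exact contDiff_prod fun i _ => J2_entry _ _

/-- Proof. By `contDiff_det` the determinant has some derivative `ℓ` at `1`; for a fixed `K` the
derivative of `t ↦ det (1 + t K)` at `0` is `tr K` (matrices: `Matrix.det_one_add_smul` or
`Matrix.derivative_det_one_add_X_smul`), so `ℓ K = tr K`. -/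
theorem fderiv_det_one (K : Op n) :
    fderiv ℝ (fun A : Op n => ContinuousLinearMap.det A) 1 K = tr K := by
  have h1 : HasFDerivAt (fun A : Op n => ContinuousLinearMap.det A)
      (fderiv ℝ (fun A : Op n => ContinuousLinearMap.det A) 1) (1 : Op n) :=
    (contDiff_det.differentiable (by norm_num)).differentiableAt.hasFDerivAt
  have h2 : HasDerivAt (fun t : ℝ => (1 : Op n) + t • K) K 0 := by
    have := ((hasDerivAt_id (0 : ℝ)).smul_const K).const_add (1 : Op n)
    simpa using this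
  have h3 : HasDerivAt (fun t : ℝ => ContinuousLinearMap.det ((1 : Op n) + t • K))
      (fderiv ℝ (fun A : Op n => ContinuousLinearMap.det A) 1 K) 0 := by
    have h1' : HasFDerivAt (fun A : Op n => ContinuousLinearMap.det A)
        (fderiv ℝ (fun A : Op n => ContinuousLinearMap.det A) 1)
        ((1 : Op n) + (0 : ℝ) • K) := by
      have e0 : (1 : Op n) + (0 : ℝ) • K = 1 := by
        ext1 v
        change (1 : Op n) v + (0 : ℝ) • K v = (1 : Op n) v
        rw [zero_smul, add_zero]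
      exact e0.symm ▸ h1
    exact h1'.comp_hasDerivAt (0 : ℝ) h2
  have h4 : HasDerivAt (fun t : ℝ => ContinuousLinearMap.det ((1 : Op n) + t • K)) (tr K) 0 := by
    have e : (fun t : ℝ => ContinuousLinearMap.det ((1 : Op n) + t • K)) = fun t : ℝ =>
        1 + (J2_mat K).trace * t +
          ((Matrix.det (1 + (Polynomial.X : Polynomial ℝ) •
            (J2_mat K).map Polynomial.C)).divX.divX).eval t * t ^ 2 := by
      funext t
      rw [J2_det, J2_mat_add, J2_mat_smul, J2_mat_one, Matrix.det_one_add_smul]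
    rw [e, J2_tr]
    have d1 : HasDerivAt (fun t : ℝ => 1 + (J2_mat K).trace * t) (J2_mat K).trace 0 := by
      have := ((hasDerivAt_id (0 : ℝ)).const_mul (J2_mat K).trace).const_add (1 : ℝ)
      simpa using this
    have d2 := (Polynomial.hasDerivAt ((Matrix.det (1 + (Polynomial.X : Polynomial ℝ) •
            (J2_mat K).map Polynomial.C)).divX.divX) (0 : ℝ)).mul (hasDerivAt_pow 2 (0 : ℝ))
    have d3 := d1.add d2
    have e2 : (J2_mat K).trace + ((Polynomial.derivative ((Matrix.det (1 + (Polynomial.X : Polynomial ℝ) •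
            (J2_mat K).map Polynomial.C)).divX.divX)).eval (0 : ℝ) * (0 : ℝ) ^ 2 +
            ((Matrix.det (1 + (Polynomial.X : Polynomial ℝ) •
            (J2_mat K).map Polynomial.C)).divX.divX).eval (0 : ℝ) * (((2 : ℕ) : ℝ) * 0 ^ (2 - 1))) =
            (J2_mat K).trace := by norm_num
    rw [e2] at d3
    exact d3
  exact h3.unique h4

/-- The Jacobian is a measurable function of the projection and the linear map (`jac_eq`, the
determinant is continuous, `√` is continuous). -/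
theorem measurable_jac {α : Type*} [MeasurableSpace α] {L : α → Op n}
    {T : α → Submodule ℝ (E n)} {μ : Measure α} (hL : AEStronglyMeasurable L μ)
    (hT : AEStronglyMeasurable (fun x => proj (T x)) μ) :
    AEStronglyMeasurable (fun x => jac (L x) (T x)) μ := by
  have hc : Continuous (fun q : Op n × Op n => Real.sqrt (ContinuousLinearMap.det
      (q.2 * (tp q.1 * q.1) * q.2 + (1 - q.2) : Op n))) := by
    refine Real.continuous_sqrt.comp (contDiff_det.continuous.comp ?_)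
    have htp : Continuous (fun q : Op n × Op n => tp q.1) := by
      unfold tp
      exact (ContinuousLinearMap.adjoint (𝕜 := ℝ) (E := E n) (F := E n)).continuous.comp
        continuous_fst
    exact ((continuous_snd.mul (htp.mul continuous_fst)).mul continuous_snd).add
      (continuous_const.sub continuous_snd)
  have h := hc.comp_aestronglyMeasurable (hL.prodMk hT)
  refine h.congr (Filter.Eventually.of_forall fun x => ?_)
  exact (jac_eq (L x) (T x)).symm

end AllardStm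
end
end

section

/-!
# The mean curvature bound from the `L^p` bound
-/

noncomputable section

open MeasureTheory Metric Set Filter Topology

namespace AllardStm

variable {n m : ℕ}

/-- Proof. Hölder: `∫ f |H| ≤ (∫ |H|^p)^{1/p} (∫ f^q)^{1/q} ≤ Λ X^{1-1/p}`, `q = p/(p-1)`,
`X = ∫ f` (`f^q ≤ f` because `0 ≤ f ≤ 1`).  Then `r X^{1-1/p} ≤ r^{1-m/p} (r^m + X)` because
`(r^m)^{1/p} X^{1-1/p} ≤ r^m + X` (both factors are powers of numbers `≤ max (r^m) X`, or
`Real.inner_le_nnorm_mul_nnorm` / weighted AM-GM `Real.geom_mean_le_arith_mean2_weighted`). -/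
theorem hb_of_eLpNorm {μ : Measure (E n)} [IsFiniteMeasure μ] {H : E n → E n}
    (hH : Measurable H) {p Λ : ℝ} (hp : 1 < p) (hΛ : 0 ≤ Λ)
    (h : eLpNorm H (ENNReal.ofReal p) μ ≤ ENNReal.ofReal Λ) {f : E n → ℝ} (hf : Measurable f)
    (hf0 : ∀ z, 0 ≤ f z) (hf1 : ∀ z, f z ≤ 1) {r : ℝ} (hr : 0 < r) :
    r * ∫ z, f z * ‖H z‖ ∂μ ≤ Λ * r ^ (1 - m / p) * (r ^ m + ∫ z, f z ∂μ) := by
  have hpq : p.HolderConjugate (p / (p - 1)) := Real.HolderConjugate.conjExponent hp
  obtain ⟨q, hq⟩ : ∃ q, q = p / (p - 1) := ⟨_, rfl⟩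
  rw [← hq] at hpq
  have hp0 : 0 < p := hpq.pos
  have hq0 : 0 < q := hpq.symm.pos
  have hq1 : 1 ≤ q := hpq.symm.lt.le
  have hHm : MemLp H (ENNReal.ofReal p) μ :=
    ⟨hH.aestronglyMeasurable, h.trans_lt ENNReal.ofReal_lt_top⟩
  have hfm : MemLp f (ENNReal.ofReal q) μ :=
    MemLp.of_bound hf.aestronglyMeasurable 1 (ae_of_all _ fun z => by
      rw [Real.norm_of_nonneg (hf0 z)]
      exact hf1 z)
  have hfi : Integrable f μ := by
    have h1 : MemLp f 1 μ := MemLp.of_bound hf.aestronglyMeasurable 1 (ae_of_all _ fun z => by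
      rw [Real.norm_of_nonneg (hf0 z)]
      exact hf1 z)
    exact memLp_one_iff_integrable.1 h1
  have hho := integral_mul_le_Lp_mul_Lq_of_nonneg hpq.symm (f := f) (g := fun z => ‖H z‖)
    (ae_of_all _ hf0) (ae_of_all _ fun z => norm_nonneg _) hfm hHm.norm
  have hHΛ : (∫ z, ‖H z‖ ^ p ∂μ) ^ (1 / p) ≤ Λ := by
    have h1 := hHm.eLpNorm_eq_integral_rpow_norm (ENNReal.ofReal_pos.2 hp0).ne'
      ENNReal.ofReal_ne_top
    rw [ENNReal.toReal_ofReal hp0.le] at h1
    rw [h1, ENNReal.ofReal_le_ofReal_iff hΛ] at h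
    rw [one_div]
    exact h
  obtain ⟨X, hX⟩ : ∃ X, X = ∫ z, f z ∂μ := ⟨_, rfl⟩
  have hX0 : 0 ≤ X := hX ▸ integral_nonneg hf0
  have hfq : ∫ z, f z ^ q ∂μ ≤ X := by
    rw [hX]
    refine integral_mono_of_nonneg (ae_of_all _ fun z => Real.rpow_nonneg (hf0 z) _) hfi
      (ae_of_all _ fun z => ?_)
    exact Real.rpow_le_self_of_le_one (hf0 z) (hf1 z) hq1
  have hfq0 : 0 ≤ ∫ z, f z ^ q ∂μ := integral_nonneg fun z => Real.rpow_nonneg (hf0 z) _
  have h1 : ∫ z, f z * ‖H z‖ ∂μ ≤ X ^ (1 / q) * Λ := by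
    refine hho.trans ?_
    refine mul_le_mul (Real.rpow_le_rpow hfq0 hfq (by positivity)) hHΛ ?_ (by positivity)
    exact Real.rpow_nonneg (integral_nonneg fun z => by positivity) _
  have hrm : 0 < r ^ m := by positivity
  have ham : (r ^ m) ^ (1 / p) * X ^ (1 / q) ≤ r ^ m + X := by
    have hsum : 1 / p + 1 / q = 1 := by
      rw [one_div, one_div]
      exact hpq.inv_add_inv_eq_one
    have h2 := Real.geom_mean_le_arith_mean2_weighted (w₁ := 1 / p) (w₂ := 1 / q) (by positivity)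
      (by positivity) hrm.le hX0 hsum
    have h3 : 1 / p ≤ 1 := by
      have : 0 < 1 / q := by positivity
      linarith
    have h4 : 1 / q ≤ 1 := by
      have : 0 < 1 / p := by positivity
      linarith
    have h5 : 1 / p * r ^ m ≤ r ^ m := mul_le_of_le_one_left hrm.le h3
    have h6 : 1 / q * X ≤ X := mul_le_of_le_one_left hX0 h4
    linarith
  have hr1 : r = r ^ (1 - (m : ℝ) / p) * (r ^ m) ^ (1 / p) := by
    rw [← Real.rpow_natCast, ← Real.rpow_mul hr.le, ← Real.rpow_add hr, mul_one_div,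
      sub_add_cancel, Real.rpow_one]
  have hrp : 0 < r ^ (1 - (m : ℝ) / p) := Real.rpow_pos_of_pos hr _
  rw [← hX]
  calc r * ∫ z, f z * ‖H z‖ ∂μ ≤ r * (X ^ (1 / q) * Λ) := mul_le_mul_of_nonneg_left h1 hr.le
    _ = Λ * r ^ (1 - (m : ℝ) / p) * ((r ^ m) ^ (1 / p) * X ^ (1 / q)) := by
      nth_rewrite 1 [hr1]
      ring
    _ ≤ Λ * r ^ (1 - (m : ℝ) / p) * (r ^ m + X) :=
      mul_le_mul_of_nonneg_left ham (by positivity)

/-- For a finite measure of total mass at most `M` an `L^∞` bound gives an `L^q` bound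
(`eLpNorm_le_eLpNorm_mul_rpow_measure_univ`). -/
theorem eLpNorm_le_top {μ : Measure (E n)} {H : E n → E n} (hH : AEStronglyMeasurable H μ)
    {q M : ℝ} (hq : 0 < q) (hM : μ univ ≤ ENNReal.ofReal M) :
    eLpNorm H (ENNReal.ofReal q) μ ≤ eLpNorm H ⊤ μ * ENNReal.ofReal M ^ (1 / q) := by
  have hq0 : ENNReal.ofReal q ≤ ⊤ := le_top
  have h1 := eLpNorm_le_eLpNorm_mul_rpow_measure_univ hq0 hH
  refine h1.trans ?_
  rw [ENNReal.toReal_ofReal hq.le, ENNReal.toReal_top, div_zero, sub_zero]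
  gcongr

end AllardStm
end
end
end
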