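import Pool.Agent.Lib.MP_5932b0_an.ST.H1
import Pool.Agent.Lib.MP_5932b0_an.AR.B1

section

section

/-!
# C1a: rescaling of a system, definition

`T z = r⁻¹ • (z - y)`, inverse `w ↦ y + r • w`.  `μ' = r^{-m} T_* μ`, `P' w = P (y + r w)`,
`H' w = r H (y + r w)`.

FV: for a test field `g'` of the rescaled set put `g z = g' (T z)`; `fderiv g z = r⁻¹ fderiv g' (T z)`
(`tsupport g` is the preimage of `tsupport g'`), change variables with `integral_map` (T is a
homeomorphism / measurable equivalence), multiply by `r`.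
HB: `r' ∫ f ‖H'‖ dμ' = r^{-m} (r r') ∫ f(T z) ‖H z‖ dμ ≤ r^{-m} Λ (r r')^α ((r r')^m + ∫ f(T z) dμ)`.
-/

noncomputable section

open MeasureTheory Metric Set Filter Topology

namespace Allard

variable {n m : ℕ} {δ : ℝ} {S : Stress n m δ} {α Λ : ℝ} {U : Set (E n)}

/-- The homeomorphism `z ↦ r⁻¹ • (z - y)`. -/
def rsT (y : E n) (r : ℝ) (hr : 0 < r) : E n ≃ₜ E n where
  toFun := fun z => r⁻¹ • (z - y)
  invFun := fun w => y + r • w
  left_inv := fun z => by simp [smul_smul, mul_inv_cancel₀ hr.ne']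
  right_inv := fun w => by simp [smul_smul, inv_mul_cancel₀ hr.ne']
  continuous_toFun := by fun_prop
  continuous_invFun := by fun_prop

theorem rsT_apply (y : E n) (r : ℝ) (hr : 0 < r) (z : E n) :
    rsT y r hr z = r⁻¹ • (z - y) := rfl

theorem rsT_back (y : E n) (r : ℝ) (hr : 0 < r) (z : E n) :
    y + r • (r⁻¹ • (z - y)) = z := (rsT y r hr).left_inv z

theorem rsT_integral (μ : Measure (E n)) (y : E n) (r : ℝ) (hr : 0 < r) (f : E n → ℝ) :
    ∫ w, f w ∂(ENNReal.ofReal ((r ^ m)⁻¹) • μ.map (fun z => r⁻¹ • (z - y))) =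
      (r ^ m)⁻¹ * ∫ z, f (r⁻¹ • (z - y)) ∂μ := by
  have h1 : 0 ≤ (r ^ m)⁻¹ := by positivity
  rw [integral_smul_measure, ENNReal.toReal_ofReal h1, smul_eq_mul]
  congr 1
  exact integral_map_equiv (rsT y r hr).toMeasurableEquiv f

/-- Rescaling around `y` by the factor `r`. -/
def Sys.rs (V : Sys S α Λ U) (y : E n) (r : ℝ) (hr : 0 < r) :
    Sys S α (Λ * r ^ α) ((fun w => y + r • w) ⁻¹' U) where
  μ := ENNReal.ofReal ((r ^ m)⁻¹) • V.μ.map (fun z => r⁻¹ • (z - y))
  P := fun w => V.P (y + r • w)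
  H := fun w => r • V.H (y + r • w)
  fin := by
    have h1 := V.fin
    have h2 : IsFiniteMeasure (V.μ.map (fun z => r⁻¹ • (z - y))) :=
      Measure.isFiniteMeasure_map V.μ _
    exact Measure.smul_finite _ ENNReal.ofReal_ne_top
  mP := V.mP.comp (measurable_const.add (measurable_id.const_smul r))
  hP := fun w => V.hP _
  mH := (V.mH.comp (measurable_const.add (measurable_id.const_smul r))).const_smul r
  iH := by
    refine Integrable.smul_measure ?_ ENNReal.ofReal_ne_top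
    have h1 : Measurable (fun z : E n => r⁻¹ • (z - y)) := (rsT y r hr).continuous.measurable
    have hm : Measurable (fun w : E n => r • V.H (y + r • w)) :=
      (V.mH.comp (measurable_const.add (measurable_id.const_smul r))).const_smul r
    rw [integrable_map_measure hm.aestronglyMeasurable h1.aemeasurable]
    have h2 : ((fun w => r • V.H (y + r • w)) ∘ fun z : E n => r⁻¹ • (z - y)) =
        fun z => r • V.H z := by
      funext z
      simp only [Function.comp]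
      rw [rsT_back y r hr]
    have h3 : Integrable (fun z => r • V.H z) V.μ := V.iH.smul r
    rw [← h2] at h3
    exact h3
  fv := by
    intro g' hg' hc' hs'
    rw [rsT_integral V.μ y r hr, rsT_integral V.μ y r hr]
    set g : E n → E n := g' ∘ (rsT y r hr) with hg
    have hcd : ContDiff ℝ 1 g := by
      refine hg'.comp ?_
      have : ContDiff ℝ 1 fun z : E n => r⁻¹ • (z - y) := by fun_prop
      exact this
    have hcs : HasCompactSupport g := hc'.comp_homeomorph (rsT y r hr)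
    have hts : tsupport g ⊆ U := by
      intro z hz
      rw [hg, tsupport_comp_eq_preimage g' (rsT y r hr)] at hz
      have h1 : y + r • (rsT y r hr z) ∈ U := hs' hz
      rw [rsT_apply, rsT_back y r hr] at h1
      exact h1
    have key := V.fv g hcd hcs hts
    have hfd : ∀ z, fderiv ℝ g' (r⁻¹ • (z - y)) = r • fderiv ℝ g z := by
      intro z
      have h1 : HasFDerivAt (fun z : E n => r⁻¹ • (z - y)) (r⁻¹ • ContinuousLinearMap.id ℝ (E n))
          z := ((hasFDerivAt_id z).sub_const y).const_smul r⁻¹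
      have h2 : HasFDerivAt g' (fderiv ℝ g' (r⁻¹ • (z - y))) (r⁻¹ • (z - y)) :=
        (hg'.differentiable (by norm_num) _).hasFDerivAt
      have h3 := h2.comp z h1
      have h4 : fderiv ℝ g z = (fderiv ℝ g' (r⁻¹ • (z - y))).comp
          (r⁻¹ • ContinuousLinearMap.id ℝ (E n)) := h3.fderiv
      rw [h4]
      ext v
      simp [smul_smul, mul_inv_cancel₀ hr.ne']
    have e1 : ∀ z, tr (S.B (V.P (y + r • r⁻¹ • (z - y))) * fderiv ℝ g' (r⁻¹ • (z - y))) =
        r * tr (S.B (V.P z) * fderiv ℝ g z) := by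
      intro z
      rw [rsT_back y r hr, hfd z]
      have h1 : S.B (V.P z) * (r • fderiv ℝ g z) = r • (S.B (V.P z) * fderiv ℝ g z) := by
        ext v
        simp
      rw [h1]
      unfold tr
      rw [show ((r • (S.B (V.P z) * fderiv ℝ g z) : Op n) : E n →ₗ[ℝ] E n) =
        r • ((S.B (V.P z) * fderiv ℝ g z : Op n) : E n →ₗ[ℝ] E n) from rfl, map_smul, smul_eq_mul]
    have e2 : ∀ z, inner ℝ (r • V.H (y + r • r⁻¹ • (z - y))) (g' (r⁻¹ • (z - y))) =
        r * inner ℝ (V.H z) (g z) := by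
      intro z
      rw [rsT_back y r hr, real_inner_smul_left]
      rfl
    simp only [e1, e2]
    rw [integral_const_mul, integral_const_mul, key]
  hb := by
    intro f hf h0 h1 r' hr'
    rw [rsT_integral V.μ y r hr, rsT_integral V.μ y r hr]
    have h2 := V.hb (fun z => f (r⁻¹ • (z - y))) (hf.comp (rsT y r hr).continuous.measurable)
      (fun z => h0 _) (fun z => h1 _) (r * r') (mul_pos hr hr')
    have e1 : ∀ z, f (r⁻¹ • (z - y)) * ‖r • V.H (y + r • r⁻¹ • (z - y))‖ =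
        r * (f (r⁻¹ • (z - y)) * ‖V.H z‖) := by
      intro z
      rw [rsT_back y r hr, norm_smul, Real.norm_of_nonneg hr.le]
      ring
    simp only [e1]
    rw [integral_const_mul]
    rw [Real.mul_rpow hr.le hr'.le, mul_pow] at h2
    have hrm : 0 < r ^ m := by positivity
    have h3 := mul_le_mul_of_nonneg_left h2 (inv_nonneg.2 hrm.le)
    have e2 : (r ^ m)⁻¹ * (Λ * (r ^ α * r' ^ α) *
        (r ^ m * r' ^ m + ∫ z, f (r⁻¹ • (z - y)) ∂V.μ)) =
        Λ * r ^ α * r' ^ α * (r' ^ m + (r ^ m)⁻¹ * ∫ z, f (r⁻¹ • (z - y)) ∂V.μ) := by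
      field_simp
    rw [e2] at h3
    refine le_trans (le_of_eq ?_) h3
    ring

variable (V : Sys S α Λ U) (y : E n) (r : ℝ) (hr : 0 < r)

theorem rs_P (w : E n) : (V.rs y r hr).P w = V.P (y + r • w) := rfl

theorem rs_integral (f : E n → ℝ) :
    ∫ w, f w ∂(V.rs y r hr).μ = (r ^ m)⁻¹ * ∫ z, f (r⁻¹ • (z - y)) ∂V.μ :=
  rsT_integral V.μ y r hr f

end Allard
end
end

section

/-!
# C1: rescaling of a system, scale invariant quantities

`T z = r⁻¹ • (z - y)`, inverse `w ↦ y + r • w`.  `μ' = r^{-m} T_* μ`, `P' w = P (y + r w)`,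
`H' w = r H (y + r w)`.

FV: for a test field `g'` of the rescaled set put `g z = g' (T z)`; `fderiv g z = r⁻¹ fderiv g' (T z)`
(`tsupport g` is the preimage of `tsupport g'`), change variables with `integral_map` (T is a
homeomorphism / measurable equivalence), multiply by `r`.
HB: `r' ∫ f ‖H'‖ dμ' = r^{-m} (r r') ∫ f(T z) ‖H z‖ dμ ≤ r^{-m} Λ (r r')^α ((r r')^m + ∫ f(T z) dμ)`.
-/

noncomputable section

open MeasureTheory Metric Set Filter Topology

namespace Allard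

variable {n m : ℕ} {δ : ℝ} {S : Stress n m δ} {α Λ : ℝ} {U : Set (E n)}

variable (V : Sys S α Λ U) (y : E n) (r : ℝ) (hr : 0 < r)

include hr in
private theorem C1_dist (z w : E n) : ‖r⁻¹ • (z - y) - w‖ = r⁻¹ * ‖z - (y + r • w)‖ := by
  have h1 : r⁻¹ • (z - y) - w = r⁻¹ • (z - (y + r • w)) := by
    rw [← sub_sub, smul_sub r⁻¹ (z - y), smul_smul, inv_mul_cancel₀ hr.ne', one_smul]
  rw [h1, norm_smul, Real.norm_of_nonneg (inv_nonneg.2 hr.le)]

include hr in
private theorem C1_sub (z w : E n) : r⁻¹ • (z - y) - w = r⁻¹ • (z - (y + r • w)) := by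
  rw [← sub_sub, smul_sub r⁻¹ (z - y), smul_smul, inv_mul_cancel₀ hr.ne', one_smul]

include hr in
private theorem C1_ball (w : E n) (ρ : ℝ) :
    (fun z => r⁻¹ • (z - y)) ⁻¹' ball w ρ = ball (y + r • w) (r * ρ) := by
  ext z
  rw [mem_preimage, mem_ball, mem_ball, dist_eq_norm, dist_eq_norm, C1_dist y r hr,
    inv_mul_lt_iff₀ hr]

private theorem C1_μ (A : Set (E n)) :
    (V.rs y r hr).μ A = ENNReal.ofReal ((r ^ m)⁻¹) * V.μ ((fun z => r⁻¹ • (z - y)) ⁻¹' A) := by
  have h1 : (V.rs y r hr).μ = ENNReal.ofReal ((r ^ m)⁻¹) • V.μ.map (fun z => r⁻¹ • (z - y)) := rfl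
  rw [h1, Measure.smul_apply, smul_eq_mul]
  congr 1
  exact (rsT y r hr).toMeasurableEquiv.map_apply A

theorem rs_real_ball (w : E n) (ρ : ℝ) :
    (V.rs y r hr).μ.real (ball w ρ) = (r ^ m)⁻¹ * V.μ.real (ball (y + r • w) (r * ρ)) := by
  rw [measureReal_def, C1_μ, C1_ball y r hr, ENNReal.toReal_mul,
    ENNReal.toReal_ofReal (by positivity)]
  rfl

theorem rs_setIntegral (A : Set (E n)) (hA : MeasurableSet A) (f : E n → ℝ) :
    ∫ w in A, f w ∂(V.rs y r hr).μ =
      (r ^ m)⁻¹ * ∫ z in (fun z => r⁻¹ • (z - y)) ⁻¹' A, f (r⁻¹ • (z - y)) ∂V.μ := by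
  have hm : Measurable (fun z : E n => r⁻¹ • (z - y)) := (rsT y r hr).continuous.measurable
  rw [← integral_indicator hA, rs_integral, ← integral_indicator (hm hA)]
  rfl

theorem rs_support (w : E n) :
    w ∈ (V.rs y r hr).μ.support ↔ y + r • w ∈ V.μ.support := by
  rw [Metric.nhds_basis_ball.mem_measureSupport, Metric.nhds_basis_ball.mem_measureSupport]
  have hc : 0 < ENNReal.ofReal ((r ^ m)⁻¹) := ENNReal.ofReal_pos.2 (by positivity)
  constructor
  · intro h ρ hρ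
    have h1 := h (r⁻¹ * ρ) (by positivity)
    rw [C1_μ, C1_ball y r hr, mul_inv_cancel_left₀ hr.ne'] at h1
    exact pos_of_mul_pos_right h1 zero_le
  · intro h ρ hρ
    rw [C1_μ, C1_ball y r hr]
    exact ENNReal.mul_pos hc.ne' (h (r * ρ) (by positivity)).ne'

theorem rs_hh (ρ : ℝ) (hρ : 0 < ρ) (w : E n) :
    (V.rs y r hr).hh ρ w = V.hh (r * ρ) (y + r • w) := by
  unfold Sys.hh
  rw [rs_setIntegral V y r hr _ measurableSet_ball, C1_ball y r hr]
  have e1 : ∀ z, ‖(V.rs y r hr).H (r⁻¹ • (z - y))‖ = r * ‖V.H z‖ := by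
    intro z
    change ‖r • V.H (y + r • r⁻¹ • (z - y))‖ = _
    rw [rsT_back y r hr, norm_smul, Real.norm_of_nonneg hr.le]
  simp only [e1]
  rw [integral_const_mul, mul_pow]
  field_simp

include hr in
private theorem C1_ann (w : E n) (ρ : ℝ) :
    (fun z => r⁻¹ • (z - y)) ⁻¹' {z | ρ / 2 ≤ ‖z - w‖ ∧ ‖z - w‖ < ρ} =
      {z | r * ρ / 2 ≤ ‖z - (y + r • w)‖ ∧ ‖z - (y + r • w)‖ < r * ρ} := by
  ext z
  simp only [mem_preimage, mem_ofPred_eq]
  rw [C1_dist y r hr, inv_mul_lt_iff₀ hr, ← div_eq_inv_mul, le_div_iff₀ hr,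
    show ρ / 2 * r = r * ρ / 2 by ring]

private theorem C1_annm (w : E n) (ρ : ℝ) :
    MeasurableSet {z : E n | ρ / 2 ≤ ‖z - w‖ ∧ ‖z - w‖ < ρ} := by
  have h1 : Measurable fun z : E n => ‖z - w‖ := by fun_prop
  exact (measurableSet_le measurable_const h1).inter (measurableSet_lt h1 measurable_const)

private theorem C1_Pback (z : E n) : (V.rs y r hr).P (r⁻¹ • (z - y)) = V.P z := by
  rw [rs_P, rsT_back y r hr]

theorem rs_gg (ρ : ℝ) (hρ : 0 < ρ) (w : E n) :
    (V.rs y r hr).gg ρ w = V.gg (r * ρ) (y + r • w) := by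
  unfold Sys.gg
  rw [rs_setIntegral V y r hr _ (C1_annm w ρ), C1_ann y r hr]
  have e1 : ∀ z, ga ((V.rs y r hr).P (r⁻¹ • (z - y))) (r⁻¹ • (z - y) - w) =
      ga (V.P z) (z - (y + r • w)) := by
    intro z
    rw [C1_Pback, C1_sub y r hr, ga_smul _ (inv_ne_zero hr.ne')]
  simp only [e1]
  rw [mul_pow, mul_inv]
  ring

theorem rs_ls (ρ : ℝ) (hρ : 0 < ρ) (w : E n) :
    (V.rs y r hr).ls ρ w = V.ls (r * ρ) (y + r • w) := by
  unfold Sys.ls
  rw [rs_setIntegral V y r hr _ (C1_annm w ρ), C1_ann y r hr]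
  have e1 : ∀ z, ‖(V.rs y r hr).P (r⁻¹ • (z - y)) - (V.rs y r hr).P w‖ ^ 2 =
      ‖V.P z - V.P (y + r • w)‖ ^ 2 := by
    intro z
    rw [C1_Pback, rs_P]
  simp only [e1]
  rw [mul_pow, mul_inv]
  ring

theorem rs_lq (Q : Op n) (ρ : ℝ) (hρ : 0 < ρ) (w : E n) :
    (V.rs y r hr).lq Q ρ w = V.lq Q (r * ρ) (y + r • w) := by
  unfold Sys.lq
  rw [rs_setIntegral V y r hr _ measurableSet_ball, C1_ball y r hr]
  simp only [C1_Pback]
  rw [mul_pow, mul_inv]
  ring

private theorem C1_gn (G : Op n) (z : E n) (c : ℝ) (hc : 0 < c) : gn G (c • z) = c * gn G z := by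
  unfold gn
  rw [map_smul, real_inner_smul_left, real_inner_smul_right, ← mul_assoc,
    Real.sqrt_mul (by positivity), Real.sqrt_mul_self hc.le]

theorem rs_I (η : ℝ → ℝ) (Q : Op n) (ρ : ℝ) (hρ : 0 < ρ) (w : E n) :
    (V.rs y r hr).I η Q w ρ = V.I η Q (y + r • w) (r * ρ) := by
  unfold Sys.I
  rw [rs_integral, ← integral_const_mul]
  refine integral_congr_ae (Eventually.of_forall fun z => ?_)
  simp only
  rw [C1_Pback, C1_sub y r hr, C1_gn _ _ _ (inv_pos.2 hr)]
  unfold Kr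
  have e : r⁻¹ * gn (S.G Q) (z - (y + r • w)) / ρ = gn (S.G Q) (z - (y + r • w)) / (r * ρ) := by
    field_simp
  rw [e, mul_pow, mul_inv]
  ring

theorem rs_AE (h : V.AE) : (V.rs y r hr).AE := by
  unfold Sys.AE at h ⊢
  have h1 : (V.rs y r hr).μ = ENNReal.ofReal ((r ^ m)⁻¹) • V.μ.map (fun z => r⁻¹ • (z - y)) := rfl
  have h2 : ∀ᵐ w ∂(V.μ.map (fun z => r⁻¹ • (z - y))), ∀ ε : ℝ, 0 < ε →
      ∀ᶠ s in 𝓝[>] (0 : ℝ), (1 - ε) * om m * s ^ m ≤ (V.rs y r hr).μ.real (ball w s) := by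
    have h3 : MeasurableEmbedding (fun z : E n => r⁻¹ • (z - y)) :=
      (rsT y r hr).toMeasurableEquiv.measurableEmbedding
    rw [h3.ae_map_iff]
    filter_upwards [h] with z hz ε hε
    have h4 := hz ε hε
    have h5 : Tendsto (fun s : ℝ => r * s) (𝓝[>] (0 : ℝ)) (𝓝[>] (0 : ℝ)) := by
      refine tendsto_nhdsWithin_of_tendsto_nhds_of_eventually_within _ ?_ ?_
      · have : Tendsto (fun s : ℝ => r * s) (𝓝 0) (𝓝 (r * 0)) :=
          (continuous_const.mul continuous_id).tendsto 0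
        rw [mul_zero] at this
        exact this.mono_left nhdsWithin_le_nhds
      · filter_upwards [self_mem_nhdsWithin] with s hs
        exact mul_pos hr hs
    filter_upwards [h5.eventually h4] with s hs
    rw [rs_real_ball, rsT_back y r hr]
    rw [mul_pow] at hs
    have hrm : 0 < r ^ m := by positivity
    rw [← div_eq_inv_mul, le_div_iff₀ hrm]
    linarith
  rw [h1]
  exact Measure.ae_smul_measure h2 _

theorem rs_LD {η₁ : ℝ} (h : V.LD η₁) : (V.rs y r hr).LD η₁ := by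
  intro w hw ρ hρ hU
  rw [rs_support] at hw
  have h1 := h _ hw (r * ρ) (mul_pos hr hρ) (by
    intro z hz
    have h2 : r⁻¹ • (z - y) ∈ closedBall w ρ := by
      rw [mem_closedBall, dist_eq_norm, C1_dist y r hr, inv_mul_le_iff₀ hr]
      rwa [mem_closedBall, dist_eq_norm] at hz
    have h3 := hU h2
    rw [mem_preimage, rsT_back y r hr] at h3
    exact h3)
  rw [rs_real_ball]
  rw [mul_pow] at h1
  have hrm : 0 < r ^ m := by positivity
  rw [← div_eq_inv_mul, le_div_iff₀ hrm]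
  linarith

theorem lam_mul (c : ℝ) : lam α (Λ * c) = lam α Λ * c := by
  unfold lam
  ring

end Allard
end
end
end

section

/-!
# W2: vertical cutoffs

`ϑ` a `ContDiffBump (0 : E n)` with `rIn = r₁`, `rOut = r₂`; `χ z = ϑ ((1-Q) z)`.
`fderiv χ z (Q v) = fderiv ϑ ((1-Q)z) ((1-Q) Q v) = 0`; `‖fderiv χ‖ ≤ sup ‖fderiv ϑ‖` (finite: continuous
with compact support), independent of `Q`.
-/

noncomputable section

open MeasureTheory Metric Set Filter Topology

namespace Allard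

theorem exists_cutoff (n : ℕ) (r₁ r₂ : ℝ) (h1 : 0 < r₁) (h2 : r₁ < r₂) :
    ∃ c₁ : ℝ, 0 < c₁ ∧ ∀ {m : ℕ} {Q : Op n}, Pr n m Q → ∃ χ : E n → ℝ, ContDiff ℝ 1 χ ∧
      (∀ z, 0 ≤ χ z) ∧ (∀ z, χ z ≤ 1) ∧ (∀ z, ‖fderiv ℝ χ z‖ ≤ c₁) ∧
      (∀ z v, fderiv ℝ χ z (Q v) = 0) ∧ (∀ z, ‖(1 - Q) z‖ ≤ r₁ → χ z = 1) ∧
      (∀ z, r₂ ≤ ‖(1 - Q) z‖ → χ z = 0) ∧ (∀ z w, χ (z + Q w) = χ z) := by
  let ϑ : ContDiffBump (0 : E n) := ⟨r₁, r₂, h1, h2⟩
  have hϑ : ContDiff ℝ 1 (ϑ : E n → ℝ) := ϑ.contDiff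
  have hcs : HasCompactSupport (ϑ : E n → ℝ) := ϑ.hasCompactSupport
  obtain ⟨C, hC⟩ := (hϑ.continuous_fderiv (by norm_num)).bounded_above_of_compact_support
    (hcs.fderiv ℝ)
  have hC0 : 0 ≤ C := (norm_nonneg _).trans (hC 0)
  refine ⟨C + 1, by linarith, fun {m} {Q} hQ => ⟨fun z => ϑ ((1 - Q) z), ?_, fun z => ϑ.nonneg,
    fun z => ϑ.le_one, ?_, ?_, ?_, ?_, ?_⟩⟩
  · exact hϑ.comp (1 - Q).contDiff
  all_goals
    have hfd : ∀ z, fderiv ℝ (fun z => ϑ ((1 - Q) z)) z =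
        (fderiv ℝ (ϑ : E n → ℝ) ((1 - Q) z)).comp (1 - Q) := by
      intro z
      have h3 : HasFDerivAt (ϑ : E n → ℝ) (fderiv ℝ (ϑ : E n → ℝ) ((1 - Q) z)) ((1 - Q) z) :=
        (hϑ.differentiable (by norm_num) _).hasFDerivAt
      exact (h3.comp z (1 - Q).hasFDerivAt).fderiv
  · intro z
    rw [hfd]
    refine (ContinuousLinearMap.opNorm_comp_le _ _).trans ?_
    calc ‖fderiv ℝ (ϑ : E n → ℝ) ((1 - Q) z)‖ * ‖1 - Q‖ ≤ C * 1 :=
          mul_le_mul (hC _) hQ.perp_norm_le (norm_nonneg _) hC0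
      _ ≤ C + 1 := by linarith
  · intro z v
    rw [hfd, ContinuousLinearMap.comp_apply, hQ.perp_apply', map_zero]
  · intro z hz
    apply ϑ.one_of_mem_closedBall
    rw [mem_closedBall, dist_zero_right]
    exact hz
  · intro z hz
    apply ϑ.zero_of_le_dist
    rw [dist_zero_right]
    exact hz
  · intro z w
    show ϑ ((1 - Q) (z + Q w)) = ϑ ((1 - Q) z)
    rw [map_add, hQ.perp_apply', add_zero]

end Allard
end
end

section

section

/-!
# The Jacobian as a Gram determinant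
-/

noncomputable section

open MeasureTheory Metric Set Filter Topology

namespace AllardStm

open Allard (tr rk tp Pr)

variable {n m : ℕ}

theorem gram_eq (L : Op n) {T : Submodule ℝ (E n)} {e : Fin m → E n} (h : IsOnb e T) :
    gram L e = jac L T := by
  obtain ⟨h1, h2⟩ := h
  have hmem : ∀ i, e i ∈ T := fun i => by
    rw [← h2]
    exact Submodule.subset_span ⟨i, rfl⟩
  let v : Fin m → T := fun i => ⟨e i, hmem i⟩
  have hv : Orthonormal ℝ v := by
    have h3 := h1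
    rw [orthonormal_iff_ite] at h3 ⊢
    intro i j
    exact h3 i j
  have hspan : ⊤ ≤ Submodule.span ℝ (Set.range v) := by
    intro x _
    have hx : (x : E n) ∈ Submodule.span ℝ (Set.range e) := by
      rw [h2]
      exact x.2
    have h4 : Set.range e = T.subtype '' Set.range v := by
      rw [← Set.range_comp]
      rfl
    rw [h4, Submodule.span_image] at hx
    obtain ⟨y, hy, hyx⟩ := hx
    have h5 : y = x := Subtype.ext hyx
    rwa [← h5]
  let b : OrthonormalBasis (Fin m) ℝ T := OrthonormalBasis.mk hv hspan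
  have hb : ∀ i, ((b i : T) : E n) = e i := fun i => by
    show ((OrthonormalBasis.mk hv hspan i : T) : E n) = e i
    rw [OrthonormalBasis.coe_mk]
  unfold gram jac
  congr 1
  obtain ⟨K, hK⟩ : ∃ K : T →L[ℝ] T, K = (L.comp T.subtypeL).adjoint.comp (L.comp T.subtypeL) :=
    ⟨_, rfl⟩
  rw [← hK, ← LinearMap.det_toMatrix b.toBasis]
  congr 1
  ext i j
  rw [LinearMap.toMatrix_apply, Matrix.of_apply, OrthonormalBasis.coe_toBasis]
  have h6 : b.toBasis.repr ((K : T →ₗ[ℝ] T) (b j)) i = inner ℝ (b i) (K (b j)) := by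
    rw [OrthonormalBasis.coe_toBasis_repr_apply, OrthonormalBasis.repr_apply_apply]
    rfl
  rw [h6, hK, ContinuousLinearMap.comp_apply, ContinuousLinearMap.adjoint_inner_right]
  show inner ℝ (L (e i)) (L (e j)) = inner ℝ (L ((b i : T) : E n)) (L ((b j : T) : E n))
  rw [hb, hb]

theorem exists_onb {T : Submodule ℝ (E n)} (hT : Module.finrank ℝ T = m) :
    ∃ e : Fin m → E n, IsOnb e T := by
  subst hT
  let b := stdOrthonormalBasis ℝ T
  refine ⟨fun i => (b i : E n), ?_, ?_⟩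
  · have h3 := b.orthonormal
    rw [orthonormal_iff_ite] at h3 ⊢
    intro i j
    exact h3 i j
  · have h4 : Set.range (fun i => ((b i : T) : E n)) = T.subtype '' Set.range b := by
      rw [← Set.range_comp]
      rfl
    rw [h4, Submodule.span_image, ← OrthonormalBasis.coe_toBasis, Module.Basis.span_eq,
      Submodule.map_top, Submodule.range_subtype]

/-- The Jacobian of the statement is the one of the proof. -/
theorem jacobian_eq (L : Op n) {T : Submodule ℝ (E n)} (hT : Module.finrank ℝ T = m) :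
    jacobian m L T = jac L T := by
  unfold jacobian
  have h1 : {J | ∃ e : Fin m → E n, IsOnb e T ∧ J = gram L e} = {jac L T} := by
    ext J
    constructor
    · rintro ⟨e, he, rfl⟩
      exact gram_eq L he
    · intro hJ
      obtain ⟨e, he⟩ := exists_onb hT
      exact ⟨e, he, by rw [gram_eq L he]; exact hJ⟩
  rw [h1, csSup_singleton]

end AllardStm
end
end

section

/-!
# Measurability of the tangent plane
-/

noncomputable section

open MeasureTheory Metric Set Filter Topology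

namespace AllardStm

open Allard (tr rk tp Pr)

variable {n m : ℕ}

/-- The test function of the second moment. -/
def T2f (a c : E n) (v : E n) : ℝ := inner ℝ v a * inner ℝ v c * chi v

theorem T2f_cont (a c : E n) : Continuous (T2f a c) := by
  unfold T2f chi
  fun_prop

theorem T2f_supp (a c : E n) : HasCompactSupport (T2f a c) := by
  apply HasCompactSupport.of_support_subset_isCompact (isCompact_closedBall (0 : E n) 1)
  intro v hv
  rw [mem_closedBall_zero_iff]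
  by_contra hc
  push Not at hc
  apply hv
  unfold T2f chi
  rw [max_eq_left (by linarith), mul_zero]

theorem T2adj (ι : E m →ₗᵢ[ℝ] E n) {T : Submodule ℝ (E n)}
    (hT : LinearMap.range ι.toLinearMap = T) (a : E n) :
    ι (ContinuousLinearMap.adjoint ι.toContinuousLinearMap a) = proj T a := by
  symm
  unfold proj
  apply Submodule.eq_starProjection_of_mem_of_inner_eq_zero
  · rw [← hT]
    exact LinearMap.mem_range_self ι.toLinearMap _
  · intro w hw
    rw [← hT] at hw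
    obtain ⟨w', rfl⟩ := hw
    show inner ℝ (a - ι _) (ι w') = 0
    rw [inner_sub_left, ι.inner_map_map, ContinuousLinearMap.adjoint_inner_left]
    exact sub_self _

/-- Proof. For `a, c ∈ ℝⁿ` the function `φ v = ⟨v, a⟩ ⟨v, c⟩ χ(v)` is continuous with compact
support, and `∫ w, φ (ι w) = ∫ ⟨w, ι* a⟩ ⟨w, ι* c⟩ χ(w) = mom m * ⟨ι* a, ι* c⟩
= mom m * ⟨proj T a, c⟩` (`moment`, `ι ι* = proj T` because `range ι = T` and `ι* ι = 1`). -/
theorem tendsto_moment (hm : 1 ≤ m) {Γ : Set (E n)} {x : E n} {T : Submodule ℝ (E n)}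
    (h : IsTangent m Γ x T) (a c : E n) :
    Tendsto (fun r : ℝ => (r ^ m)⁻¹ * ∫ z in Γ,
        (fun v : E n => inner ℝ v a * inner ℝ v c * chi v) (r⁻¹ • (z - x)) ∂(haus n m)) (𝓝[>] 0)
      (𝓝 (mom m * inner ℝ (proj T a) c)) := by
  obtain ⟨ι, hT, hι⟩ := h.old
  have h1 := hι (T2f a c) (T2f_cont a c) (T2f_supp a c)
  have h2 : (∫ w : E m, T2f a c (ι w)) = mom m * inner ℝ (proj T a) c := by
    rw [← T2adj ι hT a]
    have h3 : inner ℝ (ι (ContinuousLinearMap.adjoint ι.toContinuousLinearMap a)) c =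
        inner ℝ (ContinuousLinearMap.adjoint ι.toContinuousLinearMap a)
          (ContinuousLinearMap.adjoint ι.toContinuousLinearMap c) := by
      rw [ContinuousLinearMap.adjoint_inner_right]
      rfl
    rw [h3, ← moment hm]
    congr 1
    ext w
    unfold T2f chi
    rw [ι.norm_map, ContinuousLinearMap.adjoint_inner_right,
      ContinuousLinearMap.adjoint_inner_right]
    rfl
  rw [h2] at h1
  exact h1

theorem T2meas {Γ : Set (E n)} [IsFiniteMeasure ((haus n m).restrict Γ)] (a c : E n) (r : ℝ) :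
    Measurable fun x : E n => ∫ z in Γ, T2f a c (r⁻¹ • (z - x)) ∂(haus n m) := by
  apply StronglyMeasurable.measurable
  apply MeasureTheory.StronglyMeasurable.integral_prod_right
    (f := fun x z : E n => T2f a c (r⁻¹ • (z - x)))
  apply Continuous.stronglyMeasurable
  exact (T2f_cont a c).comp (by fun_prop)

theorem T2entry (hm : 1 ≤ m) {Γ : Set (E n)} [IsFiniteMeasure ((haus n m).restrict Γ)]
    {T : E n → Submodule ℝ (E n)}
    (h : ∀ᵐ x ∂((haus n m).restrict Γ), IsTangent m Γ x (T x)) (a c : E n) :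
    AEMeasurable (fun x => (inner ℝ (proj (T x) a) c : ℝ)) ((haus n m).restrict Γ) := by
  apply aemeasurable_of_tendsto_metrizable_ae' (f := fun (k : ℕ) (x : E n) =>
    (mom m)⁻¹ * (((1 / ((k : ℝ) + 1)) ^ m)⁻¹ *
      ∫ z in Γ, T2f a c ((1 / ((k : ℝ) + 1))⁻¹ • (z - x)) ∂(haus n m)))
  · intro k
    exact (((T2meas a c _).const_mul _).const_mul _).aemeasurable
  · filter_upwards [h] with x hx
    have h1 := tendsto_moment hm hx a c
    have h2 : Tendsto (fun k : ℕ => 1 / ((k : ℝ) + 1)) atTop (𝓝[>] 0) := by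
      rw [tendsto_nhdsWithin_iff]
      refine ⟨tendsto_one_div_add_atTop_nhds_zero_nat, Eventually.of_forall fun k => ?_⟩
      show (0 : ℝ) < 1 / ((k : ℝ) + 1)
      positivity
    have h3 := (h1.comp h2).const_mul (mom m)⁻¹
    rw [← mul_assoc, inv_mul_cancel₀ (mom_pos hm).ne', one_mul] at h3
    exact h3

theorem T2sum (A : Op n) : A = ∑ i, ∑ j, (inner ℝ (A (EuclideanSpace.basisFun (Fin n) ℝ i))
      (EuclideanSpace.basisFun (Fin n) ℝ j) : ℝ) •
      rk (EuclideanSpace.basisFun (Fin n) ℝ j) (EuclideanSpace.basisFun (Fin n) ℝ i) := by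
  set b := EuclideanSpace.basisFun (Fin n) ℝ with hb
  ext1 v
  have h1 : ∀ w : E n, w = ∑ j, (inner ℝ w (b j) : ℝ) • b j := by
    intro w
    conv_lhs => rw [← b.sum_repr' w]
    refine Finset.sum_congr rfl fun j _ => ?_
    rw [real_inner_comm]
  conv_lhs => rw [h1 v]
  rw [map_sum, _root_.sum_apply]
  refine Finset.sum_congr rfl fun i _ => ?_
  rw [map_smul, _root_.sum_apply]
  conv_lhs => rw [h1 (A (b i)), Finset.smul_sum]
  refine Finset.sum_congr rfl fun j _ => ?_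
  rw [_root_.smul_apply]
  unfold rk
  rw [ContinuousLinearMap.smulRight_apply, innerSL_apply_apply, smul_smul, smul_smul,
    real_inner_comm v (b i), mul_comm]

/-- Proof. For each `a, c` the function `x ↦ ⟨proj (T x) a, c⟩` is a.e. the limit (along
`r = 1/(k+1)`) of the measurable functions `x ↦ (mom m)⁻¹ (r^m)⁻¹ ∫_Γ φ (r⁻¹ (z - x))` (measurable in
`x`: `StronglyMeasurable.integral_prod_right` with the finite measure `(haus n m).restrict Γ`), so it
is a.e. measurable (`aemeasurable_of_tendsto_metrizable_ae`).  Taking `a, c` in the standard basis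
gives measurability of `proj (T x)`: `A = ∑ i j, ⟨A e_i, e_j⟩ • rk e_j e_i`. -/
theorem aemeasurable_proj (hm : 1 ≤ m) {Γ : Set (E n)} [IsFiniteMeasure ((haus n m).restrict Γ)]
    {T : E n → Submodule ℝ (E n)}
    (h : ∀ᵐ x ∂((haus n m).restrict Γ), IsTangent m Γ x (T x)) :
    AEMeasurable (fun x => proj (T x)) ((haus n m).restrict Γ) := by
  have h1 : (fun x => proj (T x)) = fun x => ∑ i, ∑ j,
      (inner ℝ (proj (T x) (EuclideanSpace.basisFun (Fin n) ℝ i))
      (EuclideanSpace.basisFun (Fin n) ℝ j) : ℝ) •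
      rk (EuclideanSpace.basisFun (Fin n) ℝ j) (EuclideanSpace.basisFun (Fin n) ℝ i) := by
    ext1 x
    exact T2sum _
  rw [h1]
  apply Finset.aemeasurable_fun_sum
  intro i _
  apply Finset.aemeasurable_fun_sum
  intro j _
  exact (T2entry hm h _ _).smul_const _

end AllardStm
end
end

section

/-!
# Derivatives of an integrand
-/

noncomputable section

open MeasureTheory Metric Set Filter Topology

namespace AllardStm

open Allard (tr rk tp Pr)

variable {n m : ℕ}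

/-- The standing hypotheses on the integrand. -/
structure Hyp (m : ℕ) (δ : ℝ) (Ψ : Submodule ℝ (E n) → ℝ) : Prop where
  smooth : ∀ T : Submodule ℝ (E n), Module.finrank ℝ T = m → ContDiffAt ℝ 2 (orb Ψ T) 0
  close : CloseToArea m 2 δ Ψ

/-- Right multiplication. -/
def rmul (A : Op n) : Op n →L[ℝ] Op n :=
  (ContinuousLinearMap.compL ℝ (E n) (E n) (E n)).flip A

theorem rmul_apply (A N : Op n) : rmul A N = N * A := rfl

theorem norm_rmul_le (A : Op n) : ‖rmul A‖ ≤ ‖A‖ := by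
  refine ContinuousLinearMap.opNorm_le_bound _ (norm_nonneg _) fun N => ?_
  rw [rmul_apply, mul_comm]
  exact norm_mul_le N A

variable {δ : ℝ} {Ψ : Submodule ℝ (E n) → ℝ}

theorem Hyp.b0 (h : Hyp m δ Ψ) {T : Submodule ℝ (E n)} (hT : Module.finrank ℝ T = m) :
    |Ψ T - 1| ≤ δ := by
  have h1 : ‖iteratedFDeriv ℝ 0 (fun M => orb Ψ T M - 1) 0‖ ≤ δ := h.close T hT 0 (by norm_num)
  rw [norm_iteratedFDeriv_zero, orb_zero] at h1
  exact h1

theorem Hyp.b1 (h : Hyp m δ Ψ) {T : Submodule ℝ (E n)} (hT : Module.finrank ℝ T = m) :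
    ‖fderiv ℝ (orb Ψ T) 0‖ ≤ δ := by
  have h1 : ‖iteratedFDeriv ℝ 1 (fun M => orb Ψ T M - 1) 0‖ ≤ δ := h.close T hT 1 (by norm_num)
  rw [norm_iteratedFDeriv_one, fderiv_sub_const] at h1
  exact h1

theorem Hyp.b2 (h : Hyp m δ Ψ) {T : Submodule ℝ (E n)} (hT : Module.finrank ℝ T = m) :
    ‖iteratedFDeriv ℝ 2 (orb Ψ T) 0‖ ≤ δ := by
  have h1 : ‖iteratedFDeriv ℝ 2 (fun M => orb Ψ T M - 1) 0‖ ≤ δ := h.close T hT 2 le_rfl
  rw [norm_iter2_sub_const] at h1
  exact h1

theorem Hyp.nonneg (h : Hyp m δ Ψ) {T : Submodule ℝ (E n)} (hT : Module.finrank ℝ T = m) :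
    0 ≤ δ := (abs_nonneg _).trans (h.b0 hT)

theorem orb_comp (Ψ : Submodule ℝ (E n) → ℝ) (T : Submodule ℝ (E n)) {M A : Op n}
    (h : A * (1 + M) = 1) :
    orb Ψ T = fun M' => orb Ψ (img (1 + M) T) (rmul A (M' - M)) := by
  funext M'
  rw [rmul_apply, ← orb_add Ψ T h, add_sub_cancel]

theorem Hyp.contDiffAt (h : Hyp m δ Ψ) {T : Submodule ℝ (E n)} (hT : Module.finrank ℝ T = m)
    {M : Op n} (hM : ‖M‖ ≤ 1 / 2) : ContDiffAt ℝ 2 (orb Ψ T) M := by
  obtain ⟨A, hA, -, -⟩ := exists_inv hM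
  exact aff_contDiffAt (orb_comp Ψ T hA)
    (h.smooth (img (1 + M) T) ((finrank_img hA T).trans hT))

theorem Hyp.differentiableAt (h : Hyp m δ Ψ) {T : Submodule ℝ (E n)}
    (hT : Module.finrank ℝ T = m) {M : Op n} (hM : ‖M‖ ≤ 1 / 2) :
    DifferentiableAt ℝ (orb Ψ T) M :=
  (h.contDiffAt hT hM).differentiableAt (by norm_num)

theorem Hyp.fderiv_eq (h : Hyp m δ Ψ) {T : Submodule ℝ (E n)} (hT : Module.finrank ℝ T = m)
    {M A : Op n} (hA : A * (1 + M) = 1) :
    fderiv ℝ (orb Ψ T) M = (fderiv ℝ (orb Ψ (img (1 + M) T)) 0).comp (rmul A) :=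
  aff_fderiv (orb_comp Ψ T hA) (h.smooth (img (1 + M) T) ((finrank_img hA T).trans hT))

theorem Hyp.fderiv_img (h : Hyp m δ Ψ) {T : Submodule ℝ (E n)} (hT : Module.finrank ℝ T = m)
    {X : Op n} (hX : ‖X‖ ≤ 1 / 2) (L : Op n) :
    fderiv ℝ (orb Ψ (img (1 + X) T)) 0 L = fderiv ℝ (orb Ψ T) X (L * (1 + X)) := by
  obtain ⟨A, hA, hA', -⟩ := exists_inv hX
  rw [h.fderiv_eq hT hA, ContinuousLinearMap.comp_apply, rmul_apply, mul_assoc, hA', mul_one]

theorem Hyp.norm_fderiv (h : Hyp m δ Ψ) {T : Submodule ℝ (E n)} (hT : Module.finrank ℝ T = m)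
    {M : Op n} (hM : ‖M‖ ≤ 1 / 2) : ‖fderiv ℝ (orb Ψ T) M‖ ≤ 2 * δ := by
  obtain ⟨A, hA, -, hn⟩ := exists_inv hM
  have h0 := h.nonneg hT
  rw [h.fderiv_eq hT hA]
  have h1 := h.b1 ((finrank_img hA T).trans hT)
  have h2 := (norm_rmul_le A).trans hn
  calc _ ≤ ‖fderiv ℝ (orb Ψ (img (1 + M) T)) 0‖ * ‖rmul A‖ :=
        ContinuousLinearMap.opNorm_comp_le _ _
    _ ≤ δ * 2 := by gcongr
    _ = 2 * δ := mul_comm _ _

theorem Hyp.lip (h : Hyp m δ Ψ) {T : Submodule ℝ (E n)} (hT : Module.finrank ℝ T = m)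
    {M N : Op n} (hM : ‖M‖ ≤ 1 / 2) (hN : ‖N‖ ≤ 1 / 2) :
    |orb Ψ T M - orb Ψ T N| ≤ 2 * δ * ‖M - N‖ := by
  have h1 := (convex_closedBall (0 : Op n) (1 / 2)).norm_image_sub_le_of_norm_fderiv_le
    (𝕜 := ℝ) (f := orb Ψ T) (C := 2 * δ) (x := N) (y := M)
    (fun x hx => h.differentiableAt hT (by simpa using hx))
    (fun x hx => h.norm_fderiv hT (by simpa using hx)) (by simpa using hN) (by simpa using hM)
  exact h1

theorem Hyp.lip_fderiv (h : Hyp m δ Ψ) {T : Submodule ℝ (E n)} (hT : Module.finrank ℝ T = m)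
    {M N : Op n} (hM : ‖M‖ ≤ 1 / 2) (hN : ‖N‖ ≤ 1 / 2) :
    ‖fderiv ℝ (orb Ψ T) M - fderiv ℝ (orb Ψ T) N‖ ≤ 4 * δ * ‖M - N‖ := by
  refine aff_lip (ρ := 1 / 2) (fun K hK => ?_) hM hN
  obtain ⟨A, hA, -, hn⟩ := exists_inv hK
  have hd := (finrank_img hA T).trans hT
  exact ⟨_, rmul A, orb_comp Ψ T hA, h.smooth _ hd, (norm_rmul_le A).trans hn, h.b2 hd⟩

/-- `Ψ` is Lipschitz on planes. -/
theorem Hyp.lipΨ (h : Hyp m δ Ψ) {T T' : Submodule ℝ (E n)} (hT : Module.finrank ℝ T = m)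
    (hT' : Module.finrank ℝ T' = m) : |Ψ T - Ψ T'| ≤ 10 * δ * ‖proj T - proj T'‖ := by
  have h0 := h.nonneg hT
  by_cases hX : ‖proj T - proj T'‖ ≤ 1 / 2
  · have h1 := img_proj (hT'.trans hT.symm) hX
    have h2 := h.lip hT' hX (by rw [norm_zero]; norm_num : ‖(0 : Op n)‖ ≤ 1 / 2)
    rw [orb_zero, sub_zero] at h2
    have h3 : orb Ψ T' (proj T - proj T') = Ψ T := by
      unfold orb
      rw [h1]
    rw [h3] at h2
    nlinarith only [h0, h2, norm_nonneg (proj T - proj T')]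
  · have h1 := h.b0 hT
    have h2 := h.b0 hT'
    push Not at hX
    have h3 : |Ψ T - Ψ T'| ≤ 2 * δ := by
      have h4 : Ψ T - Ψ T' = (Ψ T - 1) - (Ψ T' - 1) := by ring
      rw [h4]
      calc _ ≤ |Ψ T - 1| + |Ψ T' - 1| := abs_sub _ _
        _ ≤ 2 * δ := by linarith
    nlinarith only [h0, hX, h3]

/-- The derivative of `Ψ` is Lipschitz on planes. -/
theorem Hyp.lipD (h : Hyp m δ Ψ) {T T' : Submodule ℝ (E n)} (hT : Module.finrank ℝ T = m)
    (hT' : Module.finrank ℝ T' = m) :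
    ‖fderiv ℝ (orb Ψ T) 0 - fderiv ℝ (orb Ψ T') 0‖ ≤ 10 * δ * ‖proj T - proj T'‖ := by
  have h0 := h.nonneg hT
  by_cases hX : ‖proj T - proj T'‖ ≤ 1 / 2
  · set X := proj T - proj T' with hXd
    have h1 : img (1 + X) T' = T := img_proj (hT'.trans hT.symm) hX
    have hXn := norm_nonneg X
    refine ContinuousLinearMap.opNorm_le_bound _ (by positivity) fun L => ?_
    have h2 : (fderiv ℝ (orb Ψ T) 0 - fderiv ℝ (orb Ψ T') 0) L
        = (fderiv ℝ (orb Ψ T') X - fderiv ℝ (orb Ψ T') 0) (L * (1 + X))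
          + fderiv ℝ (orb Ψ T') 0 (L * X) := by
      have h3 := h.fderiv_img hT' hX L
      rw [h1] at h3
      rw [ContinuousLinearMap.sub_apply, ContinuousLinearMap.sub_apply, h3]
      have h4 : L * X = L * (1 + X) - L := by rw [mul_add, mul_one]; abel
      rw [h4, map_sub]
      ring
    rw [h2]
    have h5 := h.lip_fderiv hT' hX (by rw [norm_zero]; norm_num : ‖(0 : Op n)‖ ≤ 1 / 2)
    rw [sub_zero] at h5
    have h6 : ‖L * (1 + X)‖ ≤ ‖L‖ * (3 / 2) := by
      refine (norm_mul_le _ _).trans ?_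
      gcongr
      have h7 : ‖(1 : Op n)‖ ≤ 1 := ContinuousLinearMap.norm_id_le
      exact (norm_add_le _ _).trans (by linarith)
    calc _ ≤ ‖(fderiv ℝ (orb Ψ T') X - fderiv ℝ (orb Ψ T') 0) (L * (1 + X))‖
          + ‖fderiv ℝ (orb Ψ T') 0 (L * X)‖ := norm_add_le _ _
      _ ≤ (4 * δ * ‖X‖) * (‖L‖ * (3 / 2)) + δ * (‖L‖ * ‖X‖) := by
          refine add_le_add ?_ ?_
          · refine (ContinuousLinearMap.le_opNorm _ _).trans ?_
            gcongr
          · refine (ContinuousLinearMap.le_opNorm _ _).trans ?_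
            have h8 := h.b1 hT'
            gcongr
            exact norm_mul_le _ _
      _ ≤ 10 * δ * ‖X‖ * ‖L‖ := by
          have h9 : 0 ≤ δ * ‖X‖ * ‖L‖ := by positivity
          linarith only [h9]
  · have h1 := h.b1 hT
    have h2 := h.b1 hT'
    push Not at hX
    have h3 : ‖fderiv ℝ (orb Ψ T) 0 - fderiv ℝ (orb Ψ T') 0‖ ≤ 2 * δ := by
      refine ContinuousLinearMap.opNorm_le_bound _ (by positivity) fun L => ?_
      have h4 : ‖fderiv ℝ (orb Ψ T) 0 L‖ ≤ ‖fderiv ℝ (orb Ψ T) 0‖ * ‖L‖ :=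
        ContinuousLinearMap.le_opNorm _ _
      have h5 : ‖fderiv ℝ (orb Ψ T') 0 L‖ ≤ ‖fderiv ℝ (orb Ψ T') 0‖ * ‖L‖ :=
        ContinuousLinearMap.le_opNorm _ _
      have h6 : ‖(fderiv ℝ (orb Ψ T) 0 - fderiv ℝ (orb Ψ T') 0) L‖
          ≤ ‖fderiv ℝ (orb Ψ T) 0 L‖ + ‖fderiv ℝ (orb Ψ T') 0 L‖ := norm_sub_le _ _
      have h7 := norm_nonneg L
      nlinarith only [h1, h2, h4, h5, h6, h7]
    nlinarith only [h0, hX, h3]

end AllardStm
end
end

section

/-!
# The derivative of the Jacobian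
-/

noncomputable section

open MeasureTheory Metric Set Filter Topology

namespace AllardStm

open Allard (tr rk tp Pr)

variable {n m : ℕ}

private theorem J3_curve (T : Submodule ℝ (E n)) (D : Op n) (t : ℝ) :
    (proj T * (tp (1 + t • D) * (1 + t • D)) * proj T + (1 - proj T) : Op n) =
      1 + t • (proj T * (D + tp D) * proj T) + t ^ 2 • (proj T * (tp D * D) * proj T) := by
  have h1 : tp (1 + t • D) = 1 + t • tp D := by
    rw [Allard.tp_add, Allard.tp_one, Allard.tp_smul]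
  rw [h1]
  refine ContinuousLinearMap.ext fun v => ?_
  have hi : proj T (proj T v) = proj T v := proj_eq_self.2 (proj_apply_mem T v)
  simp only [mul_apply_eq_comp, add_apply,
    smul_apply, one_apply_eq_self, sub_apply,
    map_add, map_smul, hi]
  module

private theorem J3_zero (K₁ K₂ : Op n) : (1 + (0 : ℝ) • K₁ + (0 : ℝ) ^ 2 • K₂ : Op n) = 1 := by
  refine ContinuousLinearMap.ext fun v => ?_
  simp only [add_apply, smul_apply]
  module

private theorem J3_sub (K₁ K₂ : Op n) (u w : ℝ) :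
    ((1 + u • K₁ + u ^ 2 • K₂) - (1 + w • K₁ + w ^ 2 • K₂) : Op n) =
      (u - w) • K₁ + ((u - w) * (u + w)) • K₂ := by
  refine ContinuousLinearMap.ext fun v => ?_
  simp only [add_apply, smul_apply,
    sub_apply]
  module

private theorem J3_jac (T : Submodule ℝ (E n)) (D : Op n) (t : ℝ) :
    jac (1 + t • D) T = Real.sqrt (ContinuousLinearMap.det
      (1 + t • (proj T * (D + tp D) * proj T) + t ^ 2 • (proj T * (tp D * D) * proj T) : Op n)) := by
  rw [jac_eq, J3_curve]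

private theorem J3_det_one : ContinuousLinearMap.det (1 : Op n) = 1 := by
  unfold ContinuousLinearMap.det
  exact LinearMap.det_id

/-- Proof. With `P = proj T`, `jac_eq` and `tp (1 + t D) * (1 + t D) = 1 + t (D + tp D) + t² tp D * D`
the Jacobian is `√(det (1 + t K₁ + t² K₂))`, `K₁ = P (D + tp D) P`, `K₂ = P (tp D * D) P`.
The determinant has derivative `tr K₁ = 2 tr (P D P) = 2 tr (P D)` at `t = 0` and the value `1`
there, and `√` has derivative `1/2` at `1`. -/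
theorem hasDerivAt_jac (T : Submodule ℝ (E n)) (D : Op n) :
    HasDerivAt (fun t : ℝ => jac (1 + t • D) T) (tr (proj T * D)) 0 := by
  obtain ⟨K₁, hK₁⟩ : ∃ K₁ : Op n, K₁ = proj T * (D + tp D) * proj T := ⟨_, rfl⟩
  obtain ⟨K₂, hK₂⟩ : ∃ K₂ : Op n, K₂ = proj T * (tp D * D) * proj T := ⟨_, rfl⟩
  have hfun : (fun t : ℝ => jac (1 + t • D) T) = fun t : ℝ =>
      Real.sqrt (ContinuousLinearMap.det (1 + t • K₁ + t ^ 2 • K₂ : Op n)) := by
    funext t
    rw [J3_jac, hK₁, hK₂]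
  rw [hfun]
  have hM0 : (1 + (0 : ℝ) • K₁ + (0 : ℝ) ^ 2 • K₂ : Op n) = 1 := J3_zero K₁ K₂
  have hM : HasDerivAt (fun t : ℝ => (1 + t • K₁ + t ^ 2 • K₂ : Op n)) K₁ 0 := by
    have h1 : HasDerivAt (fun t : ℝ => t • K₁) ((1 : ℝ) • K₁) 0 := (hasDerivAt_id 0).smul_const K₁
    have h2 : HasDerivAt (fun t : ℝ => t ^ 2 • K₂) (((2 : ℕ) * (0 : ℝ) ^ (2 - 1) * 1) • K₂) 0 :=
      ((hasDerivAt_id (0 : ℝ)).pow 2).smul_const K₂
    have h3 := (h1.const_add (1 : Op n)).add h2
    have e : (1 : ℝ) • K₁ + ((2 : ℕ) * (0 : ℝ) ^ (2 - 1) * 1) • K₂ = K₁ := by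
      refine ContinuousLinearMap.ext fun v => ?_
      simp only [add_apply, smul_apply]
      norm_num
    rw [e] at h3
    exact h3
  have hdet : HasFDerivAt (fun A : Op n => ContinuousLinearMap.det A)
      (fderiv ℝ (fun A : Op n => ContinuousLinearMap.det A) 1)
      (1 + (0 : ℝ) • K₁ + (0 : ℝ) ^ 2 • K₂ : Op n) := by
    rw [hM0]
    exact ((contDiff_det (n := n)).differentiable (by norm_num)).differentiableAt.hasFDerivAt
  have hcomp := hdet.comp_hasDerivAt (0 : ℝ) hM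
  rw [fderiv_det_one] at hcomp
  have htr : tr K₁ = 2 * tr (proj T * D) := by
    have h1 : tr K₁ = tr (proj T * (D + tp D)) := by
      rw [hK₁, Allard.tr_mul_comm, ← mul_assoc, proj_idem]
    have h2 : tr (proj T * tp D) = tr (proj T * D) := by
      have h3 : (proj T * tp D : Op n) = tp (D * proj T) := by
        rw [Allard.tp_mul, proj_symm]
      rw [h3, Allard.tr_tp, Allard.tr_mul_comm]
    rw [h1, mul_add, Allard.tr_add, h2]
    ring
  have hdet0 : ContinuousLinearMap.det (1 + (0 : ℝ) • K₁ + (0 : ℝ) ^ 2 • K₂ : Op n) = 1 := by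
    rw [hM0, J3_det_one]
  have hfin := HasDerivAt.sqrt hcomp (by
    simp only [Function.comp]
    rw [hdet0]
    exact one_ne_zero)
  simp only [Function.comp] at hfin
  rw [hdet0, Real.sqrt_one, mul_one, htr] at hfin
  have e2 : 2 * tr (proj T * D) / 2 = tr (proj T * D) := by ring
  rw [e2] at hfin
  exact hfin

/-- Proof. By `contDiff_det` the determinant is Lipschitz on the closed ball of radius `R` (compact
convex set, bounded derivative); the curve `t ↦ 1 + t K₁ + t² K₂` of the previous proof is Lipschitz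
on `[-1, 1]` with a constant that depends only on `κ`; for `|t| ≤ t₀` small the determinant lies in
`[1/2, 3/2]` and there `√` is Lipschitz. -/
theorem jac_lip (n : ℕ) (κ : ℝ) : ∃ t₀ : ℝ, 0 < t₀ ∧ ∃ c : ℝ, ∀ (T : Submodule ℝ (E n)) (D : Op n),
    ‖D‖ ≤ κ → ∀ s t : ℝ, |s| ≤ t₀ → |t| ≤ t₀ →
      |jac (1 + s • D) T - jac (1 + t • D) T| ≤ c * |s - t| := by
  -- the case of a negative bound is empty
  rcases lt_or_ge κ 0 with hκ | hκ
  · refine ⟨1, one_pos, 0, fun T D hD => ?_⟩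
    exact absurd (norm_nonneg D) (not_le.mpr (hD.trans_lt hκ))
  have hprop : ProperSpace (Op n) := FiniteDimensional.proper ℝ (Op n)
  -- a Lipschitz bound for the determinant
  obtain ⟨L, hL0, hL⟩ : ∃ L : ℝ, 0 ≤ L ∧ ∀ A ∈ closedBall (0 : Op n) (1 + 2 * κ + κ ^ 2),
      ‖fderiv ℝ (fun A : Op n => ContinuousLinearMap.det A) A‖ ≤ L := by
    have h1 : ContinuousOn (fun A : Op n => ‖fderiv ℝ (fun A : Op n =>
        ContinuousLinearMap.det A) A‖) (closedBall (0 : Op n) (1 + 2 * κ + κ ^ 2)) :=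
      ((contDiff_det (n := n)).continuous_fderiv (by norm_num)).norm.continuousOn
    obtain ⟨L, hL⟩ := (isCompact_closedBall (0 : Op n) (1 + 2 * κ + κ ^ 2)).bddAbove_image h1
    refine ⟨max L 0, le_max_right _ _, fun A hA => le_max_of_le_left ?_⟩
    exact hL ⟨A, hA, rfl⟩
  have hLip : ∀ A ∈ closedBall (0 : Op n) (1 + 2 * κ + κ ^ 2),
      ∀ B ∈ closedBall (0 : Op n) (1 + 2 * κ + κ ^ 2),
      |ContinuousLinearMap.det A - ContinuousLinearMap.det B| ≤ L * ‖A - B‖ := by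
    intro A hA B hB
    have h1 := Convex.norm_image_sub_le_of_norm_fderiv_le (𝕜 := ℝ)
      (f := fun A : Op n => ContinuousLinearMap.det A) (C := L)
      (fun x _ => ((contDiff_det (n := n)).differentiable (by norm_num)).differentiableAt)
      hL (convex_closedBall _ _) hB hA
    exact h1
  refine ⟨min 1 (1 / (2 * (L * (2 * κ + 2 * κ ^ 2) + 1))), ?_, L * (2 * κ + 2 * κ ^ 2), ?_⟩
  · refine lt_min one_pos ?_
    positivity
  intro T D hD s t hs ht
  obtain ⟨K₁, hK₁⟩ : ∃ K₁ : Op n, K₁ = proj T * (D + tp D) * proj T := ⟨_, rfl⟩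
  obtain ⟨K₂, hK₂⟩ : ∃ K₂ : Op n, K₂ = proj T * (tp D * D) * proj T := ⟨_, rfl⟩
  have hP := norm_proj_le T
  have hsand : ∀ X : Op n, ‖(proj T * X * proj T : Op n)‖ ≤ ‖X‖ := by
    intro X
    calc ‖(proj T * X * proj T : Op n)‖ ≤ ‖(proj T * X : Op n)‖ * ‖proj T‖ := norm_mul_le _ _
      _ ≤ (‖proj T‖ * ‖X‖) * ‖proj T‖ :=
          mul_le_mul_of_nonneg_right (norm_mul_le _ _) (norm_nonneg _)
      _ ≤ (1 * ‖X‖) * 1 := by
          refine mul_le_mul (mul_le_mul_of_nonneg_right hP (norm_nonneg _)) hP (norm_nonneg _) ?_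
          positivity
      _ = ‖X‖ := by ring
  have hn1 : ‖K₁‖ ≤ 2 * κ := by
    rw [hK₁]
    refine (hsand _).trans ((norm_add_le _ _).trans ?_)
    rw [Allard.norm_tp]
    linarith
  have hn2 : ‖K₂‖ ≤ κ ^ 2 := by
    rw [hK₂]
    refine (hsand _).trans ((norm_mul_le _ _).trans ?_)
    rw [Allard.norm_tp, pow_two]
    exact mul_le_mul hD hD (norm_nonneg _) hκ
  have hone : ‖(1 : Op n)‖ ≤ 1 := ContinuousLinearMap.norm_id_le
  have hs1 : |s| ≤ 1 := hs.trans (min_le_left _ _)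
  have ht1 : |t| ≤ 1 := ht.trans (min_le_left _ _)
  have hball : ∀ u : ℝ, |u| ≤ 1 →
      (1 + u • K₁ + u ^ 2 • K₂ : Op n) ∈ closedBall (0 : Op n) (1 + 2 * κ + κ ^ 2) := by
    intro u hu
    rw [mem_closedBall_zero_iff]
    have h1 : ‖u • K₁‖ ≤ 2 * κ := by
      rw [norm_smul, Real.norm_eq_abs]
      calc |u| * ‖K₁‖ ≤ 1 * (2 * κ) := mul_le_mul hu hn1 (norm_nonneg _) zero_le_one
        _ = 2 * κ := one_mul _
    have h2 : ‖u ^ 2 • K₂‖ ≤ κ ^ 2 := by
      rw [norm_smul, Real.norm_eq_abs, abs_pow]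
      calc |u| ^ 2 * ‖K₂‖ ≤ 1 * κ ^ 2 :=
            mul_le_mul (pow_le_one₀ (abs_nonneg _) hu) hn2 (norm_nonneg _) zero_le_one
        _ = κ ^ 2 := one_mul _
    calc ‖(1 + u • K₁ + u ^ 2 • K₂ : Op n)‖ ≤ ‖(1 + u • K₁ : Op n)‖ + ‖u ^ 2 • K₂‖ :=
          norm_add_le _ _
      _ ≤ (‖(1 : Op n)‖ + ‖u • K₁‖) + ‖u ^ 2 • K₂‖ := by
          have := norm_add_le (1 : Op n) (u • K₁)
          linarith
      _ ≤ 1 + 2 * κ + κ ^ 2 := by linarith
  have hdiff : ∀ u w : ℝ, |u| ≤ 1 → |w| ≤ 1 →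
      ‖((1 + u • K₁ + u ^ 2 • K₂) - (1 + w • K₁ + w ^ 2 • K₂) : Op n)‖ ≤
        (2 * κ + 2 * κ ^ 2) * |u - w| := by
    intro u w hu hw
    have e1 : ((1 + u • K₁ + u ^ 2 • K₂) - (1 + w • K₁ + w ^ 2 • K₂) : Op n) =
        (u - w) • K₁ + ((u - w) * (u + w)) • K₂ := J3_sub K₁ K₂ u w
    rw [e1]
    have h1 : ‖(u - w) • K₁‖ ≤ |u - w| * (2 * κ) := by
      rw [norm_smul, Real.norm_eq_abs]
      exact mul_le_mul_of_nonneg_left hn1 (abs_nonneg _)
    have h2 : ‖((u - w) * (u + w)) • K₂‖ ≤ |u - w| * 2 * κ ^ 2 := by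
      rw [norm_smul, Real.norm_eq_abs, abs_mul]
      have h3 : |u + w| ≤ 2 := (abs_add_le u w).trans (by linarith)
      exact mul_le_mul (mul_le_mul_of_nonneg_left h3 (abs_nonneg _)) hn2 (norm_nonneg _)
        (by positivity)
    calc ‖(u - w) • K₁ + ((u - w) * (u + w)) • K₂‖ ≤ _ := norm_add_le _ _
      _ ≤ |u - w| * (2 * κ) + |u - w| * 2 * κ ^ 2 := add_le_add h1 h2
      _ = (2 * κ + 2 * κ ^ 2) * |u - w| := by ring
  have hD2 : ∀ u w : ℝ, |u| ≤ 1 → |w| ≤ 1 →
      |ContinuousLinearMap.det (1 + u • K₁ + u ^ 2 • K₂ : Op n) -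
        ContinuousLinearMap.det (1 + w • K₁ + w ^ 2 • K₂ : Op n)| ≤
        L * (2 * κ + 2 * κ ^ 2) * |u - w| := by
    intro u w hu hw
    refine (hLip _ (hball u hu) _ (hball w hw)).trans ?_
    rw [mul_assoc]
    exact mul_le_mul_of_nonneg_left (hdiff u w hu hw) hL0
  have hhalf : ∀ u : ℝ, |u| ≤ min 1 (1 / (2 * (L * (2 * κ + 2 * κ ^ 2) + 1))) →
      1 / 2 ≤ ContinuousLinearMap.det (1 + u • K₁ + u ^ 2 • K₂ : Op n) := by
    intro u hu
    have hu1 : |u| ≤ 1 := hu.trans (min_le_left _ _)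
    have hu2 : |u| ≤ 1 / (2 * (L * (2 * κ + 2 * κ ^ 2) + 1)) := hu.trans (min_le_right _ _)
    have h1 := hD2 u 0 hu1 (by norm_num)
    have e1 : (1 + (0 : ℝ) • K₁ + (0 : ℝ) ^ 2 • K₂ : Op n) = 1 := J3_zero K₁ K₂
    rw [e1, J3_det_one, sub_zero] at h1
    have hc0 : 0 ≤ L * (2 * κ + 2 * κ ^ 2) := by positivity
    have h2 : L * (2 * κ + 2 * κ ^ 2) * |u| ≤ 1 / 2 := by
      calc L * (2 * κ + 2 * κ ^ 2) * |u| ≤
            L * (2 * κ + 2 * κ ^ 2) * (1 / (2 * (L * (2 * κ + 2 * κ ^ 2) + 1))) :=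
              mul_le_mul_of_nonneg_left hu2 hc0
        _ ≤ 1 / 2 := by
            rw [mul_one_div, div_le_iff₀ (by positivity)]
            nlinarith
    have h3 := (abs_le.1 (h1.trans h2)).1
    linarith
  have hsq : ∀ a b : ℝ, 1 / 2 ≤ a → 1 / 2 ≤ b → |Real.sqrt a - Real.sqrt b| ≤ |a - b| := by
    intro a b ha hb
    have h1 : 1 / 2 ≤ Real.sqrt a := Real.le_sqrt_of_sq_le (by linarith)
    have h2 : 1 / 2 ≤ Real.sqrt b := Real.le_sqrt_of_sq_le (by linarith)
    have h3 : a - b = (Real.sqrt a - Real.sqrt b) * (Real.sqrt a + Real.sqrt b) := by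
      have ea := Real.mul_self_sqrt (show 0 ≤ a by linarith)
      have eb := Real.mul_self_sqrt (show 0 ≤ b by linarith)
      linear_combination -ea + eb
    rw [h3, abs_mul]
    refine le_mul_of_one_le_right (abs_nonneg _) ?_
    rw [abs_of_nonneg (by linarith)]
    linarith
  rw [J3_jac, J3_jac, ← hK₁, ← hK₂]
  exact (hsq _ _ (hhalf s hs) (hhalf t ht)).trans (hD2 s t hs1 ht1)

end AllardStm
end
end

section

/-!
# The stress of an integrand
-/

noncomputable section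

open MeasureTheory Metric Set Filter Topology

namespace AllardStm

open Allard (tr rk tp Pr Stress)

variable {n m : ℕ} {δ : ℝ} {Ψ : Submodule ℝ (E n) → ℝ}

/-- The derivative of `Ψ` at `T` only sees `L P`. -/
theorem Hyp.fderiv_mul_proj (h : Hyp m δ Ψ) {T : Submodule ℝ (E n)}
    (hT : Module.finrank ℝ T = m) (L : Op n) :
    fderiv ℝ (orb Ψ T) 0 (L * proj T) = fderiv ℝ (orb Ψ T) 0 L := by
  have h1 : DifferentiableAt ℝ (orb Ψ T) 0 := (h.smooth T hT).differentiableAt (by norm_num)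
  have h2 : HasFDerivAt (orb Ψ T) (fderiv ℝ (orb Ψ T) 0) (rmul (proj T) 0) := by
    rw [map_zero]
    exact h1.hasFDerivAt
  have h3 := (h2.comp (0 : Op n) (rmul (proj T)).hasFDerivAt).fderiv
  have h4 : orb Ψ T ∘ (rmul (proj T)) = orb Ψ T := by
    funext M
    exact orb_mul_proj Ψ T M
  rw [h4] at h3
  conv_rhs => rw [h3]
  rfl

theorem smul_conj (s : ℝ) (P L : Op n) : s • (P * L * P) = P * (s • L) * P := by
  ext1 v
  show s • P (L (P v)) = P (s • L (P v))
  rw [map_smul]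

theorem Hyp.fderiv_proj_mul_proj (h : Hyp m δ Ψ) {T : Submodule ℝ (E n)}
    (hT : Module.finrank ℝ T = m) (L : Op n) :
    fderiv ℝ (orb Ψ T) 0 (proj T * L * proj T) = 0 := by
  have h1 : DifferentiableAt ℝ (orb Ψ T) 0 := (h.smooth T hT).differentiableAt (by norm_num)
  have hρ : 0 < 1 / (2 * (‖L‖ + 1)) := by positivity
  refine fderiv_eq_zero_of_line h1 (c := Ψ T) hρ fun s hs => ?_
  rw [smul_conj]
  refine orb_proj_mul_proj Ψ T ?_
  rw [norm_smul, Real.norm_eq_abs]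
  have h2 := norm_nonneg L
  calc |s| * ‖L‖ ≤ 1 / (2 * (‖L‖ + 1)) * (‖L‖ + 1) := by
        gcongr
        linarith
    _ = 1 / 2 := by field_simp

/-- The form of the tensor `C`. -/
theorem Hyp.rep_form (h : Hyp m δ Ψ) {T : Submodule ℝ (E n)} (hT : Module.finrank ℝ T = m) :
    rep (fderiv ℝ (orb Ψ T) 0)
      = proj T * rep (fderiv ℝ (orb Ψ T) 0) * (1 - proj T) := by
  set ℓ := fderiv ℝ (orb Ψ T) 0 with hℓ
  set P := proj T with hP
  ext1 u
  refine ext_inner_left ℝ fun w => ?_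
  have h1 : inner ℝ w ((P * rep ℓ * (1 - P)) u) = ℓ (rk ((1 - P) u) (P w)) := by
    show inner ℝ w (P (rep ℓ ((1 - P) u))) = _
    rw [← inner_rep, ← Allard.inner_tp, hP, proj_symm]
  rw [h1, inner_rep]
  have h2 : ℓ (rk u w) = ℓ (rk u (P w)) := by
    rw [hℓ, ← h.fderiv_mul_proj hT (rk u w), rk_mul, proj_symm]
  have h3 : rk u (P w) = P * rk u w * P + rk ((1 - P) u) (P w) := by
    rw [mul_rk, rk_mul, hP, proj_symm, ← rk_add_left]
    congr 1
    show u = proj T u + (u - proj T u)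
    abel
  rw [h2, h3, map_add, hℓ, h.fderiv_proj_mul_proj hT, zero_add]

/-- The stress of an integrand close to area. -/
theorem Hyp.exists_stress (h : Hyp m δ Ψ) (hδ : 0 ≤ δ) :
    ∃ S : Stress n m (10 * δ), ∀ T : Submodule ℝ (E n), Module.finrank ℝ T = m →
      S.ψ (proj T) = Ψ T ∧ S.C (proj T) = rep (fderiv ℝ (orb Ψ T) 0) := by
  classical
  set s : Set (Op n) := {P | Pr n m P} with hs
  set ψ₀ : Op n → ℝ := fun P => Ψ (LinearMap.range (P : E n →ₗ[ℝ] E n)) with hψ₀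
  set C₀ : Op n → Op n :=
    fun P => rep (fderiv ℝ (orb Ψ (LinearMap.range (P : E n →ₗ[ℝ] E n))) 0) with hC₀
  have e1 : ∀ T : Submodule ℝ (E n), ψ₀ (proj T) = Ψ T := fun T => by
    rw [hψ₀]
    simp only [proj_range]
  have e2 : ∀ T : Submodule ℝ (E n), C₀ (proj T) = rep (fderiv ℝ (orb Ψ T) 0) := fun T => by
    rw [hC₀]
    simp only [proj_range]
  have l1 : ∀ P ∈ s, ∀ Q ∈ s, |ψ₀ P - ψ₀ Q| ≤ 10 * δ * ‖P - Q‖ := by
    intro P hP Q hQ
    obtain ⟨T, hT, rfl⟩ := exists_of_pr hP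
    obtain ⟨T', hT', rfl⟩ := exists_of_pr hQ
    rw [e1, e1]
    exact h.lipΨ hT hT'
  have l2 : ∀ P ∈ s, ∀ Q ∈ s, ‖C₀ P - C₀ Q‖ ≤ 10 * δ * ‖P - Q‖ := by
    intro P hP Q hQ
    obtain ⟨T, hT, rfl⟩ := exists_of_pr hP
    obtain ⟨T', hT', rfl⟩ := exists_of_pr hQ
    rw [e2, e2, rep_sub]
    exact (norm_rep_le _).trans (h.lipD hT hT')
  have k1 : LipschitzOnWith (Real.toNNReal (10 * δ)) ψ₀ s := by
    refine LipschitzOnWith.of_dist_le_mul fun P hP Q hQ => ?_
    rw [Real.coe_toNNReal _ (by positivity), Real.dist_eq, dist_eq_norm]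
    exact l1 P hP Q hQ
  have k2 : LipschitzOnWith (Real.toNNReal (10 * δ)) C₀ s := by
    refine LipschitzOnWith.of_dist_le_mul fun P hP Q hQ => ?_
    rw [Real.coe_toNNReal _ (by positivity), dist_eq_norm, dist_eq_norm]
    exact l2 P hP Q hQ
  obtain ⟨ψ, hψ, eψ⟩ := k1.extend_real
  obtain ⟨C, hC, eC⟩ := k2.extend_finite_dimension
  refine ⟨{ ψ := ψ, C := C, cψ := hψ.continuous, cC := hC.continuous,
            bψ := ?_, bC := ?_, form := ?_, lψ := ?_, lC := ?_ }, ?_⟩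
  · intro P hP
    rw [← eψ hP]
    obtain ⟨T, hT, rfl⟩ := exists_of_pr hP
    rw [e1]
    linarith [h.b0 hT]
  · intro P hP
    rw [← eC hP]
    obtain ⟨T, hT, rfl⟩ := exists_of_pr hP
    rw [e2]
    linarith [norm_rep_le (fderiv ℝ (orb Ψ T) 0), h.b1 hT]
  · intro P hP
    rw [← eC hP]
    obtain ⟨T, hT, rfl⟩ := exists_of_pr hP
    rw [e2]
    exact h.rep_form hT
  · intro P Q hP hQ
    rw [← eψ hP, ← eψ hQ]
    exact l1 P hP Q hQ
  · intro P Q hP hQ
    rw [← eC hP, ← eC hQ]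
    exact l2 P hP Q hQ
  · intro T hT
    have hp : proj T ∈ s := pr_proj hT
    exact ⟨(eψ hp).symm.trans (e1 T), (eC hp).symm.trans (e2 T)⟩

end AllardStm
end
end

section

/-!
# Measurability of the integrand of the energy
-/

noncomputable section

open MeasureTheory Metric Set Filter Topology

namespace AllardStm

open Allard (tr rk tp Pr Stress)

variable {n m : ℕ} {δ : ℝ} {Ψ : Submodule ℝ (E n) → ℝ}

theorem Hyp.orb_near (h : Hyp m δ Ψ) {T : Submodule ℝ (E n)} (hT : Module.finrank ℝ T = m)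
    {M : Op n} (hM : ‖M‖ ≤ 1 / 2) : |orb Ψ T M - 1| ≤ δ := by
  obtain ⟨A, hA, -, -⟩ := exists_inv hM
  exact h.b0 ((finrank_img hA T).trans hT)

theorem Hyp.orb_lip2 (h : Hyp m δ Ψ) {T T' : Submodule ℝ (E n)} (hT : Module.finrank ℝ T = m)
    (hT' : Module.finrank ℝ T' = m) {M M' : Op n} (hM : ‖M‖ ≤ 1 / 8) (hM' : ‖M'‖ ≤ 1 / 8) :
    |orb Ψ T M - orb Ψ T' M'| ≤ 10 * δ * (‖proj T - proj T'‖ + ‖M - M'‖) := by
  have h0 := h.nonneg hT
  have h1 := h.lip hT (M := M) (N := M') (by linarith) (by linarith)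
  have h2 : |orb Ψ T M' - orb Ψ T' M'| ≤ 8 * δ * ‖proj T - proj T'‖ := by
    by_cases hX : ‖proj T - proj T'‖ ≤ 1 / 4
    · set X := proj T - proj T' with hXd
      have h3 : img (1 + X) T' = T := img_proj (hT'.trans hT.symm) (by linarith)
      have h4 : orb Ψ T M' = orb Ψ T' (X + M' * (1 + X)) := by
        conv_lhs => rw [← h3]
        unfold orb
        rw [← img_mul]
        congr 1
        rw [add_mul, one_mul, add_assoc]
      have h5 : ‖M' * X‖ ≤ 1 / 8 * ‖X‖ := by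
        refine (norm_mul_le _ _).trans ?_
        gcongr
      have h6 : X + M' * (1 + X) = M' + (X + M' * X) := by
        rw [mul_add, mul_one]
        abel
      have h7 : ‖X + M' * X‖ ≤ 9 / 8 * ‖X‖ := by
        refine (norm_add_le _ _).trans ?_
        linarith
      have h8 : ‖M' + (X + M' * X)‖ ≤ 1 / 2 := by
        refine (norm_add_le _ _).trans ?_
        linarith
      rw [h4, h6]
      have h9 := h.lip hT' h8 (N := M') (by linarith)
      rw [add_sub_cancel_left] at h9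
      have h10 := norm_nonneg X
      nlinarith
    · push Not at hX
      have h3 := h.orb_near hT (M := M') (by linarith)
      have h4 := h.orb_near hT' (M := M') (by linarith)
      have h5 : |orb Ψ T M' - orb Ψ T' M'| ≤ 2 * δ := by
        have h6 : orb Ψ T M' - orb Ψ T' M' = (orb Ψ T M' - 1) - (orb Ψ T' M' - 1) := by ring
        rw [h6]
        exact (abs_sub _ _).trans (by linarith)
      nlinarith
  have h3 : orb Ψ T M - orb Ψ T' M' = (orb Ψ T M - orb Ψ T M') + (orb Ψ T M' - orb Ψ T' M') := by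
    ring
  rw [h3]
  refine (abs_add_le _ _).trans ?_
  have h4 := norm_nonneg (proj T - proj T')
  have h5 := norm_nonneg (M - M')
  nlinarith

theorem Hyp.measurable_orb (h : Hyp m δ Ψ) {α : Type*} [MeasurableSpace α] {μ : Measure α}
    {T : α → Submodule ℝ (E n)} {M : α → Op n} (hT : ∀ᵐ x ∂μ, Module.finrank ℝ (T x) = m)
    (hP : AEStronglyMeasurable (fun x => proj (T x)) μ) (hM : AEStronglyMeasurable M μ)
    (hM' : ∀ x, ‖M x‖ ≤ 1 / 8) (hδ : 0 ≤ δ) :
    AEStronglyMeasurable (fun x => orb Ψ (T x) (M x)) μ := by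
  set s : Set (Op n × Op n) := {q | Pr n m q.1 ∧ ‖q.2‖ ≤ 1 / 8} with hs
  set G : Op n × Op n → ℝ :=
    fun q => orb Ψ (LinearMap.range (q.1 : E n →ₗ[ℝ] E n)) q.2 with hG
  have e1 : ∀ (T : Submodule ℝ (E n)) (M : Op n), G (proj T, M) = orb Ψ T M := fun T M => by
    rw [hG]
    simp only [proj_range]
  have k1 : LipschitzOnWith (Real.toNNReal (20 * δ)) G s := by
    refine LipschitzOnWith.of_dist_le_mul fun P hP Q hQ => ?_
    rw [Real.coe_toNNReal _ (by positivity), Real.dist_eq]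
    obtain ⟨P1, P2⟩ := P
    obtain ⟨Q1, Q2⟩ := Q
    obtain ⟨hP1, hP2⟩ := hP
    obtain ⟨hQ1, hQ2⟩ := hQ
    dsimp only at hP1 hP2 hQ1 hQ2
    obtain ⟨T, hT, rfl⟩ := exists_of_pr hP1
    obtain ⟨T', hT', rfl⟩ := exists_of_pr hQ1
    rw [e1, e1]
    have h1 := h.orb_lip2 hT hT' hP2 hQ2
    have h2 : ‖proj T - proj T'‖ ≤ dist (proj T, P2) (proj T', Q2) := by
      rw [← dist_eq_norm]
      exact le_max_left _ _
    have h3 : ‖P2 - Q2‖ ≤ dist (proj T, P2) (proj T', Q2) := by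
      rw [← dist_eq_norm]
      exact le_max_right _ _
    nlinarith
  obtain ⟨g, hg, eg⟩ := k1.extend_real
  have h1 : AEStronglyMeasurable (fun x => g (proj (T x), M x)) μ :=
    hg.continuous.comp_aestronglyMeasurable (hP.prodMk hM)
  refine h1.congr ?_
  filter_upwards [hT] with x hx
  have h2 : (proj (T x), M x) ∈ s := ⟨pr_proj hx, hM' x⟩
  exact (eg h2).symm.trans (e1 _ _)

end AllardStm
end
end

section

/-!
# The first variation formula
-/

noncomputable section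

open MeasureTheory Metric Set Filter Topology

namespace AllardStm

open Allard (tr rk tp Pr Stress)

variable {n m : ℕ} {δ : ℝ} {Ψ : Submodule ℝ (E n) → ℝ}

/-- The pointwise integrand of the energy of `id + t g`. -/
def enF (Ψ : Submodule ℝ (E n) → ℝ) (T : Submodule ℝ (E n)) (D : Op n) (t : ℝ) : ℝ :=
  orb Ψ T (t • D) * jac (1 + t • D) T

/-- The pointwise integrand of the first variation. -/
def fvF (Ψ : Submodule ℝ (E n) → ℝ) (T : Submodule ℝ (E n)) (D : Op n) : ℝ :=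
  fderiv ℝ (orb Ψ T) 0 D + Ψ T * tr (proj T * D)

theorem Hyp.hasDerivAt_enF (h : Hyp m δ Ψ) {T : Submodule ℝ (E n)}
    (hT : Module.finrank ℝ T = m) (D : Op n) : HasDerivAt (enF Ψ T D) (fvF Ψ T D) 0 := by
  have h1 : DifferentiableAt ℝ (orb Ψ T) 0 := (h.smooth T hT).differentiableAt (by norm_num)
  have e0 : (0 : ℝ) • D = 0 := by
    ext1 v
    rw [ContinuousLinearMap.smul_apply, zero_smul]
    rfl
  have h6 : HasDerivAt (fun s : ℝ => orb Ψ T (s • D)) (fderiv ℝ (orb Ψ T) 0 D) 0 :=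
    hasDerivAt_line h1 D
  have h7 := h6.mul (hasDerivAt_jac T D)
  have h8 : fderiv ℝ (orb Ψ T) 0 D * jac (1 + (0 : ℝ) • D) T
      + orb Ψ T ((0 : ℝ) • D) * tr (proj T * D) = fvF Ψ T D := by
    unfold fvF
    rw [e0, add_zero, jac_one, mul_one, orb_zero]
  rw [h8] at h7
  exact h7

/-- Uniform Lipschitz bound. -/
theorem enF_lip (n : ℕ) {κ δ : ℝ} (hκ : 0 ≤ κ) (hδ : 0 ≤ δ) : ∃ t₀ : ℝ, 0 < t₀ ∧
    t₀ * κ ≤ 1 / 8 ∧ ∃ c : ℝ, 0 ≤ c ∧
    ∀ (m : ℕ) (Ψ : Submodule ℝ (E n) → ℝ), Hyp m δ Ψ →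
    ∀ (T : Submodule ℝ (E n)) (D : Op n), Module.finrank ℝ T = m → ‖D‖ ≤ κ →
      ∀ s t : ℝ, |s| ≤ t₀ → |t| ≤ t₀ → |enF Ψ T D s - enF Ψ T D t| ≤ c * |s - t| := by
  obtain ⟨t₁, ht₁, c₁, hc₁⟩ := jac_lip n κ
  have hκ1 : 0 < 1 / (8 * (κ + 1)) := by positivity
  refine ⟨min t₁ (1 / (8 * (κ + 1))), lt_min ht₁ hκ1, ?_, (2 * δ * κ) * (1 + |c₁| * t₁)
    + (1 + δ) * |c₁|, by positivity, ?_⟩
  · calc min t₁ (1 / (8 * (κ + 1))) * κ ≤ 1 / (8 * (κ + 1)) * (κ + 1) := by
          gcongr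
          · exact min_le_right _ _
          · linarith
      _ = 1 / 8 := by field_simp
  · intro m Ψ h T D hT hD s t hs ht
    have hs1 : |s| ≤ t₁ := hs.trans (min_le_left _ _)
    have ht1 : |t| ≤ t₁ := ht.trans (min_le_left _ _)
    have key : ∀ r : ℝ, |r| ≤ min t₁ (1 / (8 * (κ + 1))) → ‖r • D‖ ≤ 1 / 2 := by
      intro r hr
      rw [norm_smul, Real.norm_eq_abs]
      calc |r| * ‖D‖ ≤ 1 / (8 * (κ + 1)) * (κ + 1) := by
            gcongr
            · exact hr.trans (min_le_right _ _)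
            · linarith
        _ ≤ 1 / 2 := by
            rw [div_mul_eq_mul_div, one_mul, div_le_iff₀ (by positivity)]
            nlinarith
    have h1 := h.lip hT (key s hs) (key t ht)
    have h2 := hc₁ T D hD s t hs1 ht1
    have h3 := hc₁ T D hD s 0 hs1 (by rw [abs_zero]; exact ht₁.le)
    have e0 : (0 : ℝ) • D = 0 := by
      ext1 v
      rw [ContinuousLinearMap.smul_apply, zero_smul]
      rfl
    rw [e0, add_zero, jac_one, sub_zero] at h3
    have h4 := h.orb_near hT (key t ht)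
    have h5 : |jac (1 + s • D) T| ≤ 1 + |c₁| * t₁ := by
      have h6 : |jac (1 + s • D) T - 1| ≤ |c₁| * t₁ := by
        refine h3.trans ?_
        calc c₁ * |s| ≤ |c₁| * |s| := by gcongr; exact le_abs_self _
          _ ≤ |c₁| * t₁ := by gcongr
      have h7 := abs_le.1 h6
      rw [abs_le]
      have h8 : 0 ≤ |c₁| * t₁ := by positivity
      constructor <;> linarith
    have h6 : |orb Ψ T (t • D)| ≤ 1 + δ := by
      have h7 := abs_le.1 h4
      rw [abs_le]
      constructor <;> linarith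
    have h7 : s • D - t • D = (s - t) • D := by
      ext1 v
      show s • D v - t • D v = (s - t) • D v
      rw [sub_smul]
    have h8 : |orb Ψ T (s • D) - orb Ψ T (t • D)| ≤ 2 * δ * κ * |s - t| := by
      refine h1.trans ?_
      rw [h7, norm_smul, Real.norm_eq_abs]
      have h9 := abs_nonneg (s - t)
      calc 2 * δ * (|s - t| * ‖D‖) ≤ 2 * δ * (|s - t| * κ) := by gcongr
        _ = 2 * δ * κ * |s - t| := by ring
    have h9 : |jac (1 + s • D) T - jac (1 + t • D) T| ≤ |c₁| * |s - t| := by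
      refine h2.trans ?_
      gcongr
      exact le_abs_self _
    have h10 : enF Ψ T D s - enF Ψ T D t
        = (orb Ψ T (s • D) - orb Ψ T (t • D)) * jac (1 + s • D) T
          + orb Ψ T (t • D) * (jac (1 + s • D) T - jac (1 + t • D) T) := by
      unfold enF
      ring
    rw [h10]
    calc _ ≤ |(orb Ψ T (s • D) - orb Ψ T (t • D)) * jac (1 + s • D) T|
          + |orb Ψ T (t • D) * (jac (1 + s • D) T - jac (1 + t • D) T)| := abs_add_le _ _
      _ = |orb Ψ T (s • D) - orb Ψ T (t • D)| * |jac (1 + s • D) T|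
          + |orb Ψ T (t • D)| * |jac (1 + s • D) T - jac (1 + t • D) T| := by
            rw [abs_mul, abs_mul]
      _ ≤ (2 * δ * κ * |s - t|) * (1 + |c₁| * t₁) + (1 + δ) * (|c₁| * |s - t|) := by
            gcongr
      _ = _ := by ring

/-- The first variation formula. -/
theorem Hyp.hasDerivAt_energy (h : Hyp m δ Ψ) (hδ : 0 ≤ δ) {μ : Measure (E n)}
    [IsFiniteMeasure μ] {T : E n → Submodule ℝ (E n)}
    (hT : ∀ᵐ x ∂μ, Module.finrank ℝ (T x) = m)
    (hP : AEStronglyMeasurable (fun x => proj (T x)) μ) {g : E n → E n}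
    (hg : ContDiff ℝ 1 g) (hc : HasCompactSupport g) :
    HasDerivAt (fun t : ℝ => ∫ x, Ψ (img (fderiv ℝ (fun x => x + t • g x) x) (T x))
        * jac (fderiv ℝ (fun x => x + t • g x) x) (T x) ∂μ)
      (∫ x, fvF Ψ (T x) (fderiv ℝ g x) ∂μ) 0 := by
  have hD : Continuous (fderiv ℝ g) := hg.continuous_fderiv (by norm_num)
  -- a bound for the derivative
  obtain ⟨κ, hκ0, hκ⟩ : ∃ κ : ℝ, 0 ≤ κ ∧ ∀ x, ‖fderiv ℝ g x‖ ≤ κ := by
    have h1 : HasCompactSupport (fderiv ℝ g) := hc.fderiv ℝ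
    obtain ⟨κ, hκ⟩ := hD.bounded_above_of_compact_support h1
    exact ⟨max κ 0, le_max_right _ _, fun x => (hκ x).trans (le_max_left _ _)⟩
  obtain ⟨t₀, ht₀, htκ, c, hc0, hlip⟩ := enF_lip n hκ0 hδ
  -- the derivative of `id + t g`
  have hfd : ∀ (t : ℝ) (x : E n), fderiv ℝ (fun x => x + t • g x) x = 1 + t • fderiv ℝ g x := by
    intro t x
    have h1 : DifferentiableAt ℝ g x := (hg.differentiable (by norm_num)) x
    have h2 := ((hasFDerivAt_id (𝕜 := ℝ) x).add (h1.hasFDerivAt.const_smul t)).fderiv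
    exact h2
  have hF : (fun t : ℝ => ∫ x, Ψ (img (fderiv ℝ (fun x => x + t • g x) x) (T x))
        * jac (fderiv ℝ (fun x => x + t • g x) x) (T x) ∂μ)
      = fun t : ℝ => ∫ x, enF Ψ (T x) (fderiv ℝ g x) t ∂μ := by
    funext t
    refine integral_congr_ae (Eventually.of_forall fun x => ?_)
    simp only [hfd]
    rfl
  rw [hF]
  have hm : ∀ t : ℝ, |t| ≤ t₀ →
      AEStronglyMeasurable (fun x => enF Ψ (T x) (fderiv ℝ g x) t) μ := by
    intro t ht
    have h1 : AEStronglyMeasurable (fun x => t • fderiv ℝ g x) μ :=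
      (hD.const_smul t).aestronglyMeasurable
    have h2 : ∀ x, ‖t • fderiv ℝ g x‖ ≤ 1 / 8 := by
      intro x
      rw [norm_smul, Real.norm_eq_abs]
      calc |t| * ‖fderiv ℝ g x‖ ≤ t₀ * κ := by
            gcongr
            exact hκ x
        _ ≤ 1 / 8 := htκ
    have h3 := h.measurable_orb hT hP h1 h2 hδ
    have h4 : AEStronglyMeasurable (fun x => (1 : Op n) + t • fderiv ℝ g x) μ :=
      ((continuous_const.add (hD.const_smul t))).aestronglyMeasurable
    exact h3.mul (measurable_jac h4 hP)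
  have hd : ∀ᵐ x ∂μ, HasDerivAt (enF Ψ (T x) (fderiv ℝ g x)) (fvF Ψ (T x) (fderiv ℝ g x)) 0 := by
    filter_upwards [hT] with x hx
    exact h.hasDerivAt_enF hx _
  -- measurability of the derivative: limit of difference quotients
  have hd' : AEStronglyMeasurable (fun x => fvF Ψ (T x) (fderiv ℝ g x)) μ := by
    have h1 : ∀ k : ℕ, AEStronglyMeasurable (fun x => ((k : ℝ) + 1) / t₀ *
        (enF Ψ (T x) (fderiv ℝ g x) (t₀ / (k + 1)) - enF Ψ (T x) (fderiv ℝ g x) 0)) μ := by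
      intro k
      have h2 : |t₀ / (k + 1)| ≤ t₀ := by
        rw [abs_of_pos (by positivity)]
        exact div_le_self ht₀.le (by linarith [k.cast_nonneg (α := ℝ)])
      exact (((hm _ h2).sub (hm 0 (by rw [abs_zero]; exact ht₀.le)))).const_mul _
    refine aestronglyMeasurable_of_tendsto_ae atTop h1 ?_
    filter_upwards [hd] with x hx
    have h2 : Tendsto (fun k : ℕ => t₀ / ((k : ℝ) + 1)) atTop (𝓝[≠] 0) := by
      rw [tendsto_nhdsWithin_iff]
      constructor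
      · have h3 : Tendsto (fun k : ℕ => (k : ℝ) + 1) atTop atTop :=
          tendsto_atTop_add_const_right _ _ tendsto_natCast_atTop_atTop
        exact h3.const_div_atTop t₀
      · filter_upwards with k
        have : t₀ / ((k : ℝ) + 1) ≠ 0 := by positivity
        exact this
    have h3 := (hasDerivAt_iff_tendsto_slope.1 hx).comp h2
    refine h3.congr fun k => ?_
    simp only [Function.comp_apply, slope_def_field]
    rw [sub_zero]
    have h4 : (k : ℝ) + 1 ≠ 0 := by positivity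
    field_simp
  have hi : Integrable (fun x => enF Ψ (T x) (fderiv ℝ g x) 0) μ := by
    refine Integrable.mono' (integrable_const (1 + δ)) (hm 0 (by rw [abs_zero]; exact ht₀.le)) ?_
    filter_upwards [hT] with x hx
    have e0 : (0 : ℝ) • fderiv ℝ g x = 0 := by
      ext1 v
      rw [ContinuousLinearMap.smul_apply, zero_smul]
      rfl
    unfold enF
    rw [e0, add_zero, jac_one, mul_one, orb_zero, Real.norm_eq_abs, abs_le]
    have h2 := abs_le.1 (h.b0 hx)
    constructor <;> linarith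
  have hl : ∀ᵐ x ∂μ, LipschitzOnWith (Real.nnabs c)
      (fun t => enF Ψ (T x) (fderiv ℝ g x) t) (closedBall 0 t₀) := by
    filter_upwards [hT] with x hx
    refine LipschitzOnWith.of_dist_le_mul fun s hs t ht => ?_
    rw [Real.dist_eq, Real.dist_eq, Real.coe_nnabs, abs_of_nonneg hc0]
    exact hlip m Ψ h (T x) _ hx (hκ x) s t (by simpa using hs) (by simpa using ht)
  have hres := hasDerivAt_integral_of_dominated_loc_of_lip (μ := μ) (𝕜 := ℝ)
    (F := fun t x => enF Ψ (T x) (fderiv ℝ g x) t)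
    (F' := fun x => fvF Ψ (T x) (fderiv ℝ g x)) (x₀ := (0 : ℝ)) (s := closedBall 0 t₀)
    (bound := fun _ => c) (closedBall_mem_nhds _ ht₀)
    (by
      filter_upwards [closedBall_mem_nhds (0 : ℝ) ht₀] with t ht
      exact hm t (by simpa using ht)) hi hd' hl (integrable_const c) hd
  exact hres.2

end AllardStm
end
end

section

/-!
# From a varifold to a system
-/

noncomputable section

open MeasureTheory Metric Set Filter Topology

namespace AllardStm

open Allard (tr rk tp Pr Stress Sys om)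

variable {n m : ℕ} {δ : ℝ} {Ψ : Submodule ℝ (E n) → ℝ}

theorem isClosed_pr (n m : ℕ) : IsClosed {P : Op n | Pr n m P} := by
  have h1 : {P : Op n | Pr n m P}
      = {P : Op n | P * P = P} ∩ {P : Op n | tp P = P} ∩ {P : Op n | tr P = m} := by
    ext P
    constructor
    · intro h
      exact ⟨⟨h.idem, h.symm⟩, h.trp⟩
    · rintro ⟨⟨h1, h2⟩, h3⟩
      exact ⟨h1, h2, h3⟩
  rw [h1]
  refine ((isClosed_eq (continuous_id.mul continuous_id) continuous_id).inter
    (isClosed_eq ?_ continuous_id)).inter (isClosed_eq Allard.continuous_tr continuous_const)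
  exact (ContinuousLinearMap.adjoint (𝕜 := ℝ) (E := E n) (F := E n)).continuous

theorem exists_plane (h : m ≤ n) : ∃ T : Submodule ℝ (E n), Module.finrank ℝ T = m := by
  have h1 : m ≤ Module.finrank ℝ (E n) := by
    rw [finrank_euclideanSpace, Fintype.card_fin]
    exact h
  obtain ⟨f, hf⟩ := exists_linearIndependent_of_le_finrank h1
  exact ⟨Submodule.span ℝ (Set.range f), by rw [finrank_span_eq_card hf, Fintype.card_fin]⟩

/-- A measurable version of an a.e. measurable family of projections. -/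
theorem exists_measurable_pr (hmn : m ≤ n) {μ : Measure (E n)} {P : E n → Op n}
    (hP : AEMeasurable P μ) (h : ∀ᵐ x ∂μ, Pr n m (P x)) :
    ∃ P' : E n → Op n, Measurable P' ∧ (∀ x, Pr n m (P' x)) ∧ ∀ᵐ x ∂μ, P' x = P x := by
  classical
  obtain ⟨T, hT⟩ := exists_plane hmn
  have hs : MeasurableSet {x | Pr n m (hP.mk P x)} :=
    hP.measurable_mk (isClosed_pr n m).measurableSet
  refine ⟨fun x => if Pr n m (hP.mk P x) then hP.mk P x else proj T,
    Measurable.ite hs hP.measurable_mk measurable_const, fun x => ?_, ?_⟩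
  · dsimp only
    split_ifs with hx
    · exact hx
    · exact pr_proj hT
  · filter_upwards [h, hP.ae_eq_mk] with x hx hx'
    rw [← hx', if_pos hx]

theorem tangent_finrank {Γ : Set (E n)} {x : E n} {T : Submodule ℝ (E n)}
    (h : IsTangent m Γ x T) : Module.finrank ℝ T = m := by
  obtain ⟨ι, hι, -⟩ := h.old
  rw [← hι, LinearMap.finrank_range_of_inj ι.injective, finrank_euclideanSpace, Fintype.card_fin]

theorem Varifold.mass_ac {U : Set (E n)} (V : Varifold n m U) :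
    V.mass ≪ (haus n m).restrict V.Γ := withDensity_absolutelyContinuous _ _

/-- Every varifold with mean curvature in `L^p` and finite mass is a system. -/
theorem exists_sys (hm : 1 ≤ m) (hmn : m ≤ n) (h : Hyp m δ Ψ) (hδ : 0 ≤ δ)
    (S : Stress n m (10 * δ))
    (hS : ∀ T : Submodule ℝ (E n), Module.finrank ℝ T = m →
      S.ψ (proj T) = Ψ T ∧ S.C (proj T) = rep (fderiv ℝ (orb Ψ T) 0))
    (V : Varifold n m (ball 0 1)) [IsFiniteMeasure V.mass] {H : E n → E n}
    (hH : V.IsMeanCurvature Ψ H) {p Λ : ℝ} (hp : m < p) (hΛ : 0 ≤ Λ)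
    (hHp : MemLp H (ENNReal.ofReal p) V.mass)
    (hHΛ : eLpNorm H (ENNReal.ofReal p) V.mass ≤ ENNReal.ofReal Λ) :
    ∃ W : Sys S (1 - m / p) Λ (ball 0 1), W.μ = V.mass ∧ W.AE := by
  have hp1 : 1 < p := lt_of_le_of_lt (by exact_mod_cast hm) hp
  haveI : IsFiniteMeasure ((haus n m).restrict V.Γ) := by
    constructor
    exact lt_of_le_of_lt (V.restrict_le_mass univ) (measure_lt_top _ _)
  have hT : ∀ᵐ x ∂V.mass, Module.finrank ℝ (V.T x) = m :=
    V.mass_ac.ae_le (V.tan.mono fun x hx => tangent_finrank hx)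
  have hP : AEMeasurable (fun x => proj (V.T x)) V.mass :=
    (aemeasurable_proj hm V.tan).mono_ac V.mass_ac
  obtain ⟨P, mP, prP, eP⟩ := exists_measurable_pr hmn hP (hT.mono fun x hx => pr_proj hx)
  have hHm : AEStronglyMeasurable H V.mass := hHp.1
  set H' := hHm.mk H with hH'
  have mH' : StronglyMeasurable H' := hHm.stronglyMeasurable_mk
  have eH : ∀ᵐ x ∂V.mass, H x = H' x := hHm.ae_eq_mk
  have hnorm : eLpNorm H' (ENNReal.ofReal p) V.mass ≤ ENNReal.ofReal Λ := by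
    rw [← eLpNorm_congr_ae eH]
    exact hHΛ
  have hmem : MemLp H' (ENNReal.ofReal p) V.mass := (memLp_congr_ae eH).1 hHp
  have hint : Integrable H' V.mass := by
    refine hmem.integrable ?_
    rw [ENNReal.one_le_ofReal]
    exact hp1.le
  refine ⟨{ μ := V.mass, P := P, H := H', fin := inferInstance, mP := mP, hP := prP,
            mH := mH'.measurable, iH := hint, fv := ?_, hb := ?_ }, rfl, V.density⟩
  · intro g hg hc hs
    have h1 := hH g hg hc hs
    have h2 := (h.hasDerivAt_energy hδ hT hP.aestronglyMeasurable hg hc).deriv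
    have h3 : V.firstVariation Ψ g = ∫ x, fvF Ψ (V.T x) (fderiv ℝ g x) ∂V.mass := by
      rw [← h2]
      unfold Varifold.firstVariation Varifold.energy
      congr 1
      funext t
      refine integral_congr_ae ?_
      filter_upwards [hT] with x hx
      rw [jacobian_eq _ hx]
    rw [h3] at h1
    have h4 : ∫ z, tr (S.B (P z) * fderiv ℝ g z) ∂V.mass
        = ∫ x, fvF Ψ (V.T x) (fderiv ℝ g x) ∂V.mass := by
      refine integral_congr_ae ?_
      filter_upwards [hT, eP] with x hx hx'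
      rw [hx']
      obtain ⟨h5, h6⟩ := hS (V.T x) hx
      unfold fvF Allard.Stress.B
      have h7 : (Ψ (V.T x) • proj (V.T x) : Op n) * fderiv ℝ g x
          = Ψ (V.T x) • (proj (V.T x) * fderiv ℝ g x) := by
        ext1 v
        rfl
      rw [h5, h6, add_mul, Allard.tr_add, tr_rep_mul, h7, Allard.tr_smul]
      ring
    have h5 : ∫ x, inner ℝ (H x) (g x) ∂V.mass = ∫ x, inner ℝ (H' x) (g x) ∂V.mass := by
      refine integral_congr_ae ?_
      filter_upwards [eH] with x hx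
      rw [hx]
    rw [h4, h1, h5]
  · intro f hf hf0 hf1 r hr
    exact hb_of_eLpNorm mH'.measurable hp1 hΛ hnorm hf hf0 hf1 hr

end AllardStm
end
end

section

/-!
# From the theorem on systems to the theorem on varifolds
-/

noncomputable section

open MeasureTheory Metric Set Filter Topology
open scoped ENNReal

namespace AllardStm

open Allard (tr rk tp Pr Stress Sys om)

variable {n m : ℕ}

/-- The regularity theorem for systems. -/
def SysTheorem (n m : ℕ) : Prop :=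
  ∃ δ₀ : ℝ, 0 < δ₀ ∧ ∀ α ∈ Ioo (0 : ℝ) 1, ∃ ε ∈ Ioo (0 : ℝ) 1, ∃ γ ∈ Ioo (0 : ℝ) 1,
    ∃ β ∈ Ioo (0 : ℝ) 1, ∀ (δ : ℝ), 0 ≤ δ → δ ≤ δ₀ → ∀ (S : Stress n m δ) (Λ : ℝ), 0 ≤ Λ → Λ ≤ ε →
      ∀ V : Sys S α Λ (ball 0 1), V.AE → 0 ∈ V.μ.support →
        V.μ.real (ball 0 1) ≤ (1 + ε) * om m →
        ∃ (Q : Op n) (D : E n → Op n) (c : ℝ), Pr n m Q ∧
          (∀ y ∈ V.μ.support ∩ ball 0 γ, ∀ z ∈ V.μ.support ∩ ball 0 γ,
            ‖(1 - Q) (z - y)‖ ≤ 1 / 2 * ‖Q (z - y)‖) ∧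
          (∀ y ∈ V.μ.support ∩ ball 0 γ, ∃ ρ : ℝ, 0 < ρ ∧ ∀ x : E n, Q x = x → ‖x - Q y‖ < ρ →
            ∃ z ∈ V.μ.support ∩ ball 0 γ, Q z = x) ∧
          (∀ y ∈ V.μ.support ∩ ball 0 γ, ∀ z ∈ V.μ.support ∩ ball 0 γ,
            ‖(1 - Q) (z - y) - D y (Q (z - y))‖ ≤ c * ‖Q (z - y)‖ ^ (1 + β)) ∧
          (∀ y ∈ V.μ.support ∩ ball 0 γ, ∀ z ∈ V.μ.support ∩ ball 0 γ,
            ‖D y - D z‖ ≤ c * ‖y - z‖ ^ β)

theorem omega_eq (m : ℕ) : omega m = om m := rfl

theorem omega_nonneg (m : ℕ) : 0 ≤ omega m := ENNReal.toReal_nonneg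

theorem mass_univ (V : Varifold n m (ball 0 1)) : V.mass univ = V.mass (ball 0 1) := by
  refine le_antisymm ?_ (measure_mono (subset_univ _))
  have h0 : V.mass (ball 0 1)ᶜ = 0 := by
    refine V.mass_ac ?_
    rw [Measure.restrict_apply measurableSet_ball.compl]
    have h1 : (ball (0 : E n) 1)ᶜ ∩ V.Γ = ∅ := by
      rw [Set.eq_empty_iff_forall_notMem]
      rintro x ⟨hx, hx'⟩
      exact hx (V.sub hx')
    rw [h1, measure_empty]
  calc V.mass univ = V.mass (ball 0 1 ∪ (ball 0 1)ᶜ) := by rw [Set.union_compl_self]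
    _ ≤ V.mass (ball 0 1) + V.mass (ball 0 1)ᶜ := measure_union_le _ _
    _ = V.mass (ball 0 1) := by rw [h0, add_zero]

/-- The theorem for a real exponent. -/
theorem allard_real (hm : 1 ≤ m) (hmn : m < n) (hS : SysTheorem n m) :
    ∃ δ : ℝ, 0 < δ ∧ ∀ Ψ : Submodule ℝ (E n) → ℝ, IsIntegrand m 2 Ψ → CloseToArea m 2 δ Ψ →
      ∀ p : ℝ, m < p → ∃ ε ∈ Ioo (0 : ℝ) 1, ∃ γ ∈ Ioo (0 : ℝ) 1, ∃ α ∈ Ioo (0 : ℝ) 1,
        ∀ (V : Varifold n m (ball 0 1)) (H : E n → E n), V.IsMeanCurvature Ψ H →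
          MemLp H (ENNReal.ofReal p) V.mass →
          eLpNorm H (ENNReal.ofReal p) V.mass ≤ ENNReal.ofReal ε →
          0 ∈ V.mass.support →
          V.mass (ball 0 1) ≤ ENNReal.ofReal ((1 + ε) * omega m) →
          IsC1HolderGraph m α (V.mass.support ∩ ball 0 γ) := by
  obtain ⟨δ₀, hδ₀, hS⟩ := hS
  refine ⟨δ₀ / 10, by positivity, fun Ψ hΨ hc p hp => ?_⟩
  have hm1 : (1 : ℝ) ≤ m := by exact_mod_cast hm
  have hp0 : 0 < p := by linarith
  have hα : 1 - m / p ∈ Ioo (0 : ℝ) 1 := by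
    constructor
    · have : (m : ℝ) / p < 1 := (div_lt_one hp0).2 hp
      linarith
    · have : 0 < (m : ℝ) / p := by positivity
      linarith
  obtain ⟨ε, hε, γ, hγ, β, hβ, hS⟩ := hS _ hα
  refine ⟨ε, hε, γ, hγ, β, hβ, fun V H hH hHp hHε h0 hV => ?_⟩
  have hyp : Hyp m (δ₀ / 10) Ψ := ⟨fun T hT => hΨ.2 T hT, hc⟩
  obtain ⟨S, hSΨ⟩ := hyp.exists_stress (by positivity)
  haveI : IsFiniteMeasure V.mass := by
    constructor
    rw [mass_univ]
    exact lt_of_le_of_lt hV ENNReal.ofReal_lt_top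
  obtain ⟨W, hW, hAE⟩ := exists_sys hm hmn.le hyp (by positivity) S hSΨ V hH hp hε.1.le hHp hHε
  have hV' : V.mass.real (ball 0 1) ≤ (1 + ε) * om m := by
    have h1 := ENNReal.toReal_mono ENNReal.ofReal_ne_top hV
    rw [ENNReal.toReal_ofReal (mul_nonneg (by linarith [hε.1]) (omega_nonneg m))] at h1
    exact h1
  obtain ⟨Q, D, c, hQ, h1, h2, h3, h4⟩ := hS (10 * (δ₀ / 10)) (by positivity) (by linarith) S ε
    hε.1.le le_rfl W hAE (by rw [hW]; exact h0) (by rw [hW]; exact hV')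
  rw [hW] at h1 h2 h3 h4
  refine graph_of_proj hmn hQ hβ.1 ?_ D h1 h2 h3 h4
  intro x hx
  exact ball_subset_ball hγ.2.le hx.2

/-- The theorem on varifolds. -/
theorem allard_of_sys (hm : 1 ≤ m) (hmn : m < n) (hS : SysTheorem n m) :
    ∃ δ : ℝ, 0 < δ ∧ ∀ Ψ : Submodule ℝ (E n) → ℝ, IsIntegrand m 2 Ψ → CloseToArea m 2 δ Ψ →
      AllardTheorem n m Ψ := by
  obtain ⟨δ, hδ, h⟩ := allard_real hm hmn hS
  refine ⟨δ, hδ, fun Ψ hΨ hc p hp => ?_⟩
  have h := h Ψ hΨ hc
  by_cases hpt : p = ⊤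
  · -- reduction to the exponent `m + 1`
    obtain ⟨ε, hε, γ, hγ, α, hα, h⟩ := h (m + 1) (by linarith)
    set M : ℝ := 2 * omega m with hM
    have hM0 : 0 ≤ M := by
      rw [hM]
      linarith [omega_nonneg m]
    set K : ℝ := M ^ (1 / ((m : ℝ) + 1)) with hK
    have hK0 : 0 ≤ K := Real.rpow_nonneg hM0 _
    refine ⟨ε / (K + 1), ⟨by have := hε.1; positivity, ?_⟩, γ, hγ, α, hα,
      fun V ⟨h0, hV, H, hH, hHp, hHε⟩ => ?_⟩
    · refine lt_of_le_of_lt ?_ hε.2
      exact div_le_self hε.1.le (by linarith)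
    have hε' : ε / (K + 1) ≤ ε := div_le_self hε.1.le (by linarith)
    have hε0 : 0 ≤ ε / (K + 1) := div_nonneg hε.1.le (by linarith)
    have hV2 : V.mass univ ≤ ENNReal.ofReal M := by
      rw [mass_univ]
      refine hV.trans (ENNReal.ofReal_le_ofReal ?_)
      rw [hM]
      have := omega_nonneg m
      have := hε.2
      nlinarith
    haveI : IsFiniteMeasure V.mass := ⟨lt_of_le_of_lt hV2 ENNReal.ofReal_lt_top⟩
    have h1 := eLpNorm_le_top (H := H) (q := (m : ℝ) + 1) hHp.1 (by positivity) hV2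
    have h2 : eLpNorm H (ENNReal.ofReal ((m : ℝ) + 1)) V.mass ≤ ENNReal.ofReal ε := by
      refine h1.trans ?_
      rw [hpt] at hHε
      rw [ENNReal.ofReal_rpow_of_nonneg hM0 (by positivity)]
      calc _ ≤ ENNReal.ofReal (ε / (K + 1)) * ENNReal.ofReal K := by gcongr
        _ = ENNReal.ofReal (ε / (K + 1) * K) := (ENNReal.ofReal_mul hε0).symm
        _ ≤ ENNReal.ofReal ε := by
            refine ENNReal.ofReal_le_ofReal ?_
            rw [div_mul_eq_mul_div, div_le_iff₀ (by linarith)]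
            nlinarith [hε.1]
    refine h V H hH ⟨hHp.1, lt_of_le_of_lt h2 ENNReal.ofReal_lt_top⟩ h2 h0
      (hV.trans (ENNReal.ofReal_le_ofReal ?_))
    have := omega_nonneg m
    nlinarith
  · obtain ⟨ε, hε, γ, hγ, α, hα, h⟩ := h p.toReal (by
      have h1 : ((m : ℝ≥0∞)).toReal < p.toReal :=
        (ENNReal.toReal_lt_toReal (ENNReal.natCast_ne_top m) hpt).2 hp
      rwa [ENNReal.toReal_natCast] at h1)
    rw [ENNReal.ofReal_toReal hpt] at h
    exact ⟨ε, hε, γ, hγ, α, hα, fun V ⟨h0, hV, H, hH, hHp, hHε⟩ => h V H hH hHp hHε h0 hV⟩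

end AllardStm
end
end
end
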